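import Pool.Agent.MP_48470b_gt.TT.X
import Pool.Agent.MP_48470b_gt.Gap.Loc

/-! Executable definitions: affine enclosures of a model on a cell. -/

namespace Pool.Agent.MP_48470b_gt.Ck

open TT
open Gap (Z)

/-- distance of two numbers -/
def ds (a b : Nat) : Nat := (a.sub b).add (b.sub a)

/-- the variables on a cell are `X i = (a i + b i * t i) / N`, `|X i| ^ 3 ≤ g / 2 ^ 48` -/
structure Ce where
  N : Nat
  a0 : Nat
  a1 : Nat
  a2 : Nat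
  b0 : Nat
  b1 : Nat
  b2 : Nat
  g : Nat

/-- affine function `A0 + A1 t0 + A2 t1 + A3 t2` with error `e` -/
structure Af where
  A0 : Z
  A1 : Z
  A2 : Z
  A3 : Z
  e : Nat

namespace Ce

def cube (a : Nat) : Nat := (a.mul a).mul a
def gm (H m w : Nat) : Nat := (((m.add w).shiftLeft 15).div H).add 1
/-- from `X i = (m i + w i * t i) / (2 * H i)` -/
def of (H0 H1 H2 m0 m1 m2 w0 w1 w2 : Nat) : Ce :=
  ⟨((H0.mul H1).mul H2).mul 2, m0.mul (H1.mul H2), m1.mul (H0.mul H2), m2.mul (H0.mul H1),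
    w0.mul (H1.mul H2), w1.mul (H0.mul H2), w2.mul (H0.mul H1),
    cube (Gap.Loc.mx (gm H0 m0 w0) (Gap.Loc.mx (gm H1 m1 w1) (gm H2 m2 w2)))⟩
/-- the cell `lo i ≤ hs i * X i + cs i ≤ hi i` -/
def box (hs cs lo hi : Fin 3 → Nat) : Ce :=
  of (hs 0) (hs 1) (hs 2) (((lo 0).add (hi 0)).sub ((cs 0).mul 2))
    (((lo 1).add (hi 1)).sub ((cs 1).mul 2)) (((lo 2).add (hi 2)).sub ((cs 2).mul 2))
    ((hi 0).sub (lo 0)) ((hi 1).sub (lo 1)) ((hi 2).sub (lo 2))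

variable (e : Ce)

def N2 : Nat := e.N.mul 2
def NN : Nat := e.N2.mul e.N
def sq (a b : Nat) : Nat := ((a.mul a).mul 2).add (b.mul b)
def s0 : Nat := sq e.a0 e.b0
def s1 : Nat := sq e.a1 e.b1
def s2 : Nat := sq e.a2 e.b2
/-- constant term -/
def k0 (c c0 c1 c2 q0 q1 q2 x01 x02 x12 : Nat) : Nat :=
  (((c.mul e.NN).add ((((c0.mul e.a0).add (c1.mul e.a1)).add (c2.mul e.a2)).mul e.N2)).add
    (((q0.mul e.s0).add (q1.mul e.s1)).add (q2.mul e.s2))).add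
    (((e.a0.mul ((x01.mul e.a1).add (x02.mul e.a2))).add ((x12.mul e.a1).mul e.a2)).mul 2)
/-- linear term -/
def k1 (a b c q x a' x' a'' : Nat) : Nat :=
  ((((c.mul e.N).add ((q.mul a).mul 2)).add ((x.mul a').add (x'.mul a''))).mul b).mul 2
/-- error -/
def ke (q0 q1 q2 x01 x02 x12 r : Nat) : Nat :=
  ((((e.b0.mul ((q0.mul e.b0).add (((x01.mul e.b1).add (x02.mul e.b2)).mul 2))).add
    (e.b1.mul ((q1.mul e.b1).add ((x12.mul e.b2).mul 2)))).add ((q2.mul e.b2).mul e.b2))).add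
    (r.mul e.NN)
def rs (n r t : Nat) : Nat := (r.add (((n.sub t).mul e.g).shiftRight 48)).add 1
/-- `2 N ^ 2` times a model with the given offset coefficients -/
def af' (o n r c c0 c1 c2 q0 q1 q2 x01 x02 x12 : Nat) : Af :=
  ⟨⟨e.k0 c c0 c1 c2 q0 q1 q2 x01 x02 x12, e.k0 o o o o o o o o o o⟩,
    ⟨e.k1 e.a0 e.b0 c0 q0 x01 e.a1 x02 e.a2, e.k1 e.a0 e.b0 o o o e.a1 o e.a2⟩,
    ⟨e.k1 e.a1 e.b1 c1 q1 x01 e.a0 x12 e.a2, e.k1 e.a1 e.b1 o o o e.a0 o e.a2⟩,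
    ⟨e.k1 e.a2 e.b2 c2 q2 x02 e.a0 x12 e.a1, e.k1 e.a2 e.b2 o o o e.a0 o e.a1⟩,
    e.ke (ds q0 o) (ds q1 o) (ds q2 o) (ds x01 o) (ds x02 o) (ds x12 o) (e.rs n r
      ((((((ds c o).add (ds c0 o)).add (ds c1 o)).add (ds c2 o)).add
        (((ds q0 o).add (ds q1 o)).add (ds q2 o))).add
        (((ds x01 o).add (ds x02 o)).add (ds x12 o))))⟩
def af2 (o n r : Nat) (f : Nat → Nat) (p0 p1 : Nat) : Af :=
  e.af' o n r (f 0) (f p0) (f p1) (f 1) (f (p0.add p0)) (f (p1.add p1)) (f 2)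
    (f (p0.add p1)) (f (p0.add 1)) (f (p1.add 1))
/-- affine enclosure of `2 N ^ 2` times a model -/
def af (c : Cfg) (a : T) : Af := e.af2 (p2 c.u1) a.n a.r (c.cn (c.S.mul 3) a) c.S c.B2

end Ce

namespace Af

variable (A : Af) (kn kd : Nat)

/-- `|kn * a - kd * d|` -/
def dv (a d : Z) : Nat := ds ((a.p.mul kn).add (d.n.mul kd)) ((a.n.mul kn).add (d.p.mul kd))
def up (d1 d2 d3 : Z) : Nat :=
  (((dv kn kd A.A1 d1).add (dv kn kd A.A2 d2)).add (dv kn kd A.A3 d3)).add (A.e.mul kn)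
/-- two sided test -/
def ok2 (d0 d1 d2 d3 E : Z) : Bool :=
  (((dv kn kd A.A0 d0).add (A.up kn kd d1 d2 d3)).add (E.n.mul kd)).ble (E.p.mul kd)
/-- one sided test -/
def ok1 (d0 d1 d2 d3 : Z) : Bool :=
  (((A.A0.p.mul kn).add (A.up kn kd d1 d2 d3)).add (d0.n.mul kd)).ble
    ((A.A0.n.mul kn).add (d0.p.mul kd))
/-- the tests against the fields of a word -/
def okB (w : Nat) : Bool := A.ok2 kn kd (Gap.Loc.f32 w 0) (Gap.Loc.f32 w 32) (Gap.Loc.f32 w 96)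
  (Gap.Loc.f32 w 64) (Gap.Loc.f32 w 128)
def okV (w : Nat) : Bool := A.ok1 kn kd (Gap.Loc.f32 w 0) (Gap.Loc.f32 w 32) (Gap.Loc.f32 w 96)
  (Gap.Loc.f32 w 64)
/-- field of a word -/
def fl (a : Z) : Nat := (((a.p.mul kn).add (kd.mul 2147483648)).sub (a.n.mul kn)).div kd
/-- error with the margin `m / 64` -/
def er (m : Nat) : Nat := (((A.e.mul kn).mul (m.add 64)).div (kd.mul 64)).add 6
def w3 : Nat := ((fl kn kd A.A1).add ((fl kn kd A.A3).shiftLeft 32)).add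
  ((fl kn kd A.A2).shiftLeft 64)
/-- candidates for the fields -/
def w2 (m : Nat) : Nat := ((fl kn kd A.A0).add ((A.w3 kn kd).shiftLeft 32)).add
  (((A.er kn kd m).add 2147483648).shiftLeft 128)
def w1 (m : Nat) : Nat := ((fl kn kd A.A0).add (A.er kn kd m)).add ((A.w3 kn kd).shiftLeft 32)

end Af

end Pool.Agent.MP_48470b_gt.Ck
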