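import Pool.Agent.MP_48470b_gt.TT.Out
import Pool.Agent.MP_48470b_gt.Gap.LocS
import Pool.Agent.MP_48470b_gt.Ck.AfX

/-! Soundness of the affine enclosures on a cell. -/

set_option maxHeartbeats 400000

open Finset

namespace Pool.Agent.MP_48470b_gt.Ck

open TT TT.Cfg
open Gap (Z)

theorem ds_cast (a b : ℕ) : (ds a b : ℝ) = |(a : ℝ) - b| := by
  simp only [ds, Nat.add_eq, Nat.sub_eq]
  rcases le_total a b with h | h
  · rw [Nat.sub_eq_zero_of_le h, zero_add, Nat.cast_sub h, abs_sub_comm,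
      abs_of_nonneg (sub_nonneg.2 (Nat.cast_le.2 h))]
  · rw [Nat.sub_eq_zero_of_le h, add_zero, Nat.cast_sub h,
      abs_of_nonneg (sub_nonneg.2 (Nat.cast_le.2 h))]

section low

variable {c : Cfg} {a : T} {x : Fin 3 → ℝ}

theorem mono_comp {i j k : ℕ} (hc : c.Ok) (hi : i < 3) (hj : j < 3) (hk : k < 3) :
    c.mono x (i * c.S + j * c.B2 + k) = x 0 ^ i * x 1 ^ j * x 2 ^ k := by
  obtain ⟨e0, e1, e2, -⟩ := comp (c := c) (hi.trans_le hc.2.1.1) (hj.trans_le hc.2.1.2.1)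
    (hk.trans_le hc.2.1.2.2)
  rw [mono, e0, e1, e2]

/-- the ten slots of degree at most two -/
def s10 (c : Cfg) : Finset ℕ :=
  {0, c.S, c.B2, 1, c.S + c.S, c.B2 + c.B2, 2, c.S + c.B2, c.S + 1, c.B2 + 1}

theorem deg3 {t : ℕ} (ht : t < c.N) (h : t ∉ s10 c) : 3 ≤ c.ex 0 t + c.ex 1 t + c.ex 2 t := by
  have e := dec ht
  simp only [s10, mem_insert, mem_singleton, not_or] at h
  by_contra hl
  generalize c.ex 0 t = i at e hl
  generalize c.ex 1 t = j at e hl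
  generalize c.ex 2 t = k at e hl
  have hi : i < 3 := by omega
  have hj : j < 3 := by omega
  interval_cases i <;> interval_cases j <;> omega

theorem sum10 (hc : c.Ok) (φ : ℕ → ℝ) : ∑ t ∈ s10 c, φ t = φ 0 + φ c.S + φ c.B2 + φ 1 +
    φ (c.S + c.S) + φ (c.B2 + c.B2) + φ 2 + φ (c.S + c.B2) + φ (c.S + 1) + φ (c.B2 + 1) := by
  have hB := hc.2.1.2.2
  have hS : 3 * c.B2 ≤ c.S := Nat.mul_le_mul_right _ hc.2.1.2.1
  rw [s10]
  iterate 9 rw [sum_insert (by simp only [mem_insert, mem_singleton]; omega)]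
  simp only [sum_singleton, add_assoc]

theorem low10 (hc : c.Ok) (h : c.WF a) {v γ : ℝ} (hv : |v - c.pol x a| ≤ a.r)
    (h1 : ∀ i, |x i| ≤ 1) (hx : ∀ i, |x i| ≤ γ) :
    |v - ∑ t ∈ s10 c, (c.cz (c.S * 3) a t : ℝ) * c.mono x t| ≤
      a.r + (a.n - ∑ t ∈ s10 c, |(c.cz (c.S * 3) a t : ℝ)|) * γ ^ 3 ∧
      ∑ t ∈ s10 c, |(c.cz (c.S * 3) a t : ℝ)| ≤ a.n := by
  have hB := hc.2.1.2.2
  have hS : 3 * c.B2 ≤ c.S := Nat.mul_le_mul_right _ hc.2.1.2.1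
  have hK : c.S * 3 ≤ c.N := by rw [mul_comm]; exact Nat.mul_le_mul_right _ hc.2.1.1
  have hs : ∀ t ∈ s10 c, t < c.S * 3 := by
    simp only [s10, mem_insert, mem_singleton, forall_eq_or_imp, forall_eq]
    omega
  have l1 : c.l1 (c.ldc (a.U - c.QH)) ≤ a.n := by
    obtain ⟨D, h⟩ := h
    rw [h]
    exact le_trans (le_of_eq (sum_congr rfl fun t ht => by
      rw [ldc_mkT hc _ _ (mem_range.1 ht)])) (mkT_rep hc D a.r).2
  have h2 : s10 c ⊆ range c.N := fun t ht => mem_range.2 ((hs t ht).trans_le hK)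
  rw [sum_congr rfl fun t ht => by rw [cz_eq hc h hK (hs t ht)],
    sum_congr (s₁ := s10 c) (f := fun t => |(c.cz (c.S * 3) a t : ℝ)|) rfl
      fun t ht => by rw [cz_eq hc h hK (hs t ht)]]
  rw [pol, ev, ← sum_sdiff h2] at hv
  rw [Cfg.l1, ← sum_sdiff h2, ← Int.cast_le (R := ℝ)] at l1
  push_cast at l1
  generalize c.ldc (a.U - c.QH) = f at hv l1 ⊢
  have g0 : 0 ≤ min γ 1 := le_min ((abs_nonneg _).trans (hx 0)) zero_le_one
  have h4 : |∑ t ∈ range c.N \ s10 c, (f t : ℝ) • c.mono x t| ≤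
      (∑ t ∈ range c.N \ s10 c, |(f t : ℝ)|) * γ ^ 3 := by
    rw [sum_mul]
    refine (abs_sum_le_sum_abs _ _).trans (sum_le_sum fun t ht => ?_)
    rw [smul_eq_mul, abs_mul]
    refine mul_le_mul_of_nonneg_left ?_ (abs_nonneg _)
    have k : ∀ i n, |x i ^ n| ≤ min γ 1 ^ n := fun i n => by
      rw [abs_pow]
      exact pow_le_pow_left₀ (abs_nonneg _) (le_min (hx i) (h1 i)) n
    rw [mono, abs_mul, abs_mul]
    refine (mul_le_mul (mul_le_mul (k 0 _) (k 1 _) (abs_nonneg _) (pow_nonneg g0 _)) (k 2 _)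
      (abs_nonneg _) (by positivity)).trans ?_
    rw [← pow_add, ← pow_add]
    exact (pow_le_pow_of_le_one g0 (min_le_right _ _)
      (deg3 (mem_range.1 (mem_sdiff.1 ht).1) (mem_sdiff.1 ht).2)).trans
      (pow_le_pow_left₀ g0 (min_le_left _ _) 3)
  have h5 : 0 ≤ ∑ t ∈ range c.N \ s10 c, |(f t : ℝ)| := sum_nonneg fun _ _ => abs_nonneg _
  have h6 : 0 ≤ γ ^ 3 := pow_nonneg ((abs_nonneg _).trans (hx 0)) 3
  refine ⟨?_, by linarith⟩
  simp only [smul_eq_mul] at hv h4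
  have h7 := mul_le_mul_of_nonneg_right (le_sub_iff_add_le.2 l1) h6
  rw [abs_le] at hv h4 ⊢
  constructor <;> linarith [hv.1, hv.2, h4.1, h4.2]

end low

/-- value of the affine function -/
noncomputable def Af.v (A : Af) (t : Fin 3 → ℝ) : ℝ :=
  A.A0.v + A.A1.v * t 0 + A.A2.v * t 1 + A.A3.v * t 2

namespace Ce

variable {e : Ce} {x t : Fin 3 → ℝ}

variable (e x t) in
/-- the point `x` has the cell coordinates `t` -/
structure At : Prop where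
  ht : ∀ i, |t i| ≤ 1
  h1 : ∀ i, |x i| ≤ 1
  x0 : e.N * x 0 = e.a0 + e.b0 * t 0
  x1 : e.N * x 1 = e.a1 + e.b1 * t 1
  x2 : e.N * x 2 = e.a2 + e.b2 * t 2
  hg : ∃ γ : ℝ, (∀ i, |x i| ≤ γ) ∧ γ ^ 3 * 2 ^ 48 ≤ e.g

theorem gm_ge {H m w : ℕ} (hH : 0 < H) {y s : ℝ} (hs : |s| ≤ 1) (h : 2 * H * y = m + w * s) :
    |y| * 2 ^ 16 ≤ gm H m w := by
  have h0 : (0 : ℝ) < H := Nat.cast_pos.2 hH
  have h1 : (((m + w) * 2 ^ 15 : ℕ) : ℝ) ≤ (H * gm H m w : ℕ) := by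
    rw [← Nat.shiftLeft_eq]
    exact Nat.cast_le.2 (Nat.lt_mul_div_succ _ hH).le
  have h2 : |2 * H * y| ≤ m + w := by
    rw [h]
    refine (abs_add_le _ _).trans ?_
    rw [abs_mul, Nat.abs_cast, Nat.abs_cast]
    nlinarith [Nat.cast_nonneg (α := ℝ) w]
  rw [abs_mul, abs_of_pos (by positivity)] at h2
  push_cast at h1
  refine le_of_mul_le_mul_left ?_ h0
  linarith

theorem mx_ge (a b : ℕ) : a ≤ Gap.Loc.mx a b ∧ b ≤ Gap.Loc.mx a b := by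
  simp only [Gap.Loc.mx, Nat.add_eq, Nat.sub_eq]; omega

theorem At.of {H m w : Fin 3 → ℕ} (hH : ∀ i, 0 < H i) (ht : ∀ i, |t i| ≤ 1) (h1 : ∀ i, |x i| ≤ 1)
    (h : ∀ i, 2 * H i * x i = m i + w i * t i) :
    (Ce.of (H 0) (H 1) (H 2) (m 0) (m 1) (m 2) (w 0) (w 1) (w 2)).At x t := by
  refine ⟨ht, h1, ?_, ?_, ?_, ?_⟩
  · simp only [Ce.of, Nat.mul_eq]; push_cast; linear_combination (H 1 * H 2 : ℝ) * h 0
  · simp only [Ce.of, Nat.mul_eq]; push_cast; linear_combination (H 0 * H 2 : ℝ) * h 1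
  · simp only [Ce.of, Nat.mul_eq]; push_cast; linear_combination (H 0 * H 1 : ℝ) * h 2
  · have k := fun i => gm_ge (hH i) (ht i) (h i)
    have m0 := mx_ge (gm (H 0) (m 0) (w 0))
      (Gap.Loc.mx (gm (H 1) (m 1) (w 1)) (gm (H 2) (m 2) (w 2)))
    have m1 := mx_ge (gm (H 1) (m 1) (w 1)) (gm (H 2) (m 2) (w 2))
    simp only [Ce.of, cube, Nat.mul_eq]
    generalize Gap.Loc.mx (gm (H 0) (m 0) (w 0)) _ = g at m0
    refine ⟨g / 2 ^ 16, fun i => (le_div_iff₀ (by positivity)).2 ((k i).trans (Nat.cast_le.2 ?_)),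
      le_of_eq (by push_cast; ring)⟩
    fin_cases i
    exacts [m0.1, m1.1.trans m0.2, m1.2.trans m0.2]

theorem At.box {hs cs lo hi : Fin 3 → ℕ} (hH : ∀ i, 0 < hs i) (ht : ∀ i, |t i| ≤ 1)
    (h1 : ∀ i, |x i| ≤ 1) (hc : ∀ i, cs i * 2 ≤ lo i + hi i) (hl : ∀ i, lo i ≤ hi i)
    (h : ∀ i, 2 * (hs i * x i + cs i) = lo i + hi i + (hi i - lo i) * t i) :
    (Ce.box hs cs lo hi).At x t :=
  At.of (m := fun i => lo i + hi i - cs i * 2) (w := fun i => hi i - lo i) hH ht h1 fun i => by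
    rw [Nat.cast_sub (hc i), Nat.cast_sub (hl i)]
    push_cast
    linear_combination h i

theorem sq_err {s : ℝ} (hs : |s| ≤ 1) (q : ℝ) : |q * (2 * s ^ 2 - 1)| ≤ |q| := by
  rw [abs_mul]
  refine mul_le_of_le_one_right (abs_nonneg _) (abs_le.2 ⟨?_, ?_⟩) <;>
    nlinarith [sq_nonneg s, (sq_le_one_iff_abs_le_one s).2 hs]

theorem mix_err {s s' : ℝ} (hs : |s| ≤ 1) (hs' : |s'| ≤ 1) (q : ℝ) : |q * (s * s')| ≤ |q| := by
  rw [abs_mul, abs_mul]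
  exact mul_le_of_le_one_right (abs_nonneg _) (mul_le_one₀ hs (abs_nonneg _) hs')

theorem At.af' (H : e.At x t) {o n r c c0 c1 c2 q0 q1 q2 x01 x02 x12 : ℕ} {v : ℝ}
    (h : ∀ γ : ℝ, (∀ i, |x i| ≤ γ) → |v - ((c - o : ℝ) + (c0 - o) * x 0 + (c1 - o) * x 1 +
      (c2 - o) * x 2 + (q0 - o) * x 0 ^ 2 + (q1 - o) * x 1 ^ 2 + (q2 - o) * x 2 ^ 2 +
      (x01 - o) * (x 0 * x 1) + (x02 - o) * (x 0 * x 2) + (x12 - o) * (x 1 * x 2))| ≤
      r + (n - (|(c - o : ℝ)| + |(c0 - o : ℝ)| + |(c1 - o : ℝ)| + |(c2 - o : ℝ)| +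
        |(q0 - o : ℝ)| + |(q1 - o : ℝ)| + |(q2 - o : ℝ)| + |(x01 - o : ℝ)| + |(x02 - o : ℝ)| +
        |(x12 - o : ℝ)|)) * γ ^ 3) :
    |e.NN * v - (e.af' o n r c c0 c1 c2 q0 q1 q2 x01 x02 x12).v t| ≤
      (e.af' o n r c c0 c1 c2 q0 q1 q2 x01 x02 x12).e := by
  obtain ⟨γ, g1, g2⟩ := H.hg
  have h := h γ g1
  have g0 : 0 ≤ γ ^ 3 := pow_nonneg ((abs_nonneg _).trans (g1 0)) 3
  have k : ∀ s : ℕ, (r : ℝ) + (n - s) * γ ^ 3 ≤ e.rs n r s := fun s => by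
    have k1 : (n : ℝ) - s ≤ (n - s : ℕ) := by
      rcases le_total s n with l | l
      · rw [Nat.cast_sub l]
      · exact (sub_nonpos.2 (Nat.cast_le.2 l)).trans (Nat.cast_nonneg _)
    have k2 := le_shr ((n - s) * e.g) 48 (x := (n - s) * γ ^ 3) (by
      rw [mul_assoc, Nat.cast_mul]
      exact mul_le_mul k1 g2 (by positivity) (Nat.cast_nonneg _))
    change _ ≤ ((r + ((n - s) * e.g) >>> 48 + 1 : ℕ) : ℝ)
    push_cast at k2 ⊢
    linarith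
  simp only [← ds_cast, ← Nat.cast_add] at h
  have h2 := h.trans (k _)
  simp only [Af.v, Ce.af', Z.v, k0, k1, ke, NN, N2, s0, s1, s2, Ce.sq, Nat.add_eq, Nat.mul_eq,
    ← add_assoc]
  generalize e.rs n r _ = R at h2 ⊢
  push_cast
  simp only [ds_cast]
  have b0 := Nat.cast_nonneg (α := ℝ) e.b0
  have b1 := Nat.cast_nonneg (α := ℝ) e.b1
  have b2 := Nat.cast_nonneg (α := ℝ) e.b2
  have a1 := mul_le_mul_of_nonneg_left h2 (show (0 : ℝ) ≤ e.N * 2 * e.N by positivity)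
  have a2 := mul_le_mul_of_nonneg_left (sq_err (H.ht 0) (q0 - o)) (mul_nonneg b0 b0)
  have a3 := mul_le_mul_of_nonneg_left (sq_err (H.ht 1) (q1 - o)) (mul_nonneg b1 b1)
  have a4 := mul_le_mul_of_nonneg_left (sq_err (H.ht 2) (q2 - o)) (mul_nonneg b2 b2)
  have a5 := mul_le_mul_of_nonneg_left (mix_err (H.ht 0) (H.ht 1) (x01 - o)) (mul_nonneg b0 b1)
  have a6 := mul_le_mul_of_nonneg_left (mix_err (H.ht 0) (H.ht 2) (x02 - o)) (mul_nonneg b0 b2)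
  have a7 := mul_le_mul_of_nonneg_left (mix_err (H.ht 1) (H.ht 2) (x12 - o)) (mul_nonneg b1 b2)
  have ab : ∀ {u w : ℝ}, 0 ≤ u → u * |w| = |u * w| := fun hu => by rw [abs_mul, abs_of_nonneg hu]
  rw [ab (by positivity)] at a1 a2 a3 a4 a5 a6 a7
  rw [abs_le] at a1 a2 a3 a4 a5 a6 a7 ⊢
  have e0 := H.x0
  have e1 := H.x1
  have e2 := H.x2
  have i0 : (e.N * x 0) ^ 2 = _ := congrArg (· ^ 2) e0
  have i1 : (e.N * x 1) ^ 2 = _ := congrArg (· ^ 2) e1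
  have i2 : (e.N * x 2) ^ 2 = _ := congrArg (· ^ 2) e2
  have j0 : e.N * x 0 * (e.N * x 1) = _ := congrArg₂ (· * ·) e0 e1
  have j1 : e.N * x 0 * (e.N * x 2) = _ := congrArg₂ (· * ·) e0 e2
  have j2 : e.N * x 1 * (e.N * x 2) = _ := congrArg₂ (· * ·) e1 e2
  constructor
  · linear_combination a1.1 + a2.1 + a3.1 + a4.1 + 2 * a5.1 + 2 * a6.1 + 2 * a7.1 -
      2 * e.N * ((c0 - o) * e0 + (c1 - o) * e1 + (c2 - o) * e2) -
      2 * ((q0 - o) * i0 + (q1 - o) * i1 + (q2 - o) * i2) -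
      2 * ((x01 - o) * j0 + (x02 - o) * j1 + (x12 - o) * j2)
  · linear_combination a1.2 + a2.2 + a3.2 + a4.2 + 2 * a5.2 + 2 * a6.2 + 2 * a7.2 +
      2 * e.N * ((c0 - o) * e0 + (c1 - o) * e1 + (c2 - o) * e2) +
      2 * ((q0 - o) * i0 + (q1 - o) * i1 + (q2 - o) * i2) +
      2 * ((x01 - o) * j0 + (x02 - o) * j1 + (x12 - o) * j2)

theorem At.af (H : e.At x t) {c : Cfg} {a : T} (hc : c.Ok) (h : c.WF a) {v : ℝ}
    (hv : |v - c.pol x a| ≤ a.r) : |e.NN * v - (e.af c a).v t| ≤ (e.af c a).e := by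
  refine H.af' fun γ hγ => ?_
  have k := (low10 hc h hv H.h1 hγ).1
  have m := fun i j k => mono_comp (c := c) (x := x) (i := i) (j := j) (k := k) hc
  have m1 := m 1 0 0
  have m2 := m 0 1 0
  have m3 := m 0 0 1
  have m4 := m 2 0 0
  have m5 := m 0 2 0
  have m6 := m 0 0 2
  have m7 := m 1 1 0
  have m8 := m 1 0 1
  have m9 := m 0 1 1
  simp only [two_mul, one_mul, zero_mul, add_zero, zero_add, pow_zero, pow_one, mul_one,
    Nat.ofNat_pos, Nat.one_lt_ofNat, Nat.reduceLT, forall_const] at m1 m2 m3 m4 m5 m6 m7 m8 m9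
  rw [sum10 hc, sum10 hc, mono_zero, m1, m2, m3, m4, m5, m6, m7, m8, m9] at k
  simp only [cz_cn, Int.cast_sub, Int.cast_natCast, Int.cast_pow, Int.cast_ofNat, mul_one] at k
  simpa only [p2_eq, u1, Nat.add_eq, Nat.mul_eq, Nat.sub_eq, Nat.cast_pow, Nat.cast_ofNat] using k

end Ce

namespace Af

variable {A : Af} {kn kd : ℕ} {t : Fin 3 → ℝ} {V : ℝ}

theorem dv_cast (a d : Z) : (dv kn kd a d : ℝ) = |a.v * kn - d.v * kd| := by
  rw [dv, ds_cast]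
  simp only [Z.v, Nat.add_eq, Nat.mul_eq]
  push_cast
  congr 1
  ring

theorem up_ge (ht : ∀ i, |t i| ≤ 1) (h : |V - A.v t| ≤ A.e) (d1 d2 d3 : Z) :
    |V * kn - A.A0.v * kn - (d1.v * t 0 + d2.v * t 1 + d3.v * t 2) * kd| ≤ A.up kn kd d1 d2 d3 := by
  have k : ∀ i (u : ℝ), |u * t i| ≤ |u| := fun i u => by
    rw [abs_mul]; exact mul_le_of_le_one_right (abs_nonneg _) (ht i)
  have k0 := k 0 (A.A1.v * kn - d1.v * kd)
  have k1 := k 1 (A.A2.v * kn - d2.v * kd)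
  have k2 := k 2 (A.A3.v * kn - d3.v * kd)
  have k3 := mul_le_mul_of_nonneg_right h (Nat.cast_nonneg (α := ℝ) kn)
  rw [← Nat.abs_cast (R := ℝ) kn, ← abs_mul, Nat.abs_cast, Af.v] at k3
  simp only [up, Nat.add_eq, Nat.mul_eq]
  push_cast
  simp only [dv_cast]
  rw [abs_le] at k0 k1 k2 k3 ⊢
  constructor <;> linarith [k0.1, k0.2, k1.1, k1.2, k2.1, k2.2, k3.1, k3.2]

theorem ok2_sound (ht : ∀ i, |t i| ≤ 1) (h : |V - A.v t| ≤ A.e) {d0 d1 d2 d3 E : Z}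
    (ok : A.ok2 kn kd d0 d1 d2 d3 E = true) (hd : 0 < kd) {y : ℝ} (hy : y * kd = V * kn) :
    |y - (d0.v + d1.v * t 0 + d2.v * t 1 + d3.v * t 2)| ≤ E.v := by
  have k := up_ge (kn := kn) (kd := kd) ht h d1 d2 d3
  have l := Nat.cast_le (α := ℝ).2 (Nat.le_of_ble_eq_true ok)
  simp only [Nat.add_eq, Nat.mul_eq] at l
  push_cast at l
  rw [dv_cast] at l
  have h0 : (0 : ℝ) < kd := Nat.cast_pos.2 hd
  have l1 := le_abs_self (A.A0.v * kn - d0.v * kd)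
  have l2 := neg_abs_le (A.A0.v * kn - d0.v * kd)
  rw [abs_le] at k ⊢
  rw [Z.v.eq_1 E]
  constructor <;> refine le_of_mul_le_mul_right ?_ h0 <;> linarith [k.1, k.2]

theorem ok1_sound (ht : ∀ i, |t i| ≤ 1) (h : |V - A.v t| ≤ A.e) {d0 d1 d2 d3 : Z}
    (ok : A.ok1 kn kd d0 d1 d2 d3 = true) (hd : 0 < kd) {y : ℝ} (hy : y * kd = V * kn) :
    y ≤ d0.v + d1.v * t 0 + d2.v * t 1 + d3.v * t 2 := by
  have k := (abs_le.1 (up_ge (kn := kn) (kd := kd) ht h d1 d2 d3)).2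
  have l := Nat.cast_le (α := ℝ).2 (Nat.le_of_ble_eq_true ok)
  simp only [Nat.add_eq, Nat.mul_eq] at l
  push_cast at l
  have h0 : (0 : ℝ) < kd := Nat.cast_pos.2 hd
  rw [Z.v.eq_1 A.A0] at k
  rw [Z.v.eq_1 d0]
  refine le_of_mul_le_mul_right ?_ h0
  linarith

theorem f32_dat (w s c : ℕ) : (Gap.Loc.f32 (w.shiftRight (32 * s)) (32 * c)).v =
    Gap.dat w (s + c) := by
  rw [← Gap.Loc.f32_v, mul_add]
  exact congrArg (fun y => (Z.of (Nat.land y 4294967295) 2147483648).v)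
    (Nat.shiftRight_add w _ _).symm

/-- the second and third variable of the models are exchanged -/
def tw (τ : ℝ × ℝ × ℝ) : Fin 3 → ℝ := ![τ.1, τ.2.2, τ.2.1]

theorem okB_sound {τ : ℝ × ℝ × ℝ} (ht : ∀ i, |tw τ i| ≤ 1) (h : |V - A.v (tw τ)| ≤ A.e) {w s : ℕ}
    (ok : A.okB kn kd (w.shiftRight (32 * s)) = true) (hd : 0 < kd) {y : ℝ}
    (hy : y * kd = V * kn) :
    |y - Gap.aff (fun c => (Gap.dat w (s + c) : ℝ)) τ| ≤ Gap.dat w (s + 4) := by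
  have k := ok2_sound ht h ok hd hy
  rw [f32_dat w s 0, f32_dat w s 1, f32_dat w s 3, f32_dat w s 2, f32_dat w s 4] at k
  rwa [Gap.aff, add_right_comm]

theorem okV_sound {τ : ℝ × ℝ × ℝ} (ht : ∀ i, |tw τ i| ≤ 1) (h : |V - A.v (tw τ)| ≤ A.e) {w s : ℕ}
    (ok : A.okV kn kd (w.shiftRight (32 * s)) = true) (hd : 0 < kd) {y : ℝ}
    (hy : y * kd = V * kn) : y ≤ Gap.aff (fun c => (Gap.dat w (s + c) : ℝ)) τ := by
  have k := ok1_sound ht h ok hd hy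
  rw [f32_dat w s 0, f32_dat w s 1, f32_dat w s 3, f32_dat w s 2] at k
  rwa [Gap.aff, add_right_comm]

end Af

end Pool.Agent.MP_48470b_gt.Ck
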