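import Pool.Agent.MP_48470b_gt.Ck.Lo0X

/-! Executable definitions: the test for the derivatives of the shape operator. -/

namespace Pool.Agent.MP_48470b_gt.Ck.Ar

variable (x : Ar) (z : Fin 4 → Fn)

/-- `el / 2 ^ t` is a lower bound for the Gaussian factor -/
def okY (L y1 y2 t el : Nat) : Bool :=
  Nat.ble (s2 (x.a1 z L) <<< t) ((y1 <<< t + y2 * el) <<< (x.s + x.s))

def okA (L a1 a2 y1 y2 t el : Nat) : Bool :=
  Nat.ble (x.a1 z L) (a1 <<< x.s) && Nat.ble (x.a2 z L) (a2 <<< x.s) && x.okY z L y1 y2 t el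

end Pool.Agent.MP_48470b_gt.Ck.Ar
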