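import Pool.Agent.MP_48470b_gt.Ck.Lo0
import Pool.Agent.MP_48470b_gt.Ck.Lo1X

/-! Bounds for the inverse metric, the second jets and the derivatives of the shape operator. -/

open Finset
open scoped NNReal

namespace Pool.Agent.MP_48470b_gt.Ck

open TT TT.Cfg Dic Pool.Agent.MP48470b.An

theorem nr_comb {ι κ : Type*} [Fintype ι] [Fintype κ] {r : κ → ι → ℝ} {β : ℝ}
    (h : ∀ k, nr (r k) ≤ β) (t : κ → ℝ) : nr (fun a => ∑ k, t k * r k a) ≤ β * ∑ k, |t k| := by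
  classical
  induction (univ : Finset κ) using Finset.induction_on with
  | empty => simp [nr_zero]
  | insert k s hk ih =>
    simp only [sum_insert hk, mul_add]
    refine (nr_add_le _ _).trans (add_le_add ?_ ih)
    rw [nr_smul, mul_comm]
    exact mul_le_mul_of_nonneg_right (h k) (abs_nonneg _)

theorem nr_le_sqU {ι : Type*} [Fintype ι] {v : ι → ℝ} {n : ℕ} (h : ∑ i, v i ^ 2 ≤ n) :
    nr v ≤ sqU n := nr_le_of_sq (Nat.cast_nonneg _) (h.trans (le_sqU' n))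

theorem sum_sy4 {α : Type} (g : α → ℕ) (F : I4 → I4 → α) :
    ∑ p : I4 × I4, (g (sy F p.1 p.2) : ℝ) = (sm4 fun i j => g (F i j) : ℕ) := by
  simp only [Fintype.sum_prod_type, Fin.sum_univ_four, sm4]
  push_cast
  change _ = (g (sy F 0 0) : ℝ) + g (sy F 1 1) + g (sy F 2 2) + g (sy F 3 3) +
    2 * (g (sy F 0 1) + g (sy F 0 2) + g (sy F 0 3) + g (sy F 1 2) + g (sy F 1 3) + g (sy F 2 3))
  rw [show sy F 1 0 = sy F 0 1 from rfl, show sy F 2 0 = sy F 0 2 from rfl,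
    show sy F 3 0 = sy F 0 3 from rfl, show sy F 2 1 = sy F 1 2 from rfl,
    show sy F 3 1 = sy F 1 3 from rfl, show sy F 3 2 = sy F 2 3 from rfl]
  ring

theorem le_half (n : ℕ) : (n : ℝ) / 2 ≤ (n / 2 + 1 : ℕ) := by
  rw [div_le_iff₀ two_pos]
  exact_mod_cast (by omega : n ≤ (n / 2 + 1) * 2)

namespace Ar

section gen

variable {x : Ar} {K : Type*} [CommRing K] [Algebra ℝ K] {X : Fin 3 → K} {ν : Seminorm ℝ K}
  {δ pp : I3 → Derivation ℝ K K} {a : T} {φ : K →ₐ[ℝ] ℝ} {lam : ℝ≥0} {L : ℕ}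

variable (x) in
/-- the rows of the frame -/
def bm : I3 → I3 → ℝ := ![![x.b00, x.b01, x.b02], ![0, x.b11, x.b12], ![0, 0, x.b22]]

theorem Set.p (S : x.Set X ν δ pp) (a : I3) (u : K) : pp a u = ∑ i, x.bm i a • δ i u := by
  fin_cases a <;> simp [bm, Fin.sum_univ_three, S.p0, S.p1, S.p2]

theorem nr_bm (x : Ar) (i : I3) : nr (x.bm i) ≤ x.be := by
  refine nr_le_sqU ?_
  have e : ∀ k : ℤ, ((k.natAbs : ℕ) : ℝ) ^ 2 = (k : ℝ) ^ 2 := fun k => by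
    rw [Nat.cast_natAbs, Int.cast_abs, sq_abs]
  simp only [mx_eq, Nat.cast_max, Nat.cast_add, s2_cast, e, Fin.sum_univ_three]
  fin_cases i <;> simp [bm]

theorem la_cast (x : Ar) (L : ℕ) : (x.la L : ℝ) = x.be * 2 ^ L := by
  simp [la, Nat.shiftLeft_eq]

/-- first derivatives in the frame -/
theorem Set.nr1 (S : x.Set X ν δ pp) (hL : 1 ≤ (2 : ℝ) ^ L * lam) (u : K) :
    nr (fun a => φ (pp a u)) ≤ x.la L / 2 * nu φ δ lam 2 u := by
  have h := nr_comb (nr_bm x) fun i => φ (δ i u)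
  simp only [S.p, map_sum, map_smul, smul_eq_mul, mul_comm (x.bm _ _)]
  refine h.trans ?_
  have a0 := abs_nonneg (φ u)
  have a1 : 0 ≤ ∑ i, |φ (δ i u)| := sum_nonneg fun _ _ => abs_nonneg _
  have a2 : 0 ≤ (lam : ℝ) ^ 2 * ∑ p : I3 × I3, |φ (δ p.1 (δ p.2 u))| :=
    mul_nonneg (sq_nonneg _) (sum_nonneg fun _ _ => abs_nonneg _)
  rw [nu_two_eq, la_cast, mul_div_assoc, mul_assoc]
  refine mul_le_mul_of_nonneg_left ?_ (Nat.cast_nonneg _)
  have p : (0 : ℝ) ≤ 2 ^ L := by positivity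
  nlinarith [mul_le_mul_of_nonneg_right hL a1, mul_nonneg p a0, mul_nonneg p a2]

/-- second derivatives in the frame -/
theorem Set.nr2 (S : x.Set X ν δ pp) (hL : 1 ≤ (2 : ℝ) ^ L * lam) (u : K) :
    nr (fun p : I3 × I3 => φ (pp p.1 (pp p.2 u))) ≤ (x.la L : ℝ) ^ 2 * nu φ δ lam 2 u := by
  have h := nr_comb (β := (x.be : ℝ) ^ 2)
    (r := fun k p : I3 × I3 => x.bm k.1 p.1 * x.bm k.2 p.2) (fun k => (nr_out _ _).trans
      (sq (x.be : ℝ) ▸ mul_le_mul (nr_bm x _) (nr_bm x _) (nr_nonneg _) (Nat.cast_nonneg _)))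
    fun k => φ (δ k.1 (δ k.2 u))
  have e : ∀ p : I3 × I3, φ (pp p.1 (pp p.2 u)) =
      ∑ k : I3 × I3, φ (δ k.1 (δ k.2 u)) * (x.bm k.1 p.1 * x.bm k.2 p.2) := fun p => by
    simp only [S.p, Fintype.sum_prod_type, Fin.sum_univ_three, map_add, Derivation.map_smul,
      map_smul, smul_eq_mul]
    ring
  simp only [e]
  refine h.trans ?_
  have a0 := abs_nonneg (φ u)
  have a1 : 0 ≤ 2 * (lam : ℝ) * ∑ i, |φ (δ i u)| :=
    mul_nonneg (by positivity) (sum_nonneg fun _ _ => abs_nonneg _)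
  have a2 : 0 ≤ ∑ p : I3 × I3, |φ (δ p.1 (δ p.2 u))| := sum_nonneg fun _ _ => abs_nonneg _
  rw [nu_two_eq, la_cast, mul_pow, mul_assoc]
  refine mul_le_mul_of_nonneg_left ?_ (sq_nonneg _)
  have p : (0 : ℝ) ≤ (2 ^ L) ^ 2 := by positivity
  nlinarith [mul_le_mul_of_nonneg_right (one_le_pow₀ (n := 2) hL) a2, mul_nonneg p a0,
    mul_nonneg p a1]

/-- the derivatives of the polynomial of a model -/
theorem Set.dp (S : x.Set X ν δ pp) (h : x.c.WF a) :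
    ∑ b, ν (pp b (x.c.pol X a)) ^ 2 ≤ x.dp a := by
  have d : ∀ i, x.c.EW X ν 0 (δ i (x.c.pol X a)) (x.c.der i 0 a) := fun i => by
    obtain ⟨f, h1, h2⟩ := der_pol S.sg.ok h i (δ i) (S.dX i)
    exact ⟨f, h1, by simp [h2]⟩
  have t : ∀ {v : K} {w : W}, x.c.EW X ν 0 v w → ν v ^ 2 ≤ s2 (mag (x.r0 w)) := fun hw => by
    rw [s2_cast]
    exact pow_le_pow_left₀ (apply_nonneg _ _)
      (by simpa [mag] using EN.le S.sg.sem (EN.of' S.sg.ok (S.r0 hw))) 2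
  rw [Fin.sum_univ_three, S.p0, S.p1, S.p2, Ar.dp, Nat.cast_add, Nat.cast_add]
  exact add_le_add (add_le_add (t (EW.zs (d 0) _)) (t ((EW.zs (d 0) _).add (EW.zs (d 1) _))))
    (t (((EW.zs (d 0) _).add (EW.zs (d 1) _)).add (EW.zs (d 2) _)))

/-- derivatives of a symmetric family -/
theorem Set.fam (S : x.Set X (nu φ δ lam 2) δ pp) (hL : 1 ≤ (2 : ℝ) ^ L * lam) {s : ℕ}
    {v : I4 × I4 → K} {F : I4 → I4 → T}
    (h : ∀ p, x.c.ET X (nu φ δ lam 2) s (v p) (sy F p.1 p.2)) {τ ρ : ℕ}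
    (hτ : τ = sqU (sm4 fun i j => x.dp (F i j))) (hρ : ρ = sqU (sm4 fun i j => s2 (F i j).r)) :
    2 ^ s * nr (fun p : I3 × (I4 × I4) => φ (pp p.1 (v p.2))) ≤ (τ + x.la L * ρ / 2 + 1 : ℕ) ∧
    2 ^ s * nr (fun p : I3 × (I3 × (I4 × I4)) => φ (pp p.1 (pp p.2.1 (v p.2.2)))) ≤
      (x.la L * τ / 2 + 1 + s2 (x.la L) * ρ : ℕ) := by
  obtain ⟨P, hP⟩ : ∃ P : I4 × I4 → K, P = fun p => x.c.pol X (sy F p.1 p.2) := ⟨_, rfl⟩
  have t : nr (fun p : I3 × (I4 × I4) => nu φ δ lam 2 (pp p.1 (P p.2))) ≤ τ := by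
    rw [hτ, hP]
    refine nr_le_sqU ?_
    rw [← sum_sy4 x.dp F, Fintype.sum_prod_type_right]
    refine sum_le_sum fun p _ => ?_
    have w : x.c.WF (sy F p.1 p.2) := (h p).1
    simpa only using S.dp w
  have r : nr (fun p => nu φ δ lam 2 ((2 : ℝ) ^ s • v p - P p)) ≤ ρ := by
    rw [hρ, hP]
    refine nr_le_sqU ?_
    rw [← sum_sy4 (fun a : T => s2 a.r) F]
    refine sum_le_sum fun p _ => ?_
    rw [s2_cast]
    exact pow_le_pow_left₀ (apply_nonneg _ _) (h p).2 2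
  have l0 : (0 : ℝ) ≤ x.la L / 2 := by positivity
  have p2 : |(2 : ℝ) ^ s| = 2 ^ s := abs_of_pos (by positivity)
  constructor
  · have h1 := (nr_mono fun p : I3 × (I4 × I4) => abs_le_nu φ δ lam 2 (pp p.1 (P p.2))).trans t
    have h2 := (nr_fam (w := fun p : I3 × (I4 × I4) => φ (pp p.1 ((2 : ℝ) ^ s • v p.2 - P p.2))) l0
      fun p => S.nr1 hL _).trans (mul_le_mul_of_nonneg_left r l0)
    have h3 := (nr_add_le _ _).trans (add_le_add h1 h2)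
    have h4 := le_half (x.la L * ρ)
    simp only [map_sub, Derivation.map_smul, map_smul, smul_eq_mul, add_sub_cancel, nr_smul,
      p2] at h3
    push_cast at h4 ⊢
    linarith
  · have h1 := (nr_fam (w := fun p : I3 × (I3 × (I4 × I4)) => φ (pp p.1 (pp p.2.1 (P p.2.2)))) l0
      fun p => S.nr1 hL _).trans (mul_le_mul_of_nonneg_left t l0)
    have h2 := (nr_fam (w := fun p : (I3 × I3) × (I4 × I4) =>
      φ (pp p.1.1 (pp p.1.2 ((2 : ℝ) ^ s • v p.2 - P p.2)))) (sq_nonneg _)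
      fun p => S.nr2 hL _).trans (mul_le_mul_of_nonneg_left r (sq_nonneg _))
    rw [← nr_equiv (Equiv.prodAssoc I3 I3 (I4 × I4)).symm] at h2
    have h3 := (nr_add_le _ _).trans (add_le_add h1 h2)
    have h4 := le_half (x.la L * τ)
    simp only [Equiv.prodAssoc_symm_apply, map_sub, Derivation.map_smul, map_smul, smul_eq_mul,
      add_sub_cancel, nr_smul, p2] at h3
    push_cast [s2_cast] at h4 ⊢
    linarith

end gen

open Pool.Agent.MP_48470b_gt.Sph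

variable {x : Ar} {f : I4 → R} {h : Imm f} {X : Fin 3 → C3} {δ : I3 → Derivation ℝ C3 C3}
  {Φ : Fm.Fr h} {z : Fin 4 → Fn} {y : P3} {lam : ℝ≥0} {k L : ℕ}

theorem E.abs {pp : I3 → Derivation ℝ C3 C3} (S : x.Set X (nu (evc y) δ lam k) δ pp) {v : C3}
    {a : T} (H : x.E X (nu (evc y) δ lam k) v a) : 2 ^ x.s * |v y| ≤ mag a :=
  (mul_le_mul_of_nonneg_left (abs_le_nu (evc y) δ lam k v) (by positivity)).trans (H.le S)

theorem Lo.kap (S : x.Set X (nu (evc y) δ lam k) δ Φ.p) (H : x.Lo X (nu (evc y) δ lam k) Φ z) :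
    Φ.Kap y (x.kp z / 2 ^ x.s) := by
  refine Φ.kap_of_row (by positivity) fun a => ?_
  have h1 : 2 ^ x.s * ∑ b, |Φ.q y ^ 2 * Fm.jA Φ.p (cf f) a b y| ≤ x.kr z a := by
    rw [kr, Fin.sum_univ_three, mul_add, mul_add, Nat.cast_add, Nat.cast_add]
    exact add_le_add (add_le_add ((H.gi a 0).abs S) ((H.gi a 1).abs S)) ((H.gi a 2).abs S)
  have h2 : x.kr z a ≤ mx (x.kr z 0) (mx (x.kr z 1) (x.kr z 2)) := by
    simp only [mx_eq]
    fin_cases a <;> simp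
  have h3 := le_sqU' (mx (x.kr z 0) (mx (x.kr z 1) (x.kr z 2)) <<< x.s)
  rw [Nat.shiftLeft_eq, Nat.cast_mul, Nat.cast_pow, Nat.cast_ofNat, ← Nat.shiftLeft_eq] at h3
  rw [div_pow, le_div_iff₀ (by positivity), kp]
  refine le_trans ?_ h3
  have h4 := mul_le_mul_of_nonneg_right (h1.trans (Nat.cast_le.2 h2))
    (show (0 : ℝ) ≤ 2 ^ x.s by positivity)
  linarith

theorem Lo.m2 (S : x.Set X (nu (evc y) δ lam k) δ Φ.p) (H : x.Lo X (nu (evc y) δ lam k) Φ z) :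
    Φ.m2 y ≤ x.m2 z / 2 ^ x.s := by
  rw [le_div_iff₀' (by positivity), ← abs_of_pos (show (0 : ℝ) < 2 ^ x.s by positivity), Fm.Fr.m2,
    ← nr_smul]
  refine nr_le_sqU ?_
  have t : ∀ a b k, (2 ^ x.s * Φ.p a (Φ.p b (cf f k)) y) ^ 2 ≤ s2 (mag (x.fs z a b k)) :=
    fun a b k => by
      rw [s2_cast, ← sq_abs, abs_mul, abs_of_pos (by positivity)]
      exact pow_le_pow_left₀ (by positivity) ((H.fs a b k).abs S) 2
  have u := fun a b => add_le_add (add_le_add (add_le_add (t a b 0) (t a b 1)) (t a b 2)) (t a b 3)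
  simp only [Fintype.sum_prod_type, Fin.sum_univ_three, Fin.sum_univ_four, Φ.comm 1 0, Φ.comm 2 0,
    Φ.comm 2 1, sm3]
  push_cast
  linarith [u 0 0, u 1 1, u 2 2, u 0 1, u 0 2, u 1 2]

theorem Lo.n12 (S : x.Set X (nu (evc y) δ lam 2) δ Φ.p) (H : x.Lo X (nu (evc y) δ lam 2) Φ z)
    (hL : 1 ≤ (2 : ℝ) ^ L * lam) :
    nr (fun p : I3 × (I4 × I4) => Φ.p p.1 (ch (uc (dc h).A p.2)) y) ≤ x.N1 z L / 2 ^ x.s ∧
    nr (fun p : I3 × (I3 × (I4 × I4)) => Φ.p p.1 (Φ.p p.2.1 (ch (uc (dc h).A p.2.2))) y) ≤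
      x.N2 z L / 2 ^ x.s := by
  have as : ∀ i j, (dc h).A i j = (dc h).A j i := (dc h).sym
  rw [le_div_iff₀' (by positivity), le_div_iff₀' (by positivity)]
  exact S.fam hL (v := fun p => ch (uc (dc h).A p)) (F := x.A' z) (fun p =>
    sy_of (P := fun i j t => x.c.ET X _ x.s (ch ((dc h).A i j)) t) H.AT
      (fun a b t ht => as a b ▸ ht) p.1 p.2) rfl rfl

theorem a1_ge (x : Ar) (z : Fin 4 → Fn) (L : ℕ) :
    (x.kp z / 2 ^ x.s : ℝ) * (x.N1 z L / 2 ^ x.s) ≤ x.a1 z L / 2 ^ x.s := by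
  have := le_shr (x.kp z * x.N1 z L) x.s
  rw [← mul_div_assoc, div_mul_eq_mul_div, div_le_div_iff_of_pos_right (by positivity),
    div_le_iff₀ (by positivity)]
  rwa [Nat.cast_mul] at this

theorem a2_ge (x : Ar) (z : Fin 4 → Fn) (L : ℕ) :
    (x.kp z / 2 ^ x.s : ℝ) ^ 2 * (x.N2 z L / 2 ^ x.s + 2 * (x.m2 z / 2 ^ x.s) *
      ((x.kp z / 2 ^ x.s : ℝ) * (x.N1 z L / 2 ^ x.s))) ≤ x.a2 z L / 2 ^ x.s := by
  have p : (0 : ℝ) < 2 ^ x.s := by positivity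
  have h1 := le_shr (2 * x.m2 z * x.a1 z L) x.s
  have h2 := le_shr (s2 (x.kp z) * (x.N2 z L + (2 * x.m2 z * x.a1 z L) >>> x.s + 1)) (x.s + x.s)
  rw [← a2, add_assoc, Nat.cast_mul, s2_cast, Nat.cast_add, pow_add] at h2
  generalize (((2 * x.m2 z * x.a1 z L) >>> x.s + 1 : ℕ) : ℝ) = r at h1 h2
  push_cast at h1
  have h3 : 2 * (x.m2 z / 2 ^ x.s : ℝ) * ((x.kp z / 2 ^ x.s : ℝ) * (x.N1 z L / 2 ^ x.s)) ≤
      r / 2 ^ x.s := by
    refine (mul_le_mul_of_nonneg_left (a1_ge x z L) (by positivity)).trans ?_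
    rw [← mul_div_assoc, ← mul_div_assoc, div_mul_eq_mul_div, div_le_div_iff_of_pos_right p,
      div_le_iff₀ p]
    exact h1
  refine (mul_le_mul_of_nonneg_left (add_le_add le_rfl h3) (sq_nonneg _)).trans ?_
  rw [← add_div, ← mul_div_assoc, div_le_div_iff_of_pos_right p, div_pow, div_mul_eq_mul_div,
    div_le_iff₀ (by positivity), sq (_ ^ _ : ℝ)]
  exact h2

/-- **The derivatives of the shape operator.** -/
theorem Lo.ptA (S : x.Set X (nu (evc y) δ lam 2) δ Φ.p) (H : x.Lo X (nu (evc y) δ lam 2) Φ z)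
    (hL : 1 ≤ (2 : ℝ) ^ L * lam) {c : Nw} {a1 a2 y1 y2 t el : ℕ}
    (ok : x.okA z L a1 a2 y1 y2 t el = true) (he : (el : ℝ) / 2 ^ t ≤ eG f (pr (Dic.up y)))
    (c1 : a1 ≤ c.a₁) (c2 : a2 ≤ c.a₂) (c3 : y1 ≤ c.y₁) (c4 : y2 ≤ c.y₂) :
    PtA c h (pr (Dic.up y)) := by
  simp only [okA, okY, Bool.and_eq_true, Nat.ble_eq, Nat.shiftLeft_eq, ← Nat.cast_le (α := ℝ)] at ok
  push_cast [s2_cast] at ok
  obtain ⟨⟨o1, o2⟩, o3⟩ := ok
  have p : (0 : ℝ) < 2 ^ x.s := by positivity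
  have q : (0 : ℝ) < 2 ^ t := by positivity
  refine PtA.of_num (H.kap S) (H.m2 S) (H.n12 S hL).1 (H.n12 S hL).2 he
    ((Nat.cast_nonneg _).trans c4) ((a1_ge x z L).trans (((div_le_iff₀ p).2 o1).trans c1))
    ((a2_ge x z L).trans (((div_le_iff₀ p).2 o2).trans c2))
    ((pow_le_pow_left₀ (by positivity) (a1_ge x z L) 2).trans (le_trans ?_
      (add_le_add c3 (mul_le_mul_of_nonneg_right c4 (by positivity)))))
  rw [div_pow, div_le_iff₀ (by positivity)]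
  refine le_of_mul_le_mul_right (o3.trans_eq ?_) q
  rw [pow_add]
  field_simp

end Ar

end Pool.Agent.MP_48470b_gt.Ck
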