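import Pool.Agent.MP_48470b_gt.TT.X

/-! Executable definitions: range of a model on a box, exponential function. -/

namespace Pool.Agent.MP_48470b_gt.Ck

open TT

/-- a box in the order of the variables, unit `1 / 512`: radii, centres, lower and upper ends -/
structure Bd where
  hs : Fin 3 → Nat
  cs : Fin 3 → Nat
  bl : Fin 3 → Nat
  bh : Fin 3 → Nat

namespace Bd

variable (g : Bd)

/-- the range of the variables, unit `1 / 256` -/
def l (i : Fin 3) : Nat := (256 * (g.cs i - g.bl i) + g.hs i - 1) / g.hs i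
def h (i : Fin 3) : Nat := (256 * (g.bh i - g.cs i) + g.hs i - 1) / g.hs i
def m (i : Fin 3) : Nat := max (g.l i) (g.h i)
def mm : Nat := max (g.m 0) (max (g.m 1) (g.m 2))
/-- loss of a linear term -/
def ls (i : Fin 3) (z : Int) : Nat := z.toNat * g.l i + (-z).toNat * g.h i
/-- point of tangency -/
def vx (i : Fin 3) (z q : Int) : Int :=
  max (-Int.ofNat (g.l i)) (min (Int.ofNat (g.h i)) (-128 * z / Int.ofNat q.toNat))
/-- loss of a quadratic term -/
def lq (i : Fin 3) (z q : Int) : Nat := g.ls i (256 * z + 2 * Int.ofNat q.toNat * g.vx i z q) +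
  q.toNat * ((g.vx i z q).natAbs * (g.vx i z q).natAbs) + (-q).toNat * (g.m i * g.m i)
/-- lower bound from seven coefficients, the total size and the remainder -/
def rd (n r : Nat) (z0 z1 z2 z3 q1 q2 q3 : Int) : Int :=
  z0 - Int.ofNat (r + ((n - (z0.natAbs + z1.natAbs + z2.natAbs + z3.natAbs + q1.natAbs +
    q2.natAbs + q3.natAbs)) * (g.mm * g.mm) + (g.lq 0 z1 q1 + g.lq 1 z2 q2 + g.lq 2 z3 q3)) /
      65536 + 1)

variable (c : Cfg) (a : T)

/-- lower bound on the box -/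
def lo : Int := g.rd a.n a.r (c.cz (3 * c.S) a 0) (c.cz (3 * c.S) a c.S) (c.cz (3 * c.S) a c.B2)
  (c.cz (3 * c.S) a 1) (c.cz (3 * c.S) a (2 * c.S)) (c.cz (3 * c.S) a (2 * c.B2))
  (c.cz (3 * c.S) a 2)
/-- upper bound on the box -/
def hi : Int := -g.rd a.n a.r (-c.cz (3 * c.S) a 0) (-c.cz (3 * c.S) a c.S)
  (-c.cz (3 * c.S) a c.B2) (-c.cz (3 * c.S) a 1) (-c.cz (3 * c.S) a (2 * c.S))
  (-c.cz (3 * c.S) a (2 * c.B2)) (-c.cz (3 * c.S) a 2)
def loN : Nat := (g.lo c a).toNat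
def hiN : Nat := (g.hi c a).toNat
/-- the model is not negative on the box -/
def pos : Bool := Nat.beq (-g.lo c a).toNat 0

/-- bounds for `2 ^ 18 * ww` -/
def wl : Nat := 262144 + g.bl 0 * g.bl 0 + g.bl 1 * g.bl 1 + g.bl 2 * g.bl 2
def wh : Nat := 262144 + g.bh 0 * g.bh 0 + g.bh 1 * g.bh 1 + g.bh 2 * g.bh 2

end Bd

/-- power with the exponent `2 ^ k`, scale `2 ^ 64` -/
def pw (a k : Nat) : Nat := Nat.rec a (fun _ b => b ^ 2 / 2 ^ 64) k
/-- bounds for `2 ^ 64 * exp (-t / 4)` from bounds for `2 ^ s * t` -/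
def exl (s t : Nat) : Nat := pw (2 ^ 64 - (t * 2 ^ 46 / 2 ^ s + 1)) 16
def exh (s t : Nat) : Nat := 2 ^ 128 / pw (2 ^ 64 + t * 2 ^ 46 / 2 ^ s) 16 + 1

end Pool.Agent.MP_48470b_gt.Ck
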