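import Pool.Agent.MP_48470b_gt.Ck.Lo0X
import Pool.Agent.MP_48470b_gt.Ck.RdX
import Pool.Agent.MP_48470b_gt.Ck.AfX

/-! Executable definitions: the words of the eigenvalue count, residuals of eigenfunctions. -/

namespace Pool.Agent.MP_48470b_gt.Ck

open TT

/-- the cell of a box -/
def Bd.ce (g : Bd) : Ce := Ce.box g.hs g.cs g.bl g.bh
/-- the centre is not right of the middle -/
def Bd.okc (g : Bd) : Bool := ((g.cs 0).mul 2).ble ((g.bl 0).add (g.bh 0)) &&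
  ((g.cs 1).mul 2).ble ((g.bl 1).add (g.bh 1)) && ((g.cs 2).mul 2).ble ((g.bl 2).add (g.bh 2))

namespace Ar

variable (x : Ar) (z : Fin 4 → Fn)

/-! ### the cell -/

def qg (a b : Fin 3) : W := (x.mr (x.q z) (x.gg z a b)).lift
def sb : Nat := ((Nat.log2 (((((((x.ib 0 0).natAbs.add (x.ib 0 1).natAbs).add
  (x.ib 0 2).natAbs).add (x.ib 1 1).natAbs).add (x.ib 1 2).natAbs).add
  (x.ib 2 2).natAbs))).add 1).mul 2
def rb (w : W) : T := x.c.rnd x.sb w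
def zq (k : Int) (a b : Fin 3) : W := x.c.zmul k (x.qg z a b)
def G00 : T := x.rb (x.zq z (x.ib 0 0 * x.ib 0 0) 0 0)
def G01 : T := x.rb ((x.zq z (x.ib 0 0 * x.ib 0 1) 0 0).add (x.zq z (x.ib 0 0 * x.ib 1 1) 0 1))
def G02 : T := x.rb (((x.zq z (x.ib 0 0 * x.ib 0 2) 0 0).add
  (x.zq z (x.ib 0 0 * x.ib 1 2) 0 1)).add (x.zq z (x.ib 0 0 * x.ib 2 2) 0 2))
def G11 : T := x.rb (((x.zq z (x.ib 0 1 * x.ib 0 1) 0 0).add
  (x.zq z (2 * x.ib 0 1 * x.ib 1 1) 0 1)).add (x.zq z (x.ib 1 1 * x.ib 1 1) 1 1))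
def G12 : T := x.rb (((((x.zq z (x.ib 0 1 * x.ib 0 2) 0 0).add
  (x.zq z (x.ib 0 1 * x.ib 1 2 + x.ib 1 1 * x.ib 0 2) 0 1)).add
  (x.zq z (x.ib 0 1 * x.ib 2 2) 0 2)).add (x.zq z (x.ib 1 1 * x.ib 1 2) 1 1)).add
  (x.zq z (x.ib 1 1 * x.ib 2 2) 1 2))
def G22 : T := x.rb ((((((x.zq z (x.ib 0 2 * x.ib 0 2) 0 0).add
  (x.zq z (2 * x.ib 0 2 * x.ib 1 2) 0 1)).add (x.zq z (2 * x.ib 0 2 * x.ib 2 2) 0 2)).add
  (x.zq z (x.ib 1 2 * x.ib 1 2) 1 1)).add (x.zq z (2 * x.ib 1 2 * x.ib 2 2) 1 2)).add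
  (x.zq z (x.ib 2 2 * x.ib 2 2) 2 2))
/-- sixteen times the potential at the level `r / 16` -/
def vg (r : Nat) : T := x.r ((x.c.sub ((W.const ((r.add 20).shiftLeft (x.s.add x.s))).add
  ((x.aw z).smul 16)) (x.up (x.ff z))).add
  (x.m (x.lm z) (x.r0 ((x.lm z).lift.add ((x.hm z).lift.smul 4)))))
def jv (r : Nat) : T := x.mr (x.jj z) (x.vg z r)

variable (g : Bd)

def bn : Nat := (hp g.hs).shiftLeft (x.sb.add 11)
def bd (i j : Fin 3) : Nat :=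
  ((x.db.natAbs.mul ((g.hs i).mul (g.hs j))).mul g.ce.NN).shiftLeft x.s
def vd : Nat := ((x.dq g.hs).mul g.ce.NN).shiftLeft x.s
def okB (a : T) (i j : Fin 3) (w : Nat) : Bool := (g.ce.af x.c a).okB (x.bn g) (x.bd g i j) w
/-- the word `w` is valid on the cell for the level `r / 16` -/
def okC (r w : Nat) : Bool :=
  g.okc && x.okB g (x.G00 z) 0 0 (w.shiftRight 0) && x.okB g (x.G22 z) 2 2 (w.shiftRight 160) &&
  x.okB g (x.G11 z) 1 1 (w.shiftRight 320) && x.okB g (x.G02 z) 0 2 (w.shiftRight 480) &&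
  x.okB g (x.G01 z) 0 1 (w.shiftRight 640) && x.okB g (x.G12 z) 1 2 (w.shiftRight 800) &&
  (g.ce.af x.c (x.jv z r)).okV 8796093022208 (x.vd g) (w.shiftRight 960)
def wB (a : T) (i j : Fin 3) (m : Nat) : Nat := (g.ce.af x.c a).w2 (x.bn g) (x.bd g i j) m
/-- a valid word, the errors are enlarged by the factor `1 + m / 64` -/
def mkw (r m : Nat) : Nat :=
  ((((((x.wB g (x.G00 z) 0 0 m).add ((x.wB g (x.G22 z) 2 2 m).shiftLeft 160)).add
    ((x.wB g (x.G11 z) 1 1 m).shiftLeft 320)).add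
    ((x.wB g (x.G02 z) 0 2 m).shiftLeft 480)).add
    ((x.wB g (x.G01 z) 0 1 m).shiftLeft 640)).add
    ((x.wB g (x.G12 z) 1 2 m).shiftLeft 800)).add
    (((g.ce.af x.c (x.jv z r)).w1 8796093022208 (x.vd g) m).shiftLeft 960)

/-! ### eigenfunctions -/

/-- contraction with the inverse metric -/
def tr6 (a00 a11 a22 a01 a02 a12 : T) : W :=
  (((x.m (x.gi' z 0 0) a00).add (x.m (x.gi' z 1 1) a11)).add (x.m (x.gi' z 2 2) a22)).add
    ((((x.m (x.gi' z 0 1) a01).add (x.m (x.gi' z 0 2) a02)).add (x.m (x.gi' z 1 2) a12)).smul 2)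
def zn (k : Fin 4) : T := x.c.rnd (x.s.add 1)
  (((x.tr6 z (x.f00 z k) (x.f11 z k) (x.f22 z k) (x.f01 z k) (x.f02 z k) (x.f12 z k)).shl 1).add
    (x.up (x.F z k)))
/-- drift -/
def vc (c : Fin 3) : T := x.r (x.dot (x.zn z) fun k => x.u z k c)
/-- residual for the eigenvalue `k / d - 1 / 2`, scale `2 ^ s` -/
def lr (u : Fn) (k : Int) (d : Nat) : Nat := mag (x.r
  ((x.c.sub (x.tr6 z (x.j00 u) (x.j11 u) (x.j22 u) (x.j01 u) (x.j02 u) (x.j12 u))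
    (((x.m (x.vc z 0) (x.j0 u)).add (x.m (x.vc z 1) (x.j1 u))).add (x.m (x.vc z 2) (x.j2 u)))).add
    ((x.m (x.aa z) (x.j u)).add (x.sw k d (x.j u)))))
/-- weight at most `rh / 2 ^ 64`, weighted residual at most `et / 2 ^ 32` -/
def okR (u : Fn) (k : Int) (d rh et : Nat) : Bool :=
  (rh.mul (s2 (x.lr z u k d))).ble ((s2 et).shiftLeft (x.s.add x.s))
/-- lower bound for the size of a model on the box -/
def lw (a : T) : Nat := mx (g.loN x.c a) (-g.hi x.c a).toNat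
/-- weight at least `rl / 2 ^ 64`, weighted square at least `el / 2 ^ 64` -/
def okW (u : Fn) (rl el : Nat) : Bool :=
  (el.shiftLeft (x.s.add x.s)).ble (rl.mul (s2 (x.lw g (x.r0 (x.j u).lift))))

end Ar

end Pool.Agent.MP_48470b_gt.Ck
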