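import Pool.Agent.MP_48470b_gt.TT.Out
import Pool.Agent.MP_48470b_gt.Ck.RdX
import Pool.Agent.MP_48470b_gt.Dic.Nu

/-! Soundness of the range bounds. -/

open Finset
open scoped NNReal

namespace Pool.Agent.MP_48470b_gt.Ck

open TT TT.Cfg Dic Pool.Agent.MP_48470b_gt.Sph Pool.Agent.MP48470b.An
open TM (Sem)

section low

variable {c : Cfg} {A : Type*} [CommRing A] [Algebra ℝ A] {X : Fin 3 → A} {ν : Seminorm ℝ A}
  {p : A} {a : T}

theorem lowg (hc : c.Ok) (h : c.Enc X ν p a) {K : ℕ} (hK : K ≤ c.N) (s : Finset ℕ)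
    (hs : ∀ t ∈ s, t < K) {β : ℝ} (h0 : 0 ≤ β) (hβ : ∀ t < c.N, t ∉ s → ν (c.mono X t) ≤ β) :
    ν (p - ∑ t ∈ s, (c.cz K a t : ℝ) • c.mono X t) ≤
      a.r + (a.n - ∑ t ∈ s, |(c.cz K a t : ℝ)|) * β := by
  have h1 : c.l1 (c.ldc (a.U - c.QH)) ≤ a.n := by
    obtain ⟨D, h⟩ := h.1
    rw [h]
    exact le_trans (le_of_eq (sum_congr rfl fun t ht => by
      rw [ldc_mkT hc _ _ (mem_range.1 ht)])) (mkT_rep hc D a.r).2
  have h2 : s ⊆ range c.N := fun t ht => mem_range.2 ((hs t ht).trans_le hK)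
  have h3 := h.2
  rw [pol, ev_eq, ← sum_sdiff h2] at h3
  rw [l1, ← sum_sdiff h2] at h1
  have e1 : ∑ t ∈ s, (c.cz K a t : ℝ) • c.mono X t =
      ∑ t ∈ s, c.ldc (a.U - c.QH) t • c.mono X t := sum_congr rfl fun t ht => by
    rw [cz_eq hc h.1 hK (hs t ht), Int.cast_smul_eq_zsmul]
  have e2 : ∑ t ∈ s, |(c.cz K a t : ℝ)| = ∑ t ∈ s, |(c.ldc (a.U - c.QH) t : ℝ)| :=
    sum_congr rfl fun t ht => by rw [cz_eq hc h.1 hK (hs t ht)]
  rw [e1, e2]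
  have h4 := (nu_wsum (ν := ν) (range c.N \ s) (c.ldc (a.U - c.QH)) (c.mono X)).trans
    (sum_le_sum fun t ht => mul_le_mul_of_nonneg_left
      (hβ t (mem_range.1 (mem_sdiff.1 ht).1) (mem_sdiff.1 ht).2) (abs_nonneg _))
  have h5 := (map_add_le_add ν _ _).trans (add_le_add h3 h4)
  rw [show ∀ u v w : A, u - (v + w) + v = u - w from fun u v w => by ring, ← sum_mul] at h5
  refine h5.trans (add_le_add le_rfl (mul_le_mul_of_nonneg_right ?_ h0))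
  have h6 := (Int.cast_le (R := ℝ)).2 h1
  push_cast at h6
  linarith

theorem low2g (hc : c.Ok) (hν : Sem X ν) (h : c.Enc X ν p a) {γ : ℝ} (hγ : ∀ i, ν (X i) ≤ γ) :
    let z := fun t => (c.cz (3 * c.S) a t : ℝ)
    ν (p - (z 0 • 1 + z c.S • X 0 + z c.B2 • X 1 + z 1 • X 2 +
      z (2 * c.S) • X 0 ^ 2 + z (2 * c.B2) • X 1 ^ 2 + z 2 • X 2 ^ 2)) ≤
      a.r + (a.n - (|z 0| + |z c.S| + |z c.B2| + |z 1| + |z (2 * c.S)| + |z (2 * c.B2)| +
        |z 2|)) * γ ^ 2 := by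
  intro z
  have hB := hc.2.1.2.2
  have hS : 3 * c.B2 ≤ c.S := Nat.mul_le_mul_right _ hc.2.1.2.1
  have k1 : c.mono X (1 * c.S) = X 0 ^ 1 := mono_sh hc 0 (by omega)
  have k2 : c.mono X (1 * c.B2) = X 1 ^ 1 := mono_sh hc 1 (by omega)
  have k3 : c.mono X 1 = X 2 ^ 1 := mono_sh hc 2 (m := 1) (by omega)
  have k4 : c.mono X (2 * c.S) = X 0 ^ 2 := mono_sh hc 0 (by omega)
  have k5 : c.mono X (2 * c.B2) = X 1 ^ 2 := mono_sh hc 1 (by omega)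
  have k6 : c.mono X 2 = X 2 ^ 2 := mono_sh hc 2 (m := 2) (by omega)
  rw [one_mul, pow_one] at k1 k2
  rw [pow_one] at k3
  have g1 : ∀ i, ν (X i) ≤ min γ 1 := fun i => le_min (hγ i) (hν.var i)
  have g0 : 0 ≤ min γ 1 := (apply_nonneg _ _).trans (g1 0)
  have g2 : ∀ i k, ν (X i ^ k) ≤ min γ 1 ^ k := fun i k => by
    induction k with
    | zero => simpa using hν.one
    | succ k ih => simpa [pow_succ] using hν.mul_le ih (g1 i)
  have h1 := lowg hc h (K := 3 * c.S) (Nat.mul_le_mul_right _ hc.2.1.1)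
    {0, c.S, c.B2, 1, 2 * c.S, 2 * c.B2, 2} (by
      simp only [mem_insert, mem_singleton, forall_eq_or_imp, forall_eq]
      omega) (sq_nonneg γ) fun t ht hs => by
    refine (hν.mul_le (hν.mul_le (g2 0 _) (g2 1 _)) (g2 2 _)).trans ?_
    rw [← pow_add, ← pow_add]
    refine (pow_le_pow_of_le_one g0 (min_le_right _ _) ?_).trans
      (pow_le_pow_left₀ g0 (min_le_left _ _) 2)
    have e := dec ht
    simp only [mem_insert, mem_singleton, not_or] at hs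
    by_contra hn
    generalize c.ex 0 t = i, c.ex 1 t = j, c.ex 2 t = k at e hn
    have : i = 0 ∧ j = 0 ∧ k = 0 ∨ i = 1 ∧ j = 0 ∧ k = 0 ∨ i = 0 ∧ j = 1 ∧ k = 0 ∨
      i = 0 ∧ j = 0 ∧ k = 1 := by omega
    rcases this with ⟨rfl, rfl, rfl⟩ | ⟨rfl, rfl, rfl⟩ | ⟨rfl, rfl, rfl⟩ | ⟨rfl, rfl, rfl⟩ <;> omega
  iterate 12 rw [sum_insert (by simp only [mem_insert, mem_singleton]; omega)] at h1
  simpa only [sum_singleton, mono_zero, ← add_assoc, k1, k2, k3, k4, k5, k6] using h1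

end low

theorem le_toNat (z : ℤ) : (z : ℝ) ≤ z.toNat := by exact_mod_cast Int.self_le_toNat z

theorem toNat_le {z : ℤ} {t : ℝ} (h : z ≤ t) (h0 : 0 ≤ t) : (z.toNat : ℝ) ≤ t := by
  rcases le_total 0 z with c | c
  · rwa [← Int.cast_natCast, Int.toNat_of_nonneg c]
  · simpa [Int.toNat_of_nonpos c] using h0

theorem toNat_sub (z : ℤ) : (z.toNat : ℝ) - (-z).toNat = z := by
  exact_mod_cast Int.toNat_sub_toNat_neg z

theorem le_div_succ (n : ℕ) {d : ℕ} (hd : 0 < d) : (n : ℝ) ≤ (n / d + 1 : ℕ) * d := by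
  exact_mod_cast (Nat.lt_mul_div_succ n hd).le.trans_eq (mul_comm _ _)

theorem ceil_le {n d : ℕ} (hd : 0 < d) : (n : ℝ) ≤ ((n + d - 1) / d : ℕ) * d := by
  have := Nat.lt_mul_div_succ (n + d - 1) hd
  exact_mod_cast (by rw [mul_add] at this; rw [mul_comm]; omega : n ≤ (n + d - 1) / d * d)

namespace Bd

variable {g : Bd}

/-- the values of the variables lie in the range -/
def Rg (g : Bd) (ξ : Fin 3 → ℝ) : Prop := ∀ i, -(g.l i : ℝ) ≤ 256 * ξ i ∧ 256 * ξ i ≤ g.h i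

theorem rg_of {ξ : Fin 3 → ℝ} (h0 : ∀ i, 0 < g.hs i)
    (h : ∀ i, (g.bl i : ℝ) ≤ g.hs i * ξ i + g.cs i ∧ g.hs i * ξ i + g.cs i ≤ g.bh i) : g.Rg ξ := by
  intro i
  have p : (0 : ℝ) < g.hs i := Nat.cast_pos.2 (h0 i)
  have sub : ∀ a b : ℕ, (a : ℝ) - b ≤ (a - b : ℕ) := fun a b => by
    exact_mod_cast (by omega : (a : ℤ) - b ≤ (a - b : ℕ))
  have a1 := ceil_le (n := 256 * (g.cs i - g.bl i)) (h0 i)
  have a2 := ceil_le (n := 256 * (g.bh i - g.cs i)) (h0 i)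
  rw [Nat.cast_mul] at a1 a2
  constructor
  · refine le_of_mul_le_mul_right ?_ p
    unfold l
    nlinarith [sub (g.cs i) (g.bl i), (h i).1]
  · refine le_of_mul_le_mul_right ?_ p
    unfold Bd.h
    nlinarith [sub (g.bh i) (g.cs i), (h i).2]

variable {ξ : Fin 3 → ℝ}

theorem Rg.m (H : g.Rg ξ) (i : Fin 3) : |256 * ξ i| ≤ g.m i := by
  have a : (g.l i : ℝ) ≤ g.m i := Nat.cast_le.2 (Nat.le_max_left _ _)
  have b : (g.h i : ℝ) ≤ g.m i := Nat.cast_le.2 (Nat.le_max_right _ _)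
  exact abs_le.2 ⟨by linarith [(H i).1], (H i).2.trans b⟩

theorem Rg.mm (H : g.Rg ξ) (i : Fin 3) : |ξ i| ≤ g.mm / 256 := by
  have a : g.m i ≤ g.mm := by
    unfold Bd.mm
    fin_cases i <;> simp only [Fin.zero_eta, Fin.mk_one, Fin.reduceFinMk] <;> omega
  have b := (H.m i).trans (Nat.cast_le.2 a)
  rw [abs_mul, abs_of_pos (by norm_num)] at b
  linarith

theorem Rg.ls (H : g.Rg ξ) (i : Fin 3) (z : ℤ) : -(g.ls i z : ℝ) ≤ z * (256 * ξ i) := by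
  rw [← toNat_sub z, Bd.ls]
  push_cast
  nlinarith [mul_le_mul_of_nonneg_left (H i).1 (Nat.cast_nonneg (α := ℝ) z.toNat),
    mul_le_mul_of_nonneg_left (H i).2 (Nat.cast_nonneg (α := ℝ) (-z).toNat)]

theorem Rg.lq (H : g.Rg ξ) (i : Fin 3) (z q : ℤ) :
    -(g.lq i z q : ℝ) ≤ 65536 * (z * ξ i + q * ξ i ^ 2) := by
  have a := H.ls i (256 * z + 2 * Int.ofNat q.toNat * g.vx i z q)
  have b := sq_le_sq' (abs_le.1 (H.m i)).1 (abs_le.1 (H.m i)).2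
  rw [Bd.lq]
  generalize g.vx i z q = v at a ⊢
  generalize (g.ls i (256 * z + 2 * Int.ofNat q.toNat * v)) = w at a ⊢
  rw [← toNat_sub q]
  simp only [Int.ofNat_eq_natCast] at a
  push_cast at a ⊢
  rw [Nat.cast_natAbs, Int.cast_abs, abs_mul_abs_self]
  nlinarith [mul_nonneg (Nat.cast_nonneg (α := ℝ) q.toNat) (sq_nonneg (256 * ξ i - v)),
    mul_le_mul_of_nonneg_left b (Nat.cast_nonneg (α := ℝ) (-q).toNat)]

theorem Rg.rd (H : g.Rg ξ) {n r : ℕ} {z0 z1 z2 z3 q1 q2 q3 : ℤ} {P : ℝ}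
    (h : |P - (z0 + z1 * ξ 0 + z2 * ξ 1 + z3 * ξ 2 + q1 * ξ 0 ^ 2 + q2 * ξ 1 ^ 2 + q3 * ξ 2 ^ 2)| ≤
      r + (n - (|(z0 : ℝ)| + |(z1 : ℝ)| + |(z2 : ℝ)| + |(z3 : ℝ)| + |(q1 : ℝ)| + |(q2 : ℝ)| +
        |(q3 : ℝ)|)) * (g.mm / 256) ^ 2) : g.rd n r z0 z1 z2 z3 q1 q2 q3 ≤ P := by
  have a0 := H.lq 0 z1 q1
  have a1 := H.lq 1 z2 q2
  have a2 := H.lq 2 z3 q3
  have b : ∀ m : ℕ, (n : ℝ) - m ≤ (n - m : ℕ) := fun m => by
    exact_mod_cast (by omega : (n : ℤ) - m ≤ (n - m : ℕ))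
  have b1 := b (z0.natAbs + z1.natAbs + z2.natAbs + z3.natAbs + q1.natAbs + q2.natAbs + q3.natAbs)
  rw [Bd.rd]
  generalize n - (z0.natAbs + z1.natAbs + z2.natAbs + z3.natAbs + q1.natAbs + q2.natAbs +
    q3.natAbs) = m at b1 ⊢
  have d := le_div_succ (m * (g.mm * g.mm) + (g.lq 0 z1 q1 + g.lq 1 z2 q2 + g.lq 2 z3 q3))
    (show 0 < 65536 by norm_num)
  generalize (m * (g.mm * g.mm) + (g.lq 0 z1 q1 + g.lq 1 z2 q2 + g.lq 2 z3 q3)) / 65536 = k at d ⊢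
  simp only [Int.ofNat_eq_natCast]
  push_cast at b1 d ⊢
  simp only [Nat.cast_natAbs, Int.cast_abs] at b1
  have e := mul_le_mul_of_nonneg_right b1 (sq_nonneg ((g.mm : ℝ) / 256))
  nlinarith [(abs_le.1 h).1]

variable {A : Type*} [CommRing A] [Algebra ℝ A] {φ : A →ₐ[ℝ] ℝ} {d : I3 → Derivation ℝ A A}
  {lam : ℝ≥0} {k s : ℕ} {X : Fin 3 → A} {c : Cfg} {p : A} {a : T}

theorem Rg.both (H : g.Rg fun i => φ (X i)) (hc : c.Ok) (hν : Sem X (nu φ d lam k))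
    (h : c.ET X (nu φ d lam k) s p a) : g.lo c a ≤ 2 ^ s * φ p ∧ 2 ^ s * φ p ≤ g.hi c a := by
  have m := nu_mono φ d lam (Nat.zero_le k)
  have h1 := low2g hc ⟨nu_mul φ d lam 0, (nu_one φ d lam 0).le, fun i => (m _).trans (hν.var i)⟩
    (Enc.mono h m) H.mm
  simp only [nu_zero, map_sub, map_add, map_smul, map_pow, map_one, smul_eq_mul, mul_one] at h1
  refine ⟨H.rd h1, ?_⟩
  rw [hi, Int.cast_neg, le_neg]
  refine H.rd ?_
  simp only [Int.cast_neg, abs_neg]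
  rw [← abs_neg]
  refine le_of_eq_of_le (congrArg _ (by ring)) h1

theorem Rg.hiN (H : g.Rg fun i => φ (X i)) (hc : c.Ok) (hν : Sem X (nu φ d lam k))
    (h : c.ET X (nu φ d lam k) s p a) : 2 ^ s * φ p ≤ g.hiN c a :=
  (H.both hc hν h).2.trans (le_toNat _)

theorem Rg.loN (H : g.Rg fun i => φ (X i)) (hc : c.Ok) (hν : Sem X (nu φ d lam k))
    (h : c.ET X (nu φ d lam k) s p a) (h0 : 0 ≤ φ p) : g.loN c a ≤ 2 ^ s * φ p :=
  toNat_le (H.both hc hν h).1 (by positivity)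

/-- a positive lower bound needs no sign condition -/
theorem Rg.loP (H : g.Rg fun i => φ (X i)) (hc : c.Ok) (hν : Sem X (nu φ d lam k))
    (h : c.ET X (nu φ d lam k) s p a) (h0 : 0 < g.loN c a) : g.loN c a ≤ 2 ^ s * φ p := by
  rw [Bd.loN] at h0 ⊢
  rw [← Int.cast_natCast, Int.toNat_of_nonneg (by omega)]
  exact (H.both hc hν h).1

theorem Rg.pos (H : g.Rg fun i => φ (X i)) (hc : c.Ok) (hν : Sem X (nu φ d lam k))
    (h : c.ET X (nu φ d lam k) s p a) (ok : g.pos c a = true) : 0 ≤ φ p := by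
  have h1 : 0 ≤ g.lo c a := by
    have := Nat.eq_of_beq_eq_true ok
    omega
  exact nonneg_of_mul_nonneg_right ((Int.cast_nonneg h1).trans (H.both hc hν h).1) (by positivity)

end Bd

theorem pw_succ (a k : ℕ) : pw a (k + 1) = pw a k ^ 2 / 2 ^ 64 := rfl

theorem pw_le {a : ℕ} {τ : ℝ} (h : a ≤ 2 ^ 64 * Real.exp τ) (k : ℕ) :
    pw a k ≤ 2 ^ 64 * Real.exp (2 ^ k * τ) := by
  induction k with
  | zero => rwa [pow_zero, one_mul]
  | succ k ih =>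
    rw [pw_succ, pow_succ (2 : ℝ) k, mul_right_comm, mul_two, Real.exp_add]
    refine Nat.cast_div_le.trans ((div_le_iff₀ (by positivity)).2 ?_)
    push_cast
    nlinarith [pow_le_pow_left₀ (Nat.cast_nonneg _) ih 2]

theorem le_pw {a : ℕ} (h : 2 ^ 64 ≤ a) (k : ℕ) : 2 ^ 64 ≤ pw a k := by
  induction k with
  | zero => exact h
  | succ k ih =>
    rw [pw_succ, Nat.le_div_iff_mul_le (by norm_num), pow_two (pw a k)]
    exact Nat.mul_le_mul ih ih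

theorem exl_le {s n : ℕ} {t : ℝ} (h : 2 ^ s * t ≤ n) :
    exl s n ≤ 2 ^ 64 * Real.exp (-1 / 4 * t) := by
  have e : -1 / 4 * t = 2 ^ 16 * (-t / 2 ^ 18) := by ring
  rw [e]
  refine pw_le ?_ 16
  have a := le_div_succ (n * 2 ^ 46) (Nat.two_pow_pos s)
  generalize n * 2 ^ 46 / 2 ^ s + 1 = m at a ⊢
  have b := Real.add_one_le_exp (-t / 2 ^ 18)
  have p : (0 : ℝ) < 2 ^ s := by positivity
  rcases le_total m (2 ^ 64) with c | c
  · rw [Nat.cast_sub c]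
    push_cast at a ⊢
    have : 2 ^ 46 * t ≤ m := le_of_mul_le_mul_right (by nlinarith) p
    linarith
  · rw [Nat.sub_eq_zero_of_le c, Nat.cast_zero]
    positivity

theorem le_exh {s n : ℕ} {t : ℝ} (h : n ≤ 2 ^ s * t) :
    2 ^ 64 * Real.exp (-1 / 4 * t) ≤ exh s n := by
  have p : (0 : ℝ) < 2 ^ s := by positivity
  have a := pw_le (a := 2 ^ 64 + n * 2 ^ 46 / 2 ^ s) (τ := t / 2 ^ 18) (by
    have b := Real.add_one_le_exp (t / 2 ^ 18)
    have c : ((n * 2 ^ 46 / 2 ^ s : ℕ) : ℝ) ≤ 2 ^ 46 * t :=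
      Nat.cast_div_le.trans ((div_le_iff₀ (by positivity)).2 (by push_cast; nlinarith))
    rw [Nat.cast_add]
    push_cast at c ⊢
    linarith) 16
  have b := (Nat.two_pow_pos 64).trans_le (le_pw (Nat.le_add_right _ (n * 2 ^ 46 / 2 ^ s)) 16)
  have c := le_div_succ (2 ^ 128) b
  rw [exh]
  generalize pw (2 ^ 64 + n * 2 ^ 46 / 2 ^ s) 16 = m at a b c ⊢
  generalize ((2 ^ 128 / m + 1 : ℕ) : ℝ) = r at c ⊢
  have e : Real.exp (-1 / 4 * t) * Real.exp (2 ^ 16 * (t / 2 ^ 18)) = 1 := by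
    rw [← Real.exp_add, Real.exp_eq_one_iff]; ring
  refine le_of_mul_le_mul_right ?_ (Nat.cast_pos.2 b)
  push_cast at c
  nlinarith [mul_le_mul_of_nonneg_left a (Real.exp_pos (-1 / 4 * t)).le]

end Pool.Agent.MP_48470b_gt.Ck
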