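import Pool.Agent.MP_48470b_gt.Ck.Lo0
import Pool.Agent.MP_48470b_gt.Ck.Lo2X
import Pool.Agent.MP_48470b_gt.Ck.Rd
import Pool.Agent.MP_48470b_gt.Ck.Af
import Pool.Agent.MP_48470b_gt.Top.Box

/-! Soundness of the cell words and of the tests for the eigenfunctions. -/

set_option maxHeartbeats 400000

open Finset
open scoped NNReal

namespace Pool.Agent.MP_48470b_gt.Ck

open TT TT.Cfg Dic Pool.Agent.MP48470b.An Pool.Agent.MP_48470b_gt.Sph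

namespace Ar

variable {x : Ar} {f : I4 → R} {h : Imm f} {X : Fin 3 → C3} {ν : Seminorm ℝ C3}
  {δ : I3 → Derivation ℝ C3 C3} {Φ : Fm.Fr h} {z : Fin 4 → Fn} {y : P3} {lam : ℝ≥0} {k : ℕ}
  {g : Bd}

variable (x Φ) in
/-- the metric in the variables of the box, up to a factor -/
noncomputable def Gm (i j : I3) : C3 := ((2 : ℝ) ^ x.sb)⁻¹ •
  ∑ a, ∑ b, ((x.ib a i : ℝ) * x.ib b j) • (Φ.q * Fm.jG Φ.p (cf f) a b)

theorem Lo.zq (S : x.Set X ν δ Φ.p) (H : x.Lo X ν Φ z) (n : ℤ) (a b : I3) :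
    x.c.EW X ν x.s ((n : ℝ) • (Φ.q * Fm.jG Φ.p (cf f) a b)) (x.zq z n a b) :=
  (EN.lift (S.mr H.q (H.gg a b))).zs n

theorem Set.rb {pp : I3 → Derivation ℝ C3 C3} (S : x.Set X ν δ pp) {v v' : C3} {w : W}
    (h : x.c.EW X ν x.s v w) (e : v = v') :
    x.c.ET X ν x.s (((2 : ℝ) ^ x.sb)⁻¹ • v') (x.rb w) :=
  EW.rnd S.sg x.sb (add_comm x.s x.sb ▸ (e ▸ h).half x.sb)

theorem Lo.G (S : x.Set X ν δ Φ.p) (H : x.Lo X ν Φ z) :
    x.c.ET X ν x.s (x.Gm Φ 0 0) (x.G00 z) ∧ x.c.ET X ν x.s (x.Gm Φ 2 2) (x.G22 z) ∧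
    x.c.ET X ν x.s (x.Gm Φ 1 1) (x.G11 z) ∧ x.c.ET X ν x.s (x.Gm Φ 0 2) (x.G02 z) ∧
    x.c.ET X ν x.s (x.Gm Φ 0 1) (x.G01 z) ∧ x.c.ET X ν x.s (x.Gm Φ 1 2) (x.G12 z) := by
  have q := H.zq S
  have s : ∀ a b, Fm.jG Φ.p (cf f) a b = Fm.jG Φ.p (cf f) b a := fun a b =>
    congrFun (congrFun (Fm.jG_symm Φ.p (cf f)) b) a
  have e1 : x.ib 1 0 = 0 := rfl
  have e2 : x.ib 2 0 = 0 := rfl
  have e3 : x.ib 2 1 = 0 := rfl
  refine ⟨S.rb (q _ _ _) ?_, S.rb ((((((q _ _ _).add (q _ _ _)).add (q _ _ _)).add (q _ _ _)).add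
    (q _ _ _)).add (q _ _ _)) ?_, S.rb (((q _ _ _).add (q _ _ _)).add (q _ _ _)) ?_,
    S.rb (((q _ _ _).add (q _ _ _)).add (q _ _ _)) ?_, S.rb ((q _ _ _).add (q _ _ _)) ?_,
    S.rb (((((q _ _ _).add (q _ _ _)).add (q _ _ _)).add (q _ _ _)).add (q _ _ _)) ?_⟩ <;>
  · simp only [Fin.sum_univ_three, e1, e2, e3, s 1 0, s 2 0, s 2 1]
    push_cast
    module

theorem Lo.jv (S : x.Set X ν δ Φ.p) (H : x.Lo X ν Φ z) (r : ℕ) : ∃ v : C3,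
    x.c.ET X ν x.s v (x.jv z r) ∧ ∀ p, v p = Φ.q p * Fm.jD Φ.p (cf f) p *
      (16 * ch (Gap.Vg (dc h) (r / 16)) p) := by
  refine ⟨_, S.rt (S.m H.jj (S.r ((((EW.nat S.sg.ok (x.s + x.s) (r + 20)).add
    (EW.smul H.aw 16)).sub (E.up H.ff)).add (S.m H.lm (S.en (S.r0 ((EN.lift H.lm).add
      ((EN.lift H.hm).smul 4)))))) rfl)) rfl, fun p => ?_⟩
  have e : ∀ n : ℕ, (n : C3) p = n := fun n => map_natCast (evc p) n
  rw [Φ.ch_Vg]
  simp only [C3.mul_apply, C3.add_apply, C3.sub_apply, C3.pow_apply, e, Fin.sum_univ_four]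
  push_cast
  ring

theorem et_pt {c : Cfg} {s : ℕ} {p : C3} {a : T} (h : c.ET X (nu (evc y) δ lam k) s p a) :
    |2 ^ s * p y - c.pol (fun i => X i y) a| ≤ a.r := by
  have h1 := (abs_le_nu (evc y) δ lam k _).trans h.2
  rwa [map_sub, pol, map_ev, map_smul] at h1

theorem Loc.bb {B : Matrix I3 I3 ℝ} {hB : 0 < B.det} {hs cs : Fin 3 → ℕ} (L : x.Loc X δ hs cs)
    (S : x.Set X ν δ (Fm.pb B)) (hd : B.det = x.dq hs / 2 ^ 27) (i j : I3) (p : P3) :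
    2 ^ 20 * (B.det * ((Fm.ofB h B hB).q p * Gap.Gc f (sg i) (sg j) p)) *
      (x.db.natAbs * (hs i * hs j)) =
      x.Gm (Fm.ofB h B hB) i j p * (hp hs * 2 ^ (x.sb + 11)) := by
  have e : (x.db.natAbs : ℝ) ≠ 0 := Nat.cast_ne_zero.2 (Int.natAbs_ne_zero.2 L.neg.ne)
  have m := fun i => (Nat.cast_pos (α := ℝ).2 (L.pos i)).ne'
  have m0 := m 0
  have m1 := m 1
  have m2 := m 2
  have c : ∀ a i, x.Cm hs a (sg i) = -512 * x.ib a i / (x.db.natAbs * hs i) := fun a i => by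
    simp only [Cm, Matrix.of_apply, Ar.dq, iq, hp, Nat.cast_mul]
    generalize (x.db.natAbs : ℝ) = d at e
    fin_cases i <;> simp [sg, hq, s3, Nat.beq] <;> field_simp
  have mi := m i
  have mj := m j
  rw [Fm.Gc_eq, hd, Gm, Ar.dq, pow_add, Nat.cast_mul]
  simp only [Fm.jG_apply, L.hC S, c, Fm.ofB_p, Fin.sum_univ_three, Fin.sum_univ_four,
    C3.add_apply, C3.mul_apply, C3.smul_apply]
  field_simp
  ring

theorem NN_pos {hs : Fin 3 → ℕ} (h0 : ∀ i, 0 < hs i) (cs lo hi : Fin 3 → ℕ) :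
    0 < (Ce.box hs cs lo hi).NN := by
  have := h0 0
  have := h0 1
  have := h0 2
  simp only [Ce.NN, Ce.N2, Ce.box, Ce.of, Nat.mul_eq]
  positivity

section cell

variable {B : Matrix I3 I3 ℝ} {hB : 0 < B.det} {τ : ℝ × ℝ × ℝ} {w : ℕ}

theorem okB_sound (L : x.Loc X δ g.hs g.cs) (S : x.Set X (nu (evc y) δ lam k) δ (Fm.pb B))
    (hd : B.det = x.dq g.hs / 2 ^ 27) (A : g.ce.At (fun i => X i y) (Af.tw τ)) {i j : I3} {a : T}
    (E : x.c.ET X (nu (evc y) δ lam k) x.s (x.Gm (Fm.ofB h B hB) i j) a) (s : ℕ)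
    (ok : x.okB g a i j (w.shiftRight (32 * s)) = true) :
    |2 ^ 20 * (B.det * ((Fm.ofB h B hB).q y * Gap.Gc f (sg i) (sg j) y)) -
      Gap.aff (fun c => (Gap.dat w (s + c) : ℝ)) τ| ≤ (Gap.dat w (s + 4) : ℝ) := by
  refine Af.okB_sound A.ht (A.af S.sg.ok E.1 (et_pt E)) ok ?_ ?_
  · have := L.pos i
    have := L.pos j
    have := Int.natAbs_pos.2 L.neg.ne
    have := NN_pos L.pos g.cs g.bl g.bh
    change 0 < (x.db.natAbs * (g.hs i * g.hs j) * (Ce.box _ _ _ _).NN) <<< x.s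
    rw [Nat.shiftLeft_eq]
    positivity
  · change _ * (((x.db.natAbs * (g.hs i * g.hs j) * g.ce.NN) <<< x.s : ℕ) : ℝ) =
      _ * ((hp g.hs <<< (x.sb + 11) : ℕ) : ℝ)
    rw [Nat.shiftLeft_eq, Nat.shiftLeft_eq]
    simp only [Nat.cast_mul, Nat.cast_pow, Nat.cast_ofNat]
    linear_combination (g.ce.NN * 2 ^ x.s : ℝ) * L.bb (h := h) (hB := hB) S hd i j y

/-- **The word of a cell.** -/
theorem okC_sound {n r : ℕ} {br : ℕ → ℕ} (G : Gap.Grid n 512 br) {M : I3 → ℕ} (hM : Top.Srt n M)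
    (gl : ∀ i, g.bl i = br (M (sg i))) (gh : ∀ i, g.bh i = br (M (sg i) + 1))
    (L : x.Loc X δ g.hs g.cs) (hd : B.det = x.dq g.hs / 2 ^ 27)
    (H : ∀ y, Top.InB 512 br M y → x.Set X (nu (evc y) δ lam k) δ (Fm.pb B) ∧
      x.Lo X (nu (evc y) δ lam k) (Fm.ofB h B hB) z) (ok : x.okC z g r w = true) :
    Gap.CellOK 512 br (Gap.bbF f) (Gap.vvF h (r / 16)) w (M 0) (M 1) (M 2) := by
  intro τ hτ
  obtain ⟨y1, y2⟩ := Top.inB_cm G hM hτ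
  obtain ⟨S, H⟩ := H _ y1
  simp only [okC, Bd.okc, Bool.and_eq_true] at ok
  obtain ⟨⟨⟨⟨⟨⟨⟨⟨⟨c0, c1⟩, c2⟩, k0⟩, k1⟩, k2⟩, k3⟩, k4⟩, k5⟩, k6⟩ := ok
  simp only [Fm.bbF_eq h hB, Fm.vvF_eq h hB]
  generalize Gap.tv3 (Gap.cm 512 br (M 0) (M 1) (M 2) τ) = y at y1 y2 S H ⊢
  have tw : ∀ i, Af.tw τ i = Gap.tv3 τ (sg i) := fun i => by fin_cases i <;> rfl
  have A : g.ce.At (fun i => X i y) (Af.tw τ) := by
    refine Ce.At.box L.pos (fun i => ?_)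
      (fun i => (abs_le_nu (evc y) δ lam k _).trans (S.sg.sem.var i)) (fun i => ?_)
      (fun i => ?_) fun i => ?_
    · fin_cases i
      exacts [abs_le.2 hτ.1, abs_le.2 hτ.2.2, abs_le.2 hτ.2.1]
    · fin_cases i
      exacts [Nat.le_of_ble_eq_true c0, Nat.le_of_ble_eq_true c1, Nat.le_of_ble_eq_true c2]
    · rw [gl, gh]
      exact (G.lt _ (hM.lt _)).le
    · have e : y (sg i) = g.hs i / 512 * X i y + g.cs i / 512 :=
        congrArg (fun u : C3 => u y) (L.xi i)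
      have e' := y2 (sg i)
      rw [gl, gh, tw]
      push_cast at e'
      linear_combination e' - 1024 * e
  obtain ⟨g0, g1, g2, g3, g4, g5⟩ := H.G (Φ := Fm.ofB h B hB) S
  refine ⟨fun e he => ?_, ?_⟩
  · interval_cases e
    · exact okB_sound L S hd A g0 0 k0
    · exact okB_sound L S hd A g1 5 k1
    · exact okB_sound L S hd A g2 10 k2
    · exact okB_sound L S hd A g3 15 k3
    · exact okB_sound L S hd A g4 20 k4
    · have s : Gap.Ge f 5 = Gap.Gc f (sg 1) (sg 2) :=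
        congrFun (congrFun (Fm.jG_symm pd (cf f)) 2) 1
      rw [s]
      exact okB_sound L S hd A g5 25 k5
  · obtain ⟨v, E, hv⟩ := H.jv (Φ := Fm.ofB h B hB) S r
    have p : 0 < x.dq g.hs := by
      have := L.pos 0
      have := L.pos 1
      have := L.pos 2
      have := Int.natAbs_pos.2 L.neg.ne
      change 0 < x.db.natAbs * (g.hs 0 * g.hs 1 * g.hs 2)
      positivity
    refine Af.okV_sound (s := 30) A.ht (A.af S.sg.ok E.1 (et_pt E)) k6 ?_ ?_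
    · have := NN_pos L.pos g.cs g.bl g.bh
      change 0 < (x.dq g.hs * (Ce.box _ _ _ _).NN) <<< x.s
      rw [Nat.shiftLeft_eq]
      positivity
    · have p' : (x.dq g.hs : ℝ) ≠ 0 := Nat.cast_ne_zero.2 p.ne'
      change _ * (((x.dq g.hs * g.ce.NN) <<< x.s : ℕ) : ℝ) = _
      rw [Nat.shiftLeft_eq, hv, hd, Fm.ofB_p]
      push_cast
      field_simp
      ring

end cell

/-! ### eigenfunctions -/

theorem Lo.gi' (H : x.Lo X ν Φ z) (S : x.Set X ν δ Φ.p) (a b : I3) :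
    x.E X ν (Φ.q ^ 2 * Fm.jA Φ.p (cf f) a b) (x.gi' z a b) := S.mr H.q2 (H.ad a b)

theorem Lo.tr6 (S : x.Set X ν δ Φ.p) (H : x.Lo X ν Φ z) {v : C3} {a00 a11 a22 a01 a02 a12 : T}
    (h00 : x.E X ν (Φ.p 0 (Φ.p 0 v)) a00) (h11 : x.E X ν (Φ.p 1 (Φ.p 1 v)) a11)
    (h22 : x.E X ν (Φ.p 2 (Φ.p 2 v)) a22) (h01 : x.E X ν (Φ.p 0 (Φ.p 1 v)) a01)
    (h02 : x.E X ν (Φ.p 0 (Φ.p 2 v)) a02) (h12 : x.E X ν (Φ.p 1 (Φ.p 2 v)) a12) :
    x.E2 X ν (Φ.q ^ 2 * ∑ a, ∑ b, Fm.jA Φ.p (cf f) a b * Φ.p a (Φ.p b v))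
      (x.tr6 z a00 a11 a22 a01 a02 a12) :=
  EW.congr ((((S.m (H.gi' S 0 0) h00).add (S.m (H.gi' S 1 1) h11)).add
    (S.m (H.gi' S 2 2) h22)).add ((((S.m (H.gi' S 0 1) h01).add (S.m (H.gi' S 0 2) h02)).add
    (S.m (H.gi' S 1 2) h12)).smul 2)) (by
    simp only [Fin.sum_univ_three, Fm.jA_symm Φ.p (cf f) 1 0, Fm.jA_symm Φ.p (cf f) 2 0,
      Fm.jA_symm Φ.p (cf f) 2 1, Φ.comm 1 0, Φ.comm 2 0, Φ.comm 2 1]
    push_cast
    ring)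

theorem Lo.zn (S : x.Set X ν δ Φ.p) (H : x.Lo X ν Φ z) (i : I4) :
    x.E X ν (Φ.q ^ 2 * Fm.jZ Φ.p (cf f) i) (x.zn z i) := by
  have h1 := (H.tr6 S (H.fs 0 0 i) (H.fs 1 1 i) (H.fs 2 2 i) (H.fs 0 1 i) (H.fs 0 2 i)
    (H.fs 1 2 i)).shl 1
  have h2 := EW.half 1 (E.up (H.F i))
  rw [add_comm _ 1] at h2
  refine S.en (EW.rnd S.sg (x.s + 1) (EW.congr
    (by rw [show x.s + 1 + x.s = 1 + (x.s + x.s) by ring]; exact h1.add h2) ?_))
  have e := Φ.qsq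
  simp only [Fm.jZ, hf, Algebra.smul_def, pow_one, one_div]
  linear_combination -(algebraMap ℝ C3 2⁻¹ * cf f i) * e

theorem Lo.lr (S : x.Set X ν δ Φ.p) (H : x.Lo X ν Φ z) {u : Fn} {φ : R}
    (N : x.Near X ν δ u (ch φ)) (n : ℤ) (d : ℕ) :
    2 ^ x.s * ν (ch ((dc h).L φ) + ((n : ℝ) / d - 1 / 2) • ch φ) ≤ x.lr z u n d := by
  have vc : ∀ c, x.E X ν (Φ.q ^ 4 * ∑ k, Fm.jZ Φ.p (cf f) k * Fm.jS Φ.p (cf f) k c) (x.vc z c) :=
    fun c => S.r (S.dot (H.zn S) fun k => H.u k c) (by simp only [Fin.sum_univ_four]; ring)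
  refine E.le S (S.r (((H.tr6 S (S.j00 N) (S.j11 N) (S.j22 N) (S.j01 N) (S.j02 N) (S.j12 N)).sub
    (((S.m (vc 0) (S.j0 N)).add (S.m (vc 1) (S.j1 N))).add (S.m (vc 2) (S.j2 N)))).add
    ((S.m H.aa (S.j N)).add (S.sw (S.j N) n d))) ?_)
  rw [Φ.ch_L]
  simp only [Fin.sum_univ_three, hf, Algebra.smul_def, map_sub]
  ring

/-- **The residual of an eigenfunction.** -/
theorem okR_sound (S : x.Set X (nu (evc y) δ lam k) δ Φ.p) (H : x.Lo X (nu (evc y) δ lam k) Φ z)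
    {u : Fn} {φ : R} (N : x.Near X (nu (evc y) δ lam k) δ u (ch φ)) {n : ℤ} {d rh et : ℕ}
    (hρ : ch (rho h) y * 2 ^ 64 ≤ rh) (ok : x.okR z u n d rh et = true) :
    ch (rho h) y * (ch ((dc h).L φ) y + ((n : ℝ) / d - 1 / 2) * ch φ y) ^ 2 ≤
      ((et : ℝ) / 2 ^ 32) ^ 2 := by
  have h1 : 2 ^ x.s * |ch ((dc h).L φ) y + ((n : ℝ) / d - 1 / 2) * ch φ y| ≤ x.lr z u n d :=
    (mul_le_mul_of_nonneg_left (abs_le_nu (evc y) δ lam k _) (by positivity)).trans (H.lr S N n d)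
  have h2 : ((rh * s2 (x.lr z u n d) : ℕ) : ℝ) ≤ (s2 et <<< (x.s + x.s) : ℕ) :=
    Nat.cast_le.2 (Nat.le_of_ble_eq_true ok)
  rw [Nat.shiftLeft_eq] at h2
  push_cast at h2
  rw [s2_cast, s2_cast, pow_add, ← sq] at h2
  have h3 := mul_le_mul hρ (pow_le_pow_left₀ (by positivity) h1 2) (by positivity) (by positivity)
  rw [mul_pow, sq_abs] at h3
  refine le_of_mul_le_mul_right ?_ (show (0 : ℝ) < 2 ^ 64 * (2 ^ x.s) ^ 2 by positivity)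
  calc _ = _ := by ring
    _ ≤ _ := h3.trans h2
    _ = _ := by ring

/-- **The lower bound for an eigenfunction.** -/
theorem okW_sound {pp : I3 → Derivation ℝ C3 C3} (S : x.Set X (nu (evc y) δ lam k) δ pp)
    (G : g.Rg fun i => evc y (X i)) {u : Fn} {v : C3} (N : x.Near X (nu (evc y) δ lam k) δ u v)
    {rl el : ℕ} {ρ : ℝ} (hρ : rl * ww y ^ 2 ≤ ρ * 2 ^ 64) (ok : x.okW g u rl el = true) :
    (el : ℝ) / 2 ^ 64 * ww y ^ 2 ≤ ρ * v y ^ 2 := by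
  have b := G.both S.sg.ok S.sg.sem (S.r0 (EN.lift (S.j N)))
  have h1 : (x.lw g (x.r0 (x.j u).lift) : ℝ) ≤ 2 ^ x.s * |v y| := by
    have p : (0 : ℝ) < 2 ^ x.s := by positivity
    rw [lw, mx_eq, Nat.cast_max, ← abs_of_pos p, ← abs_mul]
    exact max_le (toNat_le (b.1.trans (le_abs_self _)) (abs_nonneg _))
      (toNat_le (by rw [Int.cast_neg]; exact (neg_le_neg b.2).trans (neg_le_abs _)) (abs_nonneg _))
  have h2 : ((el <<< (x.s + x.s) : ℕ) : ℝ) ≤ (rl * s2 (x.lw g (x.r0 (x.j u).lift)) : ℕ) :=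
    Nat.cast_le.2 (Nat.le_of_ble_eq_true ok)
  rw [Nat.shiftLeft_eq] at h2
  push_cast at h2
  rw [s2_cast, pow_add, ← sq] at h2
  have h3 := mul_le_mul hρ (pow_le_pow_left₀ (by positivity) h1 2) (by positivity)
    (le_trans (by positivity) hρ)
  rw [mul_pow, sq_abs] at h3
  have h4 := mul_le_mul_of_nonneg_right h2 (sq_nonneg (ww y))
  refine le_of_mul_le_mul_right ?_ (show (0 : ℝ) < 2 ^ 64 * (2 ^ x.s) ^ 2 by positivity)
  calc _ = _ := by ring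
    _ ≤ _ := h4
    _ = _ := by ring
    _ ≤ _ := h3
    _ = _ := by ring

end Ar

end Pool.Agent.MP_48470b_gt.Ck
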