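import Pool.Agent.MP_48470b_gt.Ck.Lo0X
import Pool.Agent.MP_48470b_gt.Ck.RdX

/-! Executable definitions: the tests of order zero and for the residual on one box. -/

namespace Pool.Agent.MP_48470b_gt.Ck

open TT

/-- global constants, unit `10 ^ -6`, for `e0`, `e1` and `ev` unit `10 ^ -14` -/
structure Kn where
  al : Nat
  a1 : Nat
  a2 : Nat
  e0 : Nat
  e1 : Nat
  e2 : Nat
  z1 : Nat
  z2 : Nat
  z3 : Nat
  d1 : Nat
  d2 : Nat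
  d3 : Nat
  c1 : Nat
  c2 : Nat
  c3 : Nat
  rm : Nat
  x1 : Nat
  x2 : Nat
  y1 : Nat
  y2 : Nat
  v1 : Nat
  v2 : Nat
  ev : Nat
  /-- two radii with their boxes -/
  s : Nat
  t : Nat
  M1 : Fin 3 → Nat
  M2 : Fin 3 → Nat
  /-- lower bound for the support function on a block -/
  eL : Nat
  lo : Fin 3 → Nat
  hi : Fin 3 → Nat

/-- the smaller one of `a` and `b + c * e` -/
def km (a b c e : Nat) : Nat := min (a * 2 ^ 64) (b * 2 ^ 64 + c * e)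
def eq3 (K M : Fin 3 → Nat) : Bool :=
  Nat.beq (K 0) (M 0) && Nat.beq (K 1) (M 1) && Nat.beq (K 2) (M 2)
def in3 (lo hi K : Fin 3 → Nat) : Bool :=
  Nat.ble (lo 0) (K 0) && Nat.ble (lo 1) (K 1) && Nat.ble (lo 2) (K 2) &&
    Nat.blt (K 0) (hi 0) && Nat.blt (K 1) (hi 1) && Nat.blt (K 2) (hi 2)
/-- symmetric double sum -/
def sw6 (F : Fin 3 → Fin 3 → W) (e : W) : W := (((F 0 0).add (F 1 1)).add (F 2 2)).add
  (((((F 0 1).add (F 0 2)).add (F 1 2)).add e).smul 2)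

namespace Ar

variable (x : Ar) (g : Bd)

/-- the model is at least `1 / 100` on the box -/
def pc (a : T) : Bool := Nat.blt (2 ^ x.s) (100 * g.loN x.c a)

variable (z : Fin 4 → Fn)

def fh : Nat := g.hiN x.c (x.ff z)
def fl : Nat := g.loN x.c (x.ff z)
def jl : Nat := g.loN x.c (x.jj z)
def jh : Nat := g.hiN x.c (x.jj z)
def ah : Nat := g.hiN x.c (x.aa z)
/-- bounds for the Gaussian factor, the weight and the weight over `ww ^ 2`, scale `2 ^ 64` -/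
def el : Nat := exl x.s (x.fh g z)
def eh : Nat := exh x.s (x.fl g z)
def roh : Nat := g.wh ^ 2 * x.jh g z * x.eh g z / (2 ^ 9 * x.dq g.hs * 2 ^ x.s) + 1
def rol : Nat := 2 ^ 27 * x.jl g z * x.el g z / (x.dq g.hs * 2 ^ x.s)

/-- the Laplace operator of the position -/
def lp (k : Fin 4) : T := x.r (sw6 (fun a b => x.m (x.mm g.hs g.cs a b) (x.fs z a b k))
  (x.d3 (x.et g.hs g.cs) fun a => x.tt z a k))
def ln : T := x.r (x.dot (x.nn z) (x.lp g z))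
def vt : W := x.c.sub (x.dsq (x.lp g z)) (x.c.sqr (x.ln g z))
def tr : T := x.r (sw6 (fun a b => x.m (x.mm g.hs g.cs a b) (x.gg z a b)) (W.const 0))
/-- multiple of the volume element minus a function -/
def jm (k : Nat) (w : W) : T :=
  x.r (x.c.sub (x.sw (Int.ofNat (k * 2 ^ 27)) (10 ^ 6 * 2 ^ 64 * x.dq g.hs) (x.jj z)) w)
def l2 : W := x.c.sqr (x.lm z)
def v2 : T := x.r (x.c.sub ((x.aw z).smul 8) (x.l2 z))

def su (a : Fin 4 → T) : T := x.r0 (((a 1).lift.add (a 2).lift).add (a 3).lift)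
def tq (a : Fin 4 → T) : W := (x.m (x.F z 0) (a 0)).add (x.m (x.F z 1) (x.su a))
def tu : T := x.r (x.tq z (x.F z))
def tw : T := x.r (x.c.sub (x.up (x.lm z)) ((x.tq z (x.nn z)).smul 6))
def tv : W := (x.m (x.ff z) (x.tw z)).add ((x.m (x.tu z) (x.lm z)).smul 6)
def tA : Nat := sq0 (32 * (x.fh g z + x.fl g z) / 2 ^ x.s)
def tz : T := x.r (x.c.neg (((((x.tv z).smul (x.tA g z)).add (x.c.sqr (x.ff z))).smul 64).add
  ((x.up (x.ff z)).smul (x.tA g z * x.tA g z))))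
def ml : T := x.r0 ((x.ff z).lift.add ((x.tu z).lift.smul 12))
def cb1 : Bool := x.pc g (x.r0 (x.F z 1).lift) && x.pc g (x.r0 (x.F z 3).lift)
def cbm : Bool := x.pc g (x.r0 (x.c.sub (x.F z 3).lift (x.F z 1).lift))
def cbp : Bool := x.pc g (x.r0 ((x.F z 3).lift.add (x.F z 1).lift))

/-- tests for the embeddedness -/
def okE : Bool := g.pos x.c (x.tz g z) && g.pos x.c (x.ml z) &&
  Nat.ble (2 ^ x.s) (4 * x.fl g z) &&
  (Nat.ble (5 * x.fh g z) (6 * 2 ^ x.s) && x.cbm g z && x.cbp g z ||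
    x.cb1 g z && (Nat.ble (101 * 2 ^ x.s) (100 * x.fl g z) || x.cbm g z))

variable (n : Kn)

def kz : Nat := km n.z3 n.z1 n.z2 (x.el g z)
def kd : Nat := km n.d3 n.d1 n.d2 (x.el g z)
def kc : Nat := km n.c3 n.c1 n.c2 (x.el g z)
def vh : Nat := (g.hi x.c (x.v2 z) + Int.ofNat (10 * 2 ^ x.s)).toNat

/-- tests of order zero -/
def okZ : Bool := Nat.ble (x.ah g z * 10 ^ 12) (n.al ^ 2 * 2 ^ x.s) &&
  Nat.ble (x.dq g.hs * 10 ^ 6 * 2 ^ 73 * 2 ^ x.s) (g.wl ^ 2 * x.jl g z * x.kz g z n) &&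
  g.pos x.c (x.jm g z (x.kd g z n) (x.vt g z)) &&
  g.pos x.c (x.jm g z (x.kc g z n) (x.c.sqr (x.tr g z))) &&
  Nat.ble (x.fh g z * 10 ^ 12) (n.rm ^ 2 * 2 ^ x.s) &&
  Nat.ble (x.ah g z * 10 ^ 6 * 2 ^ 64) ((n.x1 * 2 ^ 64 + n.x2 * x.el g z) * 2 ^ x.s) &&
  Nat.ble ((2 * x.ah g z + 2 ^ x.s) ^ 2 * 10 ^ 12 * 2 ^ 64)
    (4 * n.v1 ^ 2 * x.el g z * (2 ^ x.s) ^ 2) &&
  Nat.ble (x.vh g z * 10 ^ 6 * 2 ^ 64) (8 * n.v2 * x.el g z * 2 ^ x.s)

/-- diagonal of the inverse metric in the variables of the box -/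
def gd (p q r : Int) : Nat := g.hiN x.c (x.r0 (sw6
  (fun a b => zs x.c (s3 p q r a * s3 p q r b) (x.gi z a b).lift) (W.const 0)))
def gm : Nat := max (x.gd g z x.b00 x.b01 x.b02) (max (x.gd g z 0 x.b11 x.b12) (x.gd g z 0 0 x.b22))

variable (Y : T) (et L : Nat)

/-- the defect of the rescaling `Y` -/
def dfy : Nat := mag (x.r (x.c.sub (x.m Y (x.jj z)) (W.const (1 <<< (x.s + x.s)))))
/-- bound for the residual, scale `2 ^ 100` -/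
def th : Nat := et * (2 ^ x.s) ^ 3 / (2 * (2 ^ x.s) ^ 3 - (2 ^ x.s + x.dfy z Y) ^ 3) + 1

/-- tests for the residual; the rescaled residual is at most `et / 2 ^ 100` for the seminorm of
parameter `2 ^ -L` -/
def okD : Bool := Nat.blt ((2 ^ x.s + x.dfy z Y) ^ 3) (2 * (2 ^ x.s) ^ 3) &&
  Nat.ble (x.roh g z * x.th z Y et ^ 2 * 10 ^ 28) (n.e0 ^ 2 * 2 ^ 200 * 2 ^ 64) &&
  Nat.ble (x.roh g z * x.gm g z * (2 ^ L * x.th z Y et) ^ 2 * 10 ^ 28)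
    (n.e1 ^ 2 * 2 ^ 202 * 2 ^ 64 * 2 ^ x.s) &&
  Nat.ble (x.kp z ^ 2 * x.th z Y et *
    (x.la L ^ 2 * (2 ^ x.s) ^ 2 + x.m2 z * x.kp z * x.la L) * 10 ^ 6)
    (n.e2 * (2 ^ x.s) ^ 4 * 2 ^ 100) &&
  Nat.ble (g.wh ^ 2 * x.jh g z * x.gm g z * (2 ^ L * x.th z Y et) ^ 2 * 10 ^ 28)
    (n.ev ^ 2 * 2 ^ 211 * x.dq g.hs * (2 ^ x.s) ^ 2)

/-- tests on special boxes -/
def okU (K : Fin 3 → Nat) : Bool :=
  (!eq3 K n.M1 || Nat.ble (x.fh g z * 10 ^ 12) (n.s ^ 2 * 2 ^ x.s)) &&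
  (!eq3 K n.M2 || Nat.ble (n.t ^ 2 * 2 ^ x.s) (x.fl g z * 10 ^ 12)) &&
  (!in3 n.lo n.hi K || Nat.ble (n.eL * 2 ^ 64 * 2 ^ x.s)
    (10 ^ 6 * x.rol g z * g.loN x.c (x.r (x.l2 z))))

/-- all tests of this part -/
def ok3 (K : Fin 3 → Nat) : Bool :=
  x.okE g z && x.okZ g z n && x.okD g z n Y et L && x.okU g z n K

end Ar

end Pool.Agent.MP_48470b_gt.Ck
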