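import Pool.Agent.MP_48470b_gt.Ck.Lo0
import Pool.Agent.MP_48470b_gt.Ck.Lo3X
import Pool.Agent.MP_48470b_gt.Ck.Rd
import Pool.Agent.MP_48470b_gt.Dic.Red3

/-! Soundness of the tests of order zero and for the residual. -/

open Finset
open scoped NNReal

namespace Pool.Agent.MP_48470b_gt.Ck

open TT TT.Cfg Dic Pool.Agent.MP48470b.An Pool.Agent.MP_48470b_gt.Sph

/-- the real constants -/
noncomputable def Kn.nw (n : Kn) : Nw where
  α := n.al / 10 ^ 6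
  a₁ := n.a1 / 10 ^ 6
  a₂ := n.a2 / 10 ^ 6
  ε₀ := n.e0 / 10 ^ 14
  ε₁ := n.e1 / 10 ^ 14
  e₂ := n.e2 / 10 ^ 6
  z₁ := n.z1 / 10 ^ 6
  z₂ := n.z2 / 10 ^ 6
  z₃ := n.z3 / 10 ^ 6
  d₁ := n.d1 / 10 ^ 6
  d₂ := n.d2 / 10 ^ 6
  d₃ := n.d3 / 10 ^ 6
  c₁ := n.c1 / 10 ^ 6
  c₂ := n.c2 / 10 ^ 6
  c₃ := n.c3 / 10 ^ 6
  rm := n.rm / 10 ^ 6
  x₁ := n.x1 / 10 ^ 6
  x₂ := n.x2 / 10 ^ 6
  y₁ := n.y1 / 10 ^ 6
  y₂ := n.y2 / 10 ^ 6
  v₁ := n.v1 / 10 ^ 6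
  v₂ := n.v2 / 10 ^ 6
  εv := n.ev / 10 ^ 14

theorem ble_cast {a b : ℕ} (h : Nat.ble a b = true) : (a : ℝ) ≤ b :=
  Nat.cast_le.2 (Nat.le_of_ble_eq_true h)

theorem km_two {a b c E : ℕ} {e J t : ℝ} (he : E ≤ 2 ^ 64 * e) (hJ : 0 ≤ J)
    (h : t ≤ J * (km a b c E / (10 ^ 6 * 2 ^ 64))) :
    t ≤ J * (b / 10 ^ 6 + c / 10 ^ 6 * e) ∧ t ≤ a / 10 ^ 6 * J := by
  have h1 : (km a b c E : ℝ) ≤ (a * 2 ^ 64 : ℕ) := Nat.cast_le.2 (Nat.min_le_left _ _)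
  have h2 : (km a b c E : ℝ) ≤ (b * 2 ^ 64 + c * E : ℕ) := Nat.cast_le.2 (Nat.min_le_right _ _)
  push_cast at h1 h2
  have h3 := mul_le_mul_of_nonneg_left he (Nat.cast_nonneg (α := ℝ) c)
  exact ⟨h.trans (mul_le_mul_of_nonneg_left (by linarith) hJ),
    h.trans ((mul_le_mul_of_nonneg_left (by linarith) hJ).trans_eq (mul_comm _ _))⟩

theorem ew_sw6 {K : Type*} [CommRing K] [Algebra ℝ K] {X : Fin 3 → K} {ν : Seminorm ℝ K}
    {c : Cfg} {s : ℕ} {F : I3 → I3 → K} {e : K} {F' : I3 → I3 → W} {e' : W}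
    (hF : ∀ a b, c.EW X ν s (F a b) (F' a b)) (he : c.EW X ν s e e')
    (hs : ∀ a b, F a b = F b a) : c.EW X ν s (∑ a, ∑ b, F a b + 2 * e) (sw6 F' e') :=
  EW.congr ((((hF 0 0).add (hF 1 1)).add (hF 2 2)).add
    (((((hF 0 1).add (hF 0 2)).add (hF 1 2)).add he).smul 2)) (by
    simp only [Fin.sum_univ_three, hs 1 0, hs 2 0, hs 2 1]; push_cast; ring)

namespace Ar

variable {f : I4 → R} {h : Imm f}

/-- the situation at a point of a box -/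
structure Cx (x : Ar) (g : Bd) (X : Fin 3 → C3) (δ : I3 → Derivation ℝ C3 C3) (lam : ℝ≥0)
    (y : P3) (Φ : Fm.Fr h) (z : Fin 4 → Fn) : Prop where
  S : x.Set X (nu (evc y) δ lam 2) δ Φ.p
  L : x.Lo X (nu (evc y) δ lam 2) Φ z
  C : x.Loc X δ g.hs g.cs
  mem : ∀ i, (g.bl i : ℝ) ≤ 512 * y (sg i) ∧ 512 * y (sg i) ≤ g.bh i
  J : √(gram f (pr (Dic.up y))) =
    ww y ^ 2 * (2 ^ 27 / x.dq g.hs * (Φ.q * Fm.jD Φ.p (cf f)) y)

variable {x : Ar} {g : Bd} {X : Fin 3 → C3} {δ : I3 → Derivation ℝ C3 C3} {lam : ℝ≥0} {y : P3}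
  {Φ : Fm.Fr h} {z : Fin 4 → Fn} {n : Kn} {v : C3} {a : T} {w : W}

namespace Cx

variable (H : x.Cx g X δ lam y Φ z)
include H

theorem rg : g.Rg fun i => evc y (X i) := Bd.rg_of H.C.pos fun i => by
  have e := congrArg (fun u : C3 => u y) (H.C.xi i)
  simp only [xi_apply, C3.add_apply, C3.smul_apply, C3.algebraMap_apply] at e
  have m := H.mem i
  rw [e] at m
  constructor <;> simp only [evc_apply] <;> linarith [m.1, m.2]

theorem hi (E : x.c.ET X (nu (evc y) δ lam 2) x.s v a) : 2 ^ x.s * v y ≤ g.hiN x.c a :=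
  H.rg.hiN H.S.sg.ok H.S.sg.sem E

theorem lo (E : x.c.ET X (nu (evc y) δ lam 2) x.s v a) (h0 : 0 ≤ v y) :
    g.loN x.c a ≤ 2 ^ x.s * v y := H.rg.loN H.S.sg.ok H.S.sg.sem E h0

theorem pos (E : x.c.ET X (nu (evc y) δ lam 2) x.s v a) (ok : g.pos x.c a = true) : 0 ≤ v y :=
  H.rg.pos H.S.sg.ok H.S.sg.sem E ok

theorem pc (E : x.c.EW X (nu (evc y) δ lam 2) x.s v w) (ok : x.pc g (x.r0 w) = true) :
    1 / 100 ≤ v y := by
  have h1 : 2 ^ x.s < 100 * g.loN x.c (x.r0 w) := Nat.le_of_ble_eq_true ok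
  have h2 := H.rg.loP H.S.sg.ok H.S.sg.sem (H.S.r0 E) (by have := Nat.two_pow_pos x.s; omega)
  have h3 : ((2 ^ x.s : ℕ) : ℝ) ≤ (100 * g.loN x.c (x.r0 w) : ℕ) := Nat.cast_le.2 h1.le
  push_cast at h3
  exact le_of_mul_le_mul_left (a := 2 ^ x.s) (by rw [evc_apply] at h2; linarith) (by positivity)

theorem zero (s : ℕ) : x.c.EW X (nu (evc y) δ lam 2) s 0 (W.const 0) := by
  simpa using EW.nat (X := X) (ν := nu (evc y) δ lam 2) H.S.sg.ok s 0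

theorem dq : (0 : ℝ) < x.dq g.hs := by
  have p := H.C.pos
  exact Nat.cast_pos.2 (Nat.mul_pos (Int.natAbs_pos.2 H.C.neg.ne)
    (Nat.mul_pos (Nat.mul_pos (p 0) (p 1)) (p 2)))

theorem wb : g.wl ≤ 2 ^ 18 * ww y ∧ 2 ^ 18 * ww y ≤ g.wh := by
  have b := fun i => pow_le_pow_left₀ (Nat.cast_nonneg _) (H.mem i).1 2
  have c := fun i => pow_le_pow_left₀ ((Nat.cast_nonneg _).trans (H.mem i).1) (H.mem i).2 2
  have b0 : _ ≤ (512 * y 0) ^ 2 := b 0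
  have b1 : _ ≤ (512 * y 2) ^ 2 := b 1
  have b2 : _ ≤ (512 * y 1) ^ 2 := b 2
  have c0 : (512 * y 0) ^ 2 ≤ _ := c 0
  have c1 : (512 * y 2) ^ 2 ≤ _ := c 1
  have c2 : (512 * y 1) ^ 2 ≤ _ := c 2
  simp only [Bd.wl, Bd.wh, ww_apply]
  push_cast
  constructor <;> linarith

omit H in
theorem ff_eq : (∑ k, cf f k * cf f k) y = ∑ k, cf f k y ^ 2 := by simp [sq]

theorem fh : 2 ^ x.s * ∑ k, cf f k y ^ 2 ≤ x.fh g z := ff_eq (f := f) ▸ H.hi H.L.ffT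

theorem fl : x.fl g z ≤ 2 ^ x.s * ∑ k, cf f k y ^ 2 :=
  ff_eq (f := f) ▸ H.lo H.L.ffT (ff_eq (f := f) ▸ sum_nonneg fun _ _ => sq_nonneg _)

/-- bounds for the Gaussian factor -/
theorem el : x.el g z ≤ 2 ^ 64 * eG f (pr (Dic.up y)) := exl_le H.fh

theorem eh : 2 ^ 64 * eG f (pr (Dic.up y)) ≤ x.eh g z := le_exh H.fl

omit H in
theorem j_pos : 0 < (Φ.q * Fm.jD Φ.p (cf f)) y := mul_pos (Φ.pos y) (Φ.jD_pos y)

theorem jl : x.jl g z ≤ 2 ^ x.s * (Φ.q * Fm.jD Φ.p (cf f)) y := H.lo H.L.jjT j_pos.le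

theorem Jh : √(gram f (pr (Dic.up y))) * (2 ^ 9 * x.dq g.hs * 2 ^ x.s) ≤ g.wh ^ 2 * x.jh g z := by
  have d := H.dq
  have w := (one_le_ww y).trans' zero_le_one
  have a := mul_le_mul (pow_le_pow_left₀ (by positivity) H.wb.2 2) (H.hi H.L.jjT)
    (mul_pos (by positivity) j_pos).le (sq_nonneg _)
  refine le_of_eq_of_le ?_ a
  rw [H.J]
  field_simp

/-- bounds for the weight -/
theorem rh : ch (rho h) y * 2 ^ 64 ≤ x.roh g z := by
  have d := H.dq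
  have a := mul_le_mul H.Jh H.eh (mul_pos (by positivity) (Real.exp_pos _)).le (by positivity)
  have b := le_div_succ (g.wh ^ 2 * x.jh g z * x.eh g z) (d := 2 ^ 9 * x.dq g.hs * 2 ^ x.s)
    (by have := Nat.cast_pos.1 d; positivity)
  rw [ch_apply', rho_J]
  refine le_of_mul_le_mul_right ?_ (show (0 : ℝ) < 2 ^ 9 * x.dq g.hs * 2 ^ x.s by positivity)
  rw [← Ar.roh] at b
  push_cast at b
  linarith

theorem rl : x.rol g z * ww y ^ 2 ≤ ch (rho h) y * 2 ^ 64 := by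
  have d := H.dq
  have a := mul_le_mul H.jl H.el (Nat.cast_nonneg _) (mul_pos (by positivity) j_pos).le
  have b : (x.rol g z : ℝ) ≤ 2 ^ 27 / x.dq g.hs * (Φ.q * Fm.jD Φ.p (cf f)) y *
      (2 ^ 64 * eG f (pr (Dic.up y))) := by
    refine Nat.cast_div_le.trans ?_
    push_cast
    rw [div_le_iff₀ (by positivity)]
    refine (mul_assoc _ _ _).trans_le ((mul_le_mul_of_nonneg_left a (by positivity)).trans_eq ?_)
    field_simp
    ring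
  rw [ch_apply', rho_J, H.J]
  linarith [mul_le_mul_of_nonneg_right b (sq_nonneg (ww y))]

theorem jm {k : ℕ} (E : x.E2 X (nu (evc y) δ lam 2) v w) (ok : g.pos x.c (x.jm g z k w) = true) :
    ww y ^ 2 * v y ≤ √(gram f (pr (Dic.up y))) * (k / (10 ^ 6 * 2 ^ 64)) := by
  have d := H.dq
  have a := H.pos (H.S.rt ((H.S.sw H.L.jj _ _).sub E) rfl) ok
  rw [C3.sub_apply, C3.smul_apply, sub_nonneg, Int.ofNat_eq_natCast] at a
  refine (mul_le_mul_of_nonneg_left a (sq_nonneg _)).trans_eq ?_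
  rw [H.J]
  push_cast
  field_simp
  ring

theorem su {A : I4 → C3} {a : I4 → T} (E : ∀ k, x.E X (nu (evc y) δ lam 2) (A k) (a k)) :
    x.E2 X (nu (evc y) δ lam 2) (cf f 0 * A 0 + cf f 1 * (A 1 + A 2 + A 3)) (x.tq z a) :=
  (H.S.m (H.L.F 0) (E 0)).add (H.S.m (H.L.F 1)
    (H.S.en (H.S.r0 (((E 1).lift.add (E 2).lift).add (E 3).lift))))

/-- the tests for the embeddedness -/
theorem chk (ok : x.okE g z = true) :
    ∃ N : I4 → ℝ, Emb.Chk (fun j => cf f j y) N ∧ ∀ i, ∑ j, ch (Sph.E i (f j)) y * N j = 0 := by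
  simp only [okE, cb1, Bool.and_eq_true, Bool.or_eq_true] at ok
  obtain ⟨⟨⟨o1, o2⟩, o3⟩, o4⟩ := ok
  have p : (0 : ℝ) < 2 ^ x.s := by positivity
  have e : Emb.sq4 (fun j => cf f j y) = ∑ k, cf f k y ^ 2 := by rw [Fin.sum_univ_four]; rfl
  have tu := H.S.r (H.su H.L.F) rfl
  have ty := H.S.r (H.L.lm.up.sub ((H.su H.L.nn).smul 6)) rfl
  have tv := (H.S.m H.L.ff ty).add ((H.S.m tu H.L.lm).smul 6)
  have a1 := H.pos (H.S.rt ((((tv.smul (x.tA g z)).add (EN.sqr H.S.sg H.L.ff)).smul 64).add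
    (H.L.ff.up.smul (x.tA g z * x.tA g z))).neg rfl) o1
  have a2 := H.pos (H.S.r0 (H.L.ff.lift.add (tu.lift.smul 12))) o2
  have bm := fun o => H.pc ((H.L.F 3).lift.sub (H.L.F 1).lift) o
  have bp := fun o => H.pc ((H.L.F 3).lift.add (H.L.F 1).lift) o
  have fl := H.fl
  have fh := H.fh
  refine ⟨_, chk_of (A := x.tA g z) (Φ.nn_sq y) (Nat.cast_pos.2 (Nat.succ_pos _))
    (a1.trans_eq ?_) ?_ (a2.trans_eq ?_) ?_, Φ.nn_perp y⟩
  · simp only [Emb.tv, Emb.la, Emb.sq4, Fm.jl, Fin.sum_univ_four, C3.neg_apply, C3.add_apply,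
      C3.mul_apply, C3.sub_apply, C3.natCast_apply]
    push_cast
    ring
  · have b := ble_cast o3
    push_cast at b
    exact le_of_mul_le_mul_left (by rw [e]; linarith) p
  · simp only [Emb.sq4, Fin.sum_univ_four, C3.add_apply, C3.mul_apply, C3.natCast_apply]
    push_cast
    ring
  · refine o4.imp (fun o => ⟨⟨?_, bm o.1.2⟩, bp o.2⟩) fun o =>
      ⟨⟨H.pc (H.L.F 1).lift o.1.1, H.pc (H.L.F 3).lift o.1.2⟩, o.2.imp (fun o => ?_) bm⟩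
    · have b := ble_cast o.1.1
      push_cast at b
      exact le_of_mul_le_mul_left (by rw [e]; linarith) p
    · have b := ble_cast o
      push_cast at b
      exact le_of_mul_le_mul_left (by rw [e]; linarith) p

omit H in
theorem lam_sq : (dc h).lam (pr (Dic.up y)) ^ 2 =
    (Φ.q * Fm.jl Φ.p (cf f) * (Φ.q * Fm.jl Φ.p (cf f))) y := by
  rw [← ch_apply', Φ.ch_lam, C3.neg_apply, neg_sq, sq, ← C3.mul_apply]

omit H in
theorem mm_symm (C : Matrix I3 I3 ℝ) (a b : I3) : Dic.mm C a b = Dic.mm C b a := by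
  simp only [Dic.mm, mul_comm]

theorem s1 {k : ℕ} (ok : g.pos x.c (x.jm g z k (x.vt g z)) = true) :
    Lt h (pr (Dic.up y)) ≤ √(gram f (pr (Dic.up y))) * (k / (10 ^ 6 * 2 ^ 64)) := by
  have lp : ∀ k, x.E X _ (Dic.lp Φ.p (x.Cm g.hs) (cf f k)) (x.lp g z k) := fun k =>
    H.S.r (ew_sw6 (fun a b => H.S.m (H.C.mm H.S a b) (H.L.fs a b k))
      (H.S.d3 (H.C.et H.S) fun a => H.L.tt a k) fun a b => by rw [mm_symm, Φ.comm]) rfl
  have ln : x.E X _ _ (x.ln g z) := H.S.r (H.S.dot H.L.nn lp) rfl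
  have vt : x.E2 X _ _ (x.vt g z) := (H.S.dsq lp).sub (EN.sqr H.S.sg ln)
  refine le_of_eq_of_le ?_ (H.jm vt ok)
  rw [Lt_fr (H.C.hC H.S)]
  simp only [Φ.nu, Fin.sum_univ_four, C3.neg_apply, C3.add_apply, C3.mul_apply, C3.sub_apply]
  ring

theorem s2 {k : ℕ} (ok : g.pos x.c (x.jm g z k (x.c.sqr (x.tr g z))) = true) :
    gF f (pr (Dic.up y)) ≤ √(gram f (pr (Dic.up y))) * (k / (10 ^ 6 * 2 ^ 64)) := by
  have tr : x.E X _ _ (x.tr g z) := H.S.r (ew_sw6 (fun a b => H.S.m (H.C.mm H.S a b) (H.L.gg a b))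
    (H.zero _) fun a b => by
      rw [mm_symm, ← congrFun (congrFun (Fm.jG_symm Φ.p (cf f)) a) b]; rfl) rfl
  exact ((gF_le (H.C.hC H.S) y).trans_eq (by simp [sq])).trans (H.jm (EN.sqr H.S.sg tr) ok)

theorem s0 {k : ℕ} (ok : Nat.ble (x.dq g.hs * 10 ^ 6 * 2 ^ 73 * 2 ^ x.s)
    (g.wl ^ 2 * x.jl g z * k) = true) :
    1 ≤ √(gram f (pr (Dic.up y))) * (k / (10 ^ 6 * 2 ^ 64)) := by
  have d := H.dq
  have a := mul_le_mul_of_nonneg_right (mul_le_mul (pow_le_pow_left₀ (Nat.cast_nonneg _) H.wb.1 2)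
    H.jl (Nat.cast_nonneg _) (sq_nonneg _)) (Nat.cast_nonneg (α := ℝ) k)
  have b := ble_cast ok
  push_cast at b
  refine le_of_mul_le_mul_left (((mul_one _).trans_le (b.trans a)).trans_eq ?_) (by positivity)
  rw [H.J]
  field_simp
  ring

/-- the tests of order zero -/
theorem ptZ (ok : x.okZ g z n = true) : PtZ n.nw h (pr (Dic.up y)) := by
  simp only [okZ, Bool.and_eq_true] at ok
  obtain ⟨⟨⟨⟨⟨⟨⟨o1, o2⟩, o3⟩, o4⟩, o5⟩, o6⟩, o7⟩, o8⟩ := ok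
  have p : (0 : ℝ) < 2 ^ x.s := by positivity
  have el := H.el
  have J0 := Real.sqrt_nonneg (gram f (pr (Dic.up y)))
  have s0 := km_two el J0 (H.s0 o2)
  have s1 := km_two el J0 (H.s1 o3)
  have s2 := km_two el J0 (H.s2 o4)
  have ah := H.hi H.L.aaT
  have a0 := sq_nonneg ((wi h).vn (uc (dc h).A) (pr (Dic.up y)))
  have vh := (H.rg.both H.S.sg.ok H.S.sg.sem
    (H.S.rt ((H.L.aw.smul 8).sub (EN.sqr H.S.sg H.L.lm)) rfl)).2
  rw [evc_apply, C3.sub_apply, ← lam_sq, C3.mul_apply, C3.natCast_apply] at vh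
  rw [C3.mul_apply, C3.pow_apply, ← AA_fr] at ah vh
  have fh := H.fh
  have b1 := ble_cast o1
  have b5 := ble_cast o5
  have b6 := ble_cast o6
  have b7 := ble_cast o7
  have b8 := ble_cast o8
  have v1 := le_toNat (g.hi x.c (x.v2 z) + Int.ofNat (10 * 2 ^ x.s))
  rw [← Ar.vh, Int.ofNat_eq_natCast] at v1
  rw [← Ar.ah] at ah
  push_cast at b1 b5 b6 b7 b8 v1 vh
  refine ⟨(abs_le_of_sq_le_sq' (le_of_mul_le_mul_left ?_ p) (by simp only [Kn.nw]; positivity)).2,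
    s0.1, s1.1, s2.1, s0.2, s1.2, s2.2, le_of_mul_le_mul_left ?_ p, le_of_mul_le_mul_left ?_ p,
    le_of_mul_le_mul_left ?_ (pow_pos p 2), le_of_mul_le_mul_left ?_ p⟩ <;> simp only [Kn.nw]
  · linarith
  · exact fh.trans (by linarith)
  · linarith [mul_le_mul_of_nonneg_left el (mul_nonneg p.le (Nat.cast_nonneg n.x2))]
  · linarith [mul_le_mul_of_nonneg_left el (mul_nonneg (sq_nonneg (n.v1 : ℝ)) (sq_nonneg (2 ^ x.s))),
      pow_le_pow_left₀ (by positivity) (show 2 ^ x.s * (2 * (wi h).vn (uc (dc h).A)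
        (pr (Dic.up y)) ^ 2 + 1) ≤ 2 * x.ah g z + 2 ^ x.s by linarith) 2]
  · unfold Ar.v2 Ar.l2 at v1
    linarith [mul_le_mul_of_nonneg_left el (mul_nonneg p.le (Nat.cast_nonneg n.v2))]

theorem gd (p q r : ℤ) : 2 ^ x.s * ∑ a, ∑ c, ((s3 p q r a : ℤ) : ℝ) * (s3 p q r c : ℤ) *
    (Φ.q ^ 2 * Fm.jA Φ.p (cf f) a c) y ≤ x.gd g z p q r := by
  refine le_of_eq_of_le ?_ (H.hi (H.S.r0 (ew_sw6 (fun a b => EW.zs (H.L.gi a b).lift _)
    (H.zero _) fun a b => by rw [mul_comm (s3 p q r a), Fm.jA_symm])))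
  simp

variable {Y : T} {et L : ℕ}

theorem th (E : x.E X (nu (evc y) δ lam 2) v Y)
    (hR : 2 ^ 100 * nu (evc y) δ lam 2 (v ^ 3 * Fm.jR Φ.p (cf f)) ≤ et)
    (ok : Nat.blt ((2 ^ x.s + x.dfy z Y) ^ 3) (2 * (2 ^ x.s) ^ 3) = true) :
    2 ^ 100 * nu (evc y) δ lam 2 (ch (dc h).R) ≤ x.th z Y et := by
  have p : (0 : ℝ) < 2 ^ x.s := by positivity
  have o : (2 ^ x.s + x.dfy z Y) ^ 3 < 2 * (2 ^ x.s) ^ 3 := Nat.le_of_ble_eq_true ok
  have a := (H.S.r ((H.S.m E H.L.jj).sub (EW.nat H.S.sg.ok _ 1)) rfl).le H.S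
  rw [Nat.cast_one, ← Ar.dfy] at a
  have b := nu_resc H.S.sg.sem.mul (u := ch (dc h).R) ((le_div_iff₀' p).2 a)
  rw [Φ.resc] at b
  have c := le_div_succ (et * (2 ^ x.s) ^ 3) (Nat.sub_pos_of_lt o)
  rw [← Ar.th] at c
  refine le_of_mul_le_mul_right (le_trans ?_ c) (Nat.cast_pos.2 (Nat.sub_pos_of_lt o))
  rw [Nat.cast_sub o.le]
  push_cast
  refine le_of_eq_of_le ?_ (mul_le_mul_of_nonneg_right
    ((mul_le_mul_of_nonneg_left b (by positivity)).trans hR) (pow_pos p 3).le)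
  field_simp

theorem gr (hL : 1 ≤ (2 : ℝ) ^ L * lam) (u : R) :
    2 ^ x.s * (wi h).vn ((dc h).gr u) (pr (Dic.up y)) ^ 2 ≤
      x.gm g z * (2 ^ L / 2 * nu (evc y) δ lam 2 (ch u)) ^ 2 := by
  have p : (0 : ℝ) < 2 ^ x.s := by positivity
  have a := Φ.gr_le u y (s := fun i => δ i (ch u) y) (γ := x.gm g z / 2 ^ x.s)
    (b := fun i a => (s3 (s3 x.b00 x.b01 x.b02 a) (s3 0 x.b11 x.b12 a) (s3 0 0 x.b22 a) i : ℤ))
    (fun a => by fin_cases a <;> simp [H.S.p0, H.S.p1, H.S.p2, s3, Nat.beq, Fin.sum_univ_three])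
    fun i => (le_div_iff₀' p).2 (by
      fin_cases i
      exacts [(H.gd _ _ _).trans (Nat.cast_le.2 (Nat.le_max_left _ _)),
        (H.gd _ _ _).trans (Nat.cast_le.2 ((Nat.le_max_left _ _).trans (Nat.le_max_right _ _))),
        (H.gd _ _ _).trans (Nat.cast_le.2 ((Nat.le_max_right _ _).trans (Nat.le_max_right _ _)))])
  have b := nu_two_eq (evc y) δ lam (ch u)
  have a1 : 0 ≤ ∑ i, |δ i (ch u) y| := sum_nonneg fun _ _ => abs_nonneg _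
  have a2 : 0 ≤ ∑ p : I3 × I3, |δ p.1 (δ p.2 (ch u)) y| := sum_nonneg fun _ _ => abs_nonneg _
  simp only [evc_apply] at b
  have c : ∑ i, |δ i (ch u) y| ≤ 2 ^ L / 2 * nu (evc y) δ lam 2 (ch u) := by
    have c1 : 2 * lam * ∑ i, |δ i (ch u) y| ≤ nu (evc y) δ lam 2 (ch u) := by
      linarith [mul_nonneg (sq_nonneg (lam : ℝ)) a2, abs_nonneg (ch u y)]
    linarith [mul_le_mul_of_nonneg_left c1 (show (0 : ℝ) ≤ 2 ^ L by positivity),
      mul_le_mul_of_nonneg_right hL a1]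
  rw [div_mul_eq_mul_div, le_div_iff₀' p] at a
  exact a.trans (mul_le_mul_of_nonneg_left (pow_le_pow_left₀ a1 c 2) (Nat.cast_nonneg _))

/-- the tests for the residual -/
theorem ptR (E : x.E X (nu (evc y) δ lam 2) v Y)
    (hR : 2 ^ 100 * nu (evc y) δ lam 2 (v ^ 3 * Fm.jR Φ.p (cf f)) ≤ et)
    (hL : 1 ≤ (2 : ℝ) ^ L * lam) (hκ : Φ.Kap y (x.kp z / 2 ^ x.s))
    (hm : Φ.m2 y ≤ x.m2 z / 2 ^ x.s)
    (h1 : ∀ u, nr (fun a => Φ.p a u y) ≤ x.la L / 2 * nu (evc y) δ lam 2 u)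
    (h2 : ∀ u, nr (fun p : I3 × I3 => Φ.p p.1 (Φ.p p.2 u) y) ≤ x.la L ^ 2 * nu (evc y) δ lam 2 u)
    (ok : x.okD g z n Y et L = true) : PtR n.nw h (pr (Dic.up y)) := by
  simp only [okD, Bool.and_eq_true] at ok
  obtain ⟨⟨⟨⟨o1, o2⟩, o3⟩, o4⟩, o5⟩ := ok
  have p : (0 : ℝ) < 2 ^ x.s := by positivity
  have d := H.dq
  have th := H.th E hR o1
  have gr := H.gr hL (dc h).R
  have r2 := (hκ.s12 (dc h).R (h1 _) (h2 _) hm).2
  have r0 : |(dc h).R (pr (Dic.up y))| ≤ _ := abs_le_nu (evc y) δ lam 2 (ch (dc h).R)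
  have n0 := apply_nonneg (nu (evc y) δ lam 2) (ch (dc h).R)
  have rh : rho h (pr (Dic.up y)) * 2 ^ 64 ≤ _ := H.rh
  have b2 := ble_cast o2
  have b3 := ble_cast o3
  have b4 := ble_cast o4
  have b5 := ble_cast o5
  push_cast at b2 b3 b4 b5
  generalize nu (evc y) δ lam 2 (ch (dc h).R) = η at th gr r2 r0 n0
  have t2 := pow_le_pow_left₀ (by positivity) th 2
  have g2 : 2 ^ x.s * (wi h).vn ((dc h).gr (dc h).R) (pr (Dic.up y)) ^ 2 * 2 ^ 202 ≤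
      x.gm g z * (2 ^ L * x.th z Y et) ^ 2 := by
    linarith [mul_le_mul_of_nonneg_left t2
      (mul_nonneg (Nat.cast_nonneg (α := ℝ) (x.gm g z)) (sq_nonneg (2 ^ L)))]
  refine ⟨?_, le_of_mul_le_mul_left ?_ p, r2.trans (le_of_mul_le_mul_left ?_ (pow_pos p 4)), ?_⟩ <;>
    simp only [Kn.nw]
  · have a := sq_le_sq' (abs_le.1 r0).1 (abs_le.1 r0).2
    linarith [mul_le_mul rh (show 2 ^ 200 * (dc h).R (pr (Dic.up y)) ^ 2 ≤ x.th z Y et ^ 2 by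
      linarith) (by positivity) (Nat.cast_nonneg _)]
  · linarith [mul_le_mul rh g2 (by positivity) (Nat.cast_nonneg _)]
  · have e : (2 ^ x.s) ^ 4 * ((x.kp z / 2 ^ x.s) ^ 2 * (x.la L ^ 2 * η +
        2 * (x.m2 z / 2 ^ x.s) * (x.kp z / 2 ^ x.s * (x.la L / 2 * η)))) = η * (x.kp z ^ 2 *
        (x.la L ^ 2 * (2 ^ x.s) ^ 2 + x.m2 z * x.kp z * x.la L)) := by field_simp
    rw [e]
    linarith [mul_le_mul_of_nonneg_right th (show (0 : ℝ) ≤ x.kp z ^ 2 *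
      (x.la L ^ 2 * (2 ^ x.s) ^ 2 + x.m2 z * x.kp z * x.la L) by positivity)]
  · rw [rho_J, mul_right_comm]
    refine mul_le_mul_of_nonneg_right (le_of_mul_le_mul_left ?_ (mul_pos d (pow_pos p 2)))
      (Real.exp_pos _).le
    linarith [mul_le_mul H.Jh g2 (by positivity) (by positivity)]

/-- the tests on special boxes -/
theorem spec {K : Fin 3 → ℕ} (ok : x.okU g z n K = true) :
    (K = n.M1 → ∑ k, cf f k y ^ 2 ≤ (n.s / 10 ^ 6) ^ 2) ∧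
    (K = n.M2 → (n.t / 10 ^ 6) ^ 2 ≤ ∑ k, cf f k y ^ 2) ∧
    ((∀ a, n.lo a ≤ K a ∧ K a < n.hi a) →
      n.eL / 10 ^ 6 * ww y ^ 2 ≤ ch (rho h) y * ch (dc h).lam y ^ 2) := by
  simp only [okU, Bool.and_eq_true, Bool.or_eq_true, Bool.not_eq_true'] at ok
  obtain ⟨⟨o1, o2⟩, o3⟩ := ok
  have p : (0 : ℝ) < 2 ^ x.s := by positivity
  refine ⟨fun e => le_of_mul_le_mul_left ?_ p, fun e => le_of_mul_le_mul_left ?_ p,
    fun e => le_of_mul_le_mul_left ?_ p⟩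
  · have b := ble_cast (o1.resolve_left (by simp [e, eq3]))
    push_cast at b
    linarith [H.fh]
  · have b := ble_cast (o2.resolve_left (by simp [e, eq3]))
    push_cast at b
    linarith [H.fl]
  · have b := ble_cast (o3.resolve_left (by simp [e, in3, Nat.blt_eq]))
    have a := H.lo (H.S.rt (EN.sqr H.S.sg H.L.lm) rfl) (lam_sq (Φ := Φ) ▸ sq_nonneg _)
    rw [← lam_sq, ← ch_apply', ← Ar.l2] at a
    push_cast at b
    linarith [mul_le_mul H.rl a (Nat.cast_nonneg _) (mul_pos (rho_pos h _) (by positivity)).le,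
      mul_le_mul_of_nonneg_right b (sq_nonneg (ww y))]

end Cx

end Ar

end Pool.Agent.MP_48470b_gt.Ck
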