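import Pool.Agent.MP_48470b_gt.Ck.LowX
import Pool.Agent.MP_48470b_gt.Ck.Lo1
import Pool.Agent.MP_48470b_gt.Ck.Lo2
import Pool.Agent.MP_48470b_gt.Ck.Lo3

/-! The facts on one box from the two runs. -/

open Finset
open scoped NNReal

namespace Pool.Agent.MP_48470b_gt.Ck

open TT TT.Cfg Dic Pool.Agent.MP_48470b_gt.Top Pool.Agent.MP48470b.An Pool.Agent.MP_48470b_gt.Sph

/-- the parameters of the certificate -/
noncomputable def par (n : Kn) (e : Ke) (cw : ℕ → ℕ → ℕ → ℕ) : Par where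
  n := nb
  D := 512
  br := br
  cw := cw
  c := n.nw
  r := (4 : ℕ) / 16
  s := n.s / 10 ^ 6
  t := n.t / 10 ^ 6
  M₁ := n.M1
  M₂ := n.M2
  l k := e.k k / e.d k - 1 / 2
  η k := e.et k / 2 ^ 32
  lo o := o.elim n.lo e.lo
  hi o := o.elim n.hi e.hi
  e o := o.elim (n.eL / 10 ^ 6) fun k => e.el k / 2 ^ 64
  ε o := o.elim (4 / 5) ![5, 1, 3 / 100]

theorem grid : Gap.Grid nb 512 br := ⟨by decide, by decide, by decide, by decide⟩

/-- the parameter of the seminorm -/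
noncomputable def lamOf (L : ℕ) : ℝ≥0 := (2 ^ L)⁻¹

theorem lamOf_le {L M : ℕ} (h : L ≤ M) : (lamOf M : ℝ) * 2 ^ L ≤ 1 := by
  rw [lamOf, NNReal.coe_inv, inv_mul_le_iff₀ (by positivity), mul_one]
  exact pow_le_pow_right₀ one_le_two h

theorem le_lamOf (L : ℕ) : 1 ≤ (2 : ℝ) ^ L * lamOf L := by simp [lamOf]

namespace Ar

/-- what is known on a box before the runs: `x` and `x'` are the two runs, `F` the map, `φ` the
eigenfunctions and `v` the rescaling -/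
structure Pre (x x' : Ar) (z z' : Fin 4 → Fn) (u : Fin 3 → Fn) (K : Fin 3 → ℕ) (L L' LH : ℕ)
    (X : Fin 3 → C3) (δ : I3 → Derivation ℝ C3 C3) (B : Matrix I3 I3 ℝ) (F : I4 → C3)
    (φ : Fin 3 → C3) (v : C3) : Prop where
  loc : x.Loc X δ (bdK K).hs (bdK K).cs
  det : B.det = x.dq (bdK K).hs / 2 ^ 27
  lo : ∀ y, InB 512 br K y → ∀ lam : ℝ≥0, (lam : ℝ) * 2 ^ L ≤ 1 →
    x.Set X (nu (evc y) δ lam 2) δ (Fm.pb B) ∧
    (∀ m, x.Near X (nu (evc y) δ lam 2) δ (z m) (F m)) ∧ x.Near X (nu (evc y) δ lam 2) δ x.uy v ∧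
    ((lam : ℝ) * 2 ^ L' ≤ 1 → ∀ k, x.Near X (nu (evc y) δ lam 2) δ (u k) (φ k))
  hi : ∀ y, InB 512 br K y → ∀ lam : ℝ≥0, (lam : ℝ) * 2 ^ LH ≤ 1 →
    x'.Set X (nu (evc y) δ lam 2) δ (Fm.pb B) ∧
    (∀ m, x'.Near X (nu (evc y) δ lam 2) δ (z' m) (F m)) ∧
    x'.Near X (nu (evc y) δ lam 2) δ x'.uy v

variable {x x' : Ar} {z z' : Fin 4 → Fn} {u : Fin 3 → Fn} {K : Fin 3 → ℕ} {L L' LH et w : ℕ}
  {X : Fin 3 → C3} {δ : I3 → Derivation ℝ C3 C3} {B : Matrix I3 I3 ℝ} {f : I4 → R}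
  {φ : Fin 3 → R} {v : C3} {n : Kn} {e : Ke}

theorem Pre.imm {F : I4 → C3} {φ : Fin 3 → C3} (H : x.Pre x' z z' u K L L' LH X δ B F φ v)
    (ok : x.low (bdK K) z u n e K L LH et w = true) (y : P3) (hy : InB 512 br K y) :
    ∃ B, 0 < Fm.jD (Fm.pb B) F y := by
  simp only [low, Bool.and_eq_true] at ok
  obtain ⟨S, N, -⟩ := H.lo y hy _ (lamOf_le le_rfl)
  exact ⟨B, S.imm (S.geo N) ok.1.1.1.1.1.1.2⟩

theorem bdK_eq (K : Fin 3 → ℕ) (i : I3) :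
    (bdK K).bl i = br (K (sg i)) ∧ (bdK K).bh i = br (K (sg i) + 1) := by
  fin_cases i <;> exact ⟨rfl, rfl⟩

/-- **The facts on one box.** -/
theorem Pre.box (h : Imm f) (H : x.Pre x' z z' u K L L' LH X δ B (cf f) (fun k => ch (φ k)) v)
    (hK : Srt nb K) {cw : ℕ → ℕ → ℕ → ℕ}
    (ok : x.low (bdK K) z u n e K L LH et (cw (K 0) (K 1) (K 2)) = true)
    (ok' : x'.high z' et = true) : (par n e cw).BoxOK h φ K := by
  simp only [low, ok3, Bool.and_eq_true] at ok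
  obtain ⟨⟨⟨⟨⟨⟨⟨o1, o2⟩, o3⟩, ⟨⟨o4, o5⟩, o6⟩, o7⟩, o8⟩, p0⟩, p1⟩, p2⟩ := ok
  have hB : 0 < B.det := by
    have p := H.loc.pos
    have : 0 < x.dq (bdK K).hs := Nat.mul_pos (Int.natAbs_pos.2 H.loc.neg.ne)
      (Nat.mul_pos (Nat.mul_pos (p 0) (p 1)) (p 2))
    rw [H.det]; positivity
  have cx : ∀ y, InB 512 br K y → ∀ lam : ℝ≥0, (lam : ℝ) * 2 ^ L ≤ 1 →
      x.Cx (bdK K) X δ lam y (Fm.ofB h B hB) z := fun y hy lam hl => by
    obtain ⟨S, N, -⟩ := H.lo y hy lam hl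
    refine ⟨S, Set.lo (Φ := Fm.ofB h B hB) S (S.geo N) o2, H.loc, fun i => ?_, ?_⟩
    · rw [(bdK_eq K i).1, (bdK_eq K i).2]
      exact_mod_cast hy (sg i)
    · rw [J_fr hB, H.det, inv_div]; rfl
  have c0 := fun y hy => cx y hy _ (lamOf_le le_rfl)
  have pk : ∀ k, x.okF (bdK K) z u e K k = true := fun k => by
    fin_cases k
    exacts [p0, p1, p2]
  simp only [okF, Bool.and_eq_true, Bool.or_eq_true, Bool.not_eq_true'] at pk
  have c1 := fun y hy => cx y hy _ (lamOf_le (Nat.le_add_right L L'))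
  have nr := fun y hy => (H.lo y hy _ (lamOf_le (Nat.le_add_right L L'))).2.2.2
    (lamOf_le (Nat.le_add_left L' L))
  have dv : ∀ a : ℕ, ((a / 10 ^ 6 : ℕ) : ℝ) ≤ a / 10 ^ 6 := fun a =>
    Nat.cast_div_le.trans_eq (by push_cast; ring)
  refine ⟨fun y hy => ⟨(c0 y hy).L.ptA (c0 y hy).S (le_lamOf L) o3
      ((div_le_iff₀' (by positivity)).2 (c0 y hy).el) (dv _) (dv _) (dv _) (dv _), ?_,
      (c0 y hy).ptZ o5, (c0 y hy).chk o4⟩, fun m y hy => ((c0 y hy).spec o7).1 m,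
    fun m y hy => ((c0 y hy).spec o7).2.1 m,
    fun k y hy => okR_sound (c1 y hy).S (c1 y hy).L (nr y hy k) (c1 y hy).rh (pk k).1,
    fun k m y hy => okW_sound (c1 y hy).S (c1 y hy).rg (nr y hy k) (c1 y hy).rl
      ((pk k).2.resolve_left ?_), fun m y hy => ((c0 y hy).spec o7).2.2 m,
    okC_sound grid hK (fun i => (bdK_eq K i).1) (fun i => (bdK_eq K i).2) H.loc H.det
      (fun y hy => ⟨(c0 y hy).S, (c0 y hy).L⟩) o8⟩
  · have l := lamOf_le (Nat.le_of_ble_eq_true o1)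
    have c := cx y hy _ l
    obtain ⟨S, N, Y⟩ := H.hi y hy _ (lamOf_le le_rfl)
    have a := (S.resY (S.geo N) Y).le S
    have b := ble_cast ok'
    push_cast at b
    exact c.ptR (c.S.j (H.lo y hy _ l).2.2.1)
      (le_of_mul_le_mul_left (a := 2 ^ x'.s) (by rw [Fm.ofB_p]; linarith) (by positivity))
      (le_lamOf LH) (c.L.kap c.S) (c.L.m2 c.S)
      (c.S.nr1 (φ := evc y) (le_lamOf LH)) (c.S.nr2 (φ := evc y) (le_lamOf LH)) o6
  · have m : ∀ a, e.lo k a ≤ K a ∧ K a < e.hi k a := m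
    simp [m, in3, Nat.blt_eq]

end Ar

end Pool.Agent.MP_48470b_gt.Ck
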