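import Pool.Agent.MP_48470b_gt.Ck.TabD
import Pool.Agent.MP_48470b_gt.Ms.Ld
import Pool.Agent.MP_48470b_gt.Top.Fin

/-! The data of the two runs on one box are valid. -/

open Finset
open scoped NNReal

noncomputable section

namespace Pool.Agent.MP_48470b_gt.Ck

open TT Dic Sph Pool.Agent.MP_48470b_gt.Top Pool.Agent.MP48470b.An
open TT.Cfg hiding sg
open Bl (Bx O3 Dat FaceB ProjB Gd nx oc ta Mj tb ix en nw Wr)
open Ar (sg)

/-- a shifted table -/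
def bt (N t : ℕ) (J : Wr) : ℚ := en N (t + ix J) / 16

theorem bt_cons (N t : ℕ) (a : Fin 3) : (fun J => bt N t (sg a :: J)) = bt N (pw5 a + t) :=
  funext fun J => by
    rw [bt, bt, ix, show 5 ^ (sg a).val = pw5 a by fin_cases a <;> rfl, add_left_comm, add_assoc]

theorem tb_bt (N : ℕ) : tb N = bt N 0 := funext fun J => by rw [Bl.tb_en, bt, zero_add]

theorem nw_bt (N : ℕ) (h : Fin 3 → ℕ) (L t : ℕ) :
    nw (fun i => h i / 2 ^ (9 + L)) sg 2 (bt N t) = nwN N h L t / 2 ^ (22 + (L + L)) := by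
  simp only [nw, bt, ix, nwN, nw1, nw2, Nat.add_eq, Nat.mul_eq, Nat.shiftLeft_eq',
    Nat.shiftLeft_eq, add_zero, show 5 ^ (sg 0).val = 1 from rfl,
    show 5 ^ (sg 1).val = 25 from rfl, show 5 ^ (sg 2).val = 5 from rfl]
  push_cast
  simp only [pow_add]
  field_simp
  ring_nf

variable {K : Bx} {y : P3} {lam : ℝ≥0} {L : ℕ}

theorem hs_eq (K : Bx) (a : Fin 3) : hsK (K 0) (K 1) (K 2) a = HH (K (sg a)) := by
  fin_cases a <;> rfl

theorem dl_apply (K : Bx) (i : I3) (u : C3) :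
    dl K i u = (HH (K (sg i)) / 512 : ℝ) • pd (sg i) u := rfl

theorem er_ge (hl : (lam : ℝ) * 2 ^ L ≤ 1) {N E t : ℕ} {u : C3}
    (h : Mj y 2 u (E / 2 ^ 100) (bt N t)) (P m k : ℕ) :
    nu (evc y) (dl K) lam 2 ((2 ^ P * (m / 2 ^ k) : ℝ) • u) ≤
      er N (hsK (K 0) (K 1) (K 2)) L E P m t (122 + k) := by
  have a := h.nu (dl_apply K) (lam := lam)
    (t := fun i => hsK (K 0) (K 1) (K 2) i / 2 ^ (9 + L)) fun i => by
      rw [hs_eq, abs_of_nonneg (by positivity)]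
      push_cast
      rw [le_div_iff₀ (by positivity), pow_add]
      linarith [mul_le_mul_of_nonneg_right hl (Nat.cast_nonneg (α := ℝ) (HH (K (sg i))))]
  rw [nw_bt] at a
  rw [map_smul_eq_mul, Real.norm_of_nonneg (by positivity)]
  refine TT.Cfg.le_shr _ _ ((mul_le_mul_of_nonneg_right (mul_le_mul_of_nonneg_left a
    (by positivity)) (by positivity)).trans_eq ?_)
  simp only [Nat.add_eq, Nat.mul_eq, Nat.shiftLeft_eq', Nat.shiftLeft_eq]
  push_cast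
  simp only [pow_add]
  field_simp

theorem dl_XX (K : Bx) (i j : I3) : dl K i (XX K j) = if j = i then 1 else 0 := by
  have := (Nat.cast_pos (α := ℝ).2 (HH_pos (K (sg i)))).ne'
  rw [dl_apply, XX, map_sub, Derivation.map_smul, Derivation.map_algebraMap, sub_zero, pd_xi]
  split_ifs with a b b
  · rw [b, smul_smul, show (_ * _ : ℝ) = 1 by field_simp, one_smul]
  · exact absurd (by revert a; fin_cases i <;> fin_cases j <;> decide) b
  · exact absurd (by rw [b]) a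
  · simp

theorem near_fn {x : Ar} {pp : I3 → Derivation ℝ C3 C3}
    (S : x.Set (XX K) (nu (evc y) (dl K) lam 2) (dl K) pp) (hw : x.c.w = 136) (hu : 86 ≤ x.uL)
    {r : Rc} (ok : r.ok = true) (hs : x.s ≤ r.P) {N E f : ℕ} (hf : f < 4)
    (hl : (lam : ℝ) * 2 ^ L ≤ 1) {v : C3} (h : Mj y 4 (v - r.fn f (XX K)) (E / 2 ^ 100) (tb N))
    (o : x.ok (fnOf x.cL x.s r N (hsK (K 0) (K 1) (K 2)) L E f) = true) :
    x.Near (XX K) (nu (evc y) (dl K) lam 2) (dl K)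
      (fnOf x.cL x.s r N (hsK (K 0) (K 1) (K 2)) L E f) v := by
  simp only [Rc.ok, Bool.and_eq_true, decide_eq_true_eq] at ok
  obtain ⟨⟨o1, o2⟩, o3⟩ := ok
  have H : (r.cg x.c.gp x.c.gq).Sg (XX K) (nu (evc y) (dl K) lam 2) :=
    ⟨⟨o3.1, o3.2.1, o3.2.2.1, o3.2.2.2.1, o3.2.2.2.2.1, S.sg.ok.2.2.2.2.2⟩, S.sg.sem, S.sg.le⟩
  have hD : ∀ i < r.E0, ∀ j < r.E1, ∀ k < r.E2, (r.cg x.c.gp x.c.gq).ldc (r.ld f)
      (i * (r.cg x.c.gp x.c.gq).S + j * r.E2 + k) = r.b.cf 17 f i j k := fun i hi j hj k hk =>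
    Ms.ld_ldc (c := r.cE) (by decide) rfl le_rfl o3.u_lt.le r.b hf hi hj hk
  have hz : ∀ i < x.c.B0, ∀ j < x.c.B1, ∀ k < x.c.B2, ¬ (i < r.E0 ∧ j < r.E1 ∧ k < r.E2) →
      r.b.cf 17 f i j k = 0 := fun i _ j _ k _ => Ms.Box.cf_zero o1 o2 f
  have e : (2 : ℝ) ^ (r.P - x.s + x.s) • v - x.cL.pol (XX K) (x.cL.mkT (Ms.ld x.cL r.b 17 f) 0) =
      (2 : ℝ) ^ r.P • (v - r.fn f (XX K)) + (tp (r.b.cf 17 f) r.E0 r.E1 r.E2 (XX K) -
        tp (r.b.cf 17 f) x.c.B0 x.c.B1 x.c.B2 (XX K)) := by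
    rw [Nat.sub_add_cancel hs, Ms.pol_ld (e := 17) S.okL (by decide) hw hu r.b hf, Rc.fn, Rc.ld,
      Ms.ev_ld (c := r.cE) (by decide) rfl le_rfl o3.u_lt.le r.b hf, smul_sub,
      smul_inv_smul₀ (by positivity)]
    exact (sub_add_sub_cancel _ _ _).symm
  rw [tb_bt] at h
  generalize v - r.fn f (XX K) = w at h e
  refine ⟨o, ?_, fun i => ?_, fun i j => ?_⟩ <;> simp only [fnOf, Ar.p, Nat.sub_eq, Nat.add_eq] <;>
    simp only [e, map_add, Nat.cast_add] <;> refine (map_add_le_add _ _ _).trans (add_le_add ?_ ?_)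
  · simpa [er0] using er_ge (K := K) hl (h.le_ord (by decide)) r.P 1 0
  · exact H.rs0 hD hz
  · have a := er_ge (K := K) hl (bt_cons N 0 i ▸ (h.pd (sg i)).pred) r.P (HH (K (sg i))) 9
    rw [Derivation.map_smul, dl_apply, smul_smul, er1, hs_eq]
    exact (congrArg (fun c : ℝ => nu _ _ _ _ (c • _)) (by norm_num)).trans_le a
  · exact H.rs1 hD hz S.dX i
  · have a := er_ge (K := K) hl (bt_cons N _ j ▸ (bt_cons N 0 i ▸ h.pd (sg i)).pd (sg j)) r.P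
      (HH (K (sg i)) * HH (K (sg j))) 18
    rw [Derivation.map_smul, Derivation.map_smul, dl_apply, dl_apply, Derivation.map_smul,
      smul_smul, smul_smul, er2, hs_eq, hs_eq]
    exact (congrArg (fun c : ℝ => nu _ _ _ _ (c • _)) (by push_cast; ring)).trans_le a
  · exact H.rs2 hD hz S.dX i j

/-- the frame in the coordinates -/
def Bm (p : Pm) (K : Bx) : Matrix I3 I3 ℝ :=
  !![p.b00 * (HH (K 0) / 512), p.b01 * (HH (K 0) / 512), p.b02 * (HH (K 0) / 512);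
    0, 0, p.b22 * (HH (K 1) / 512); 0, p.b11 * (HH (K 2) / 512), p.b12 * (HH (K 2) / 512)]

theorem Rn.set (n : Rn) (p : Pm) (hK : Srt nb K) (hy : InB 512 br K y)
    (ok : n.okS (K 0) (K 1) (K 2) = true) (hl : (lam : ℝ) * 2 ^ n.L ≤ 1) :
    (n.ar (K 0) (K 1) (K 2) p).Set (XX K) (nu (evc y) (dl K) lam 2) (dl K) (Fm.pb (Bm p K)) := by
  simp only [Rn.okS, Bool.and_eq_true, decide_eq_true_eq] at ok
  obtain ⟨⟨o1, o2⟩, -⟩ := ok
  have le : ∀ i, nu (evc y) (dl K) lam 2 (XX K i) * (n.cf (K 0) (K 1) (K 2)).gq ≤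
      (n.cf (K 0) (K 1) (K 2)).gp := fun i => by
    have p0 := Nat.cast_pos (α := ℝ).2 (HH_pos (K (sg i)))
    have m : HH (K (sg i)) ≤ hmK (K 0) (K 1) (K 2) := by
      simp only [hmK, mx_eq]
      fin_cases i <;> simp [sg]
    have g := (by decide : ∀ k < nb, ce k + HH k = br (k + 1) + 1 ∧ ce k + 1 ≤ br k + HH k) _
      (hK.lt (sg i))
    have g1 := congrArg (Nat.cast (R := ℝ)) g.1
    have g2 := (Nat.cast_le (α := ℝ)).2 g.2
    have b := hy (sg i)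
    push_cast at g1 g2 b
    have a : |XX K i y| * HH (K (sg i)) ≤ HH (K (sg i)) - 1 := by
      rw [← abs_of_pos p0, ← abs_mul, abs_of_pos p0, show XX K i y * HH (K (sg i)) =
        512 * y (sg i) - ce (K (sg i)) by simp [XX]; field_simp]
      exact abs_le.2 ⟨by linarith, by linarith⟩
    rw [nu_lin (evc y) (dl K) lam (c := fun a => if i = a then 1 else 0) fun a => by
      rw [dl_XX]; split_ifs <;> simp]
    simp only [Rn.cf, Nat.add_eq, Nat.mul_eq, Nat.shiftLeft_eq', Nat.shiftLeft_eq, apply_ite abs,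
      abs_one, abs_zero, sum_ite_eq, mem_univ, if_true, evc_apply, Nat.pred_eq_sub_one]
    have m1 := (HH_pos _).trans_le m
    push_cast [Nat.cast_sub m1]
    have m2 := (Nat.cast_le (α := ℝ)).2 m
    generalize (hmK (K 0) (K 1) (K 2) : ℝ) = M at *
    have c : |XX K i y| * M ≤ M - 1 := by
      have : |XX K i y| ≤ 1 := le_of_mul_le_mul_right (by linarith) p0
      nlinarith
    nlinarith [mul_le_mul_of_nonneg_right c (show (0 : ℝ) ≤ 2 ^ n.L by positivity),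
      mul_le_mul_of_nonneg_right hl (p0.le.trans m2)]
  refine ⟨⟨o1, ⟨nu_mul _ _ _ 2, (nu_one _ _ _ 2).le, fun i => le_of_mul_le_mul_right
    ((le i).trans ?_) (Nat.cast_pos.2 o1.2.2.2.2.2.1)⟩, le⟩, o2, dl_XX K, fun i j u => ?_,
    fun u => ?_, fun u => ?_, fun u => ?_⟩
  · rw [one_mul]
    exact Nat.cast_le.2 o1.2.2.2.2.2.2
  · simp only [dl_apply, Derivation.map_smul, pd_comm (sg i)]
    exact smul_comm _ _ _
  all_goals simp [Fm.pb_apply, Fin.sum_univ_three, Bm, dl_apply, sg, Rn.ar, smul_smul,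
    add_right_comm]

theorem tbK_eq (K : Bx) : tbK (K 0) (K 1) (K 2) = Bl.cK nb br K := by rw [tbK, Bl.cK]

theorem s3_eq (K : Bx) : s3 (K 0) (K 1) (K 2) = K := funext fun a => by fin_cases a <;> rfl

namespace Tab

theorem up_le {a b : ℕ} (h : a ≤ b) : up a ≤ up b :=
  (Nat.shiftLeft_eq a 26).trans_le ((Nat.mul_le_mul_right _ h).trans_eq (Nat.shiftLeft_eq b 26).symm)

variable {T : Tab} (G : T.Glue) (hK : Srt nb K)
include G hK

theorem Glue.ef {M : Bx} {a : Fin 3} (h1 : Srt nb M) (h2 : Srt nb (nx M a))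
    (h3 : ∀ i, M i ≤ K i + 1 ∧ K i ≤ M i + 1) (h4 : M a ≤ K a) :
    T.ef (M 0) (M 1) (M 2) a ≤ T.ep (K 0) (K 1) (K 2) := by
  have l : ∀ i, M i + 1 - K i < 3 ∧ Nat.pred (Nat.add (K i) (M i + 1 - K i)) = M i := fun i => by
    have := h3 i
    rw [Nat.pred_eq_sub_one, Nat.add_eq]
    omega
  have s : ∀ M, Srt nb M → srtB (M 0) (M 1) (M 2) = true := fun M h => by
    simpa [srtB, Nat.blt_eq, and_assoc, Srt] using h
  have b := Sy.all_iff (Sy.all_iff (Sy.all_iff (G.nbr K hK) (l 0).1) (l 1).1) (l 2).1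
  rw [(l 0).2, (l 1).2, (l 2).2, nb1, s M h1, cond_true] at b
  simp only [Bool.and_eq_true] at b
  have c : ∀ {p q r : Bool}, cond (p && q) r true = true → p = true → q = true → r = true := by
    decide
  have t := s _ h2
  have u := Nat.ble_eq_true_of_le h4
  refine Nat.le_of_ble_eq_true ?_
  fin_cases a
  exacts [c b.1.1 t u, c b.1.2 t u, c b.2 t u]

theorem Glue.jet_f (hy : InB 512 br K y) (m : Fin 4) :
    Mj y 4 (cf T.f m - (T.dat (K 0) (K 1) (K 2)).fn m (XX K)) (T.ep (K 0) (K 1) (K 2) / 2 ^ 100)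
      (tb (tbK (K 0) (K 1) (K 2))) := by
  have a := gd.jet_v G.dat (by positivity) hK (fun M a h1 h2 h3 h4 => (G.face M a h1 h2).mono
    (by gcongr; exact G.ef hK h1 h2 h3 h4)) (G.proj K hK) hy m
  rwa [Pf, show (oc m).elim 3 Fin.val = m by fin_cases m <;> rfl, ← tbK_eq] at a

theorem Glue.jet_φ (hy : InB 512 br K y) (m : Fin 3) :
    Mj y 4 (ch (T.φ m) - (T.phi (K 0) (K 1) (K 2)).fn m (XX K))
      (up (T.ep (K 0) (K 1) (K 2)) / 2 ^ 100) (tb (tbK (K 0) (K 1) (K 2))) :=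
  tbK_eq K ▸ gd.jet_s (G.datp m) (by positivity) hK (fun M a h1 h2 h3 h4 => (G.facep m M a h1 h2).mono
    (by gcongr; exact up_le (G.ef hK h1 h2 h3 h4))) (G.projp m K hK) hy

theorem Glue.run {p : Pm} {n : Rn} (hy : InB 512 br K y) (o1 : (T.dat (K 0) (K 1) (K 2)).ok = true)
    (o2 : p.y.ok = true) (ok : n.okz (K 0) (K 1) (K 2) p (T.dat (K 0) (K 1) (K 2))
      (T.ep (K 0) (K 1) (K 2)) = true) (hl : (lam : ℝ) * 2 ^ n.L ≤ 1) :
    (n.ar (K 0) (K 1) (K 2) p).Set (XX K) (nu (evc y) (dl K) lam 2) (dl K) (Fm.pb (Bm p K)) ∧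
    (∀ m, (n.ar (K 0) (K 1) (K 2) p).Near (XX K) (nu (evc y) (dl K) lam 2) (dl K)
      (n.z (K 0) (K 1) (K 2) (T.dat (K 0) (K 1) (K 2)) (T.ep (K 0) (K 1) (K 2)) m) (cf T.f m)) ∧
    (n.ar (K 0) (K 1) (K 2) p).Near (XX K) (nu (evc y) (dl K) lam 2) (dl K)
      (n.ar (K 0) (K 1) (K 2) p).uy (p.y.fn 0 (XX K)) := by
  simp only [Rn.okz, Ar.okz, Bool.and_eq_true, Nat.ble_eq] at ok
  obtain ⟨⟨⟨⟨a, b⟩, c⟩, ⟨⟨d0, d1⟩, d2⟩, d3⟩, e⟩ := ok
  have S := n.set p hK hy a hl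
  have u : 86 ≤ n.uL := Nat.le_of_ble_eq_true (Bool.and_eq_true_iff.1 a).2
  refine ⟨S, fun m => near_fn S rfl u o1 b m.2 hl (G.jet_f hK hy m) ?_,
    near_fn S rfl u o2 c (by decide) hl (fun J _ => by simp) e⟩
  fin_cases m
  exacts [d0, d1, d2, d3]

/-- **The two runs on a box.** -/
theorem Glue.runs {p : Pm} (ok : T.chkB p (K 0) (K 1) (K 2) = true) :
    Runs T.f T.φ T.ke (T.cw (K 0) (K 1) (K 2)) K := by
  simp only [chkB, Pm.box, Pm.pre, Pm.oku, Pm.low, s3_eq, Bool.and_eq_true, Nat.ble_eq] at ok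
  obtain ⟨⟨⟨⟨⟨⟨⟨⟨o1, o2⟩, o3⟩, o4⟩, o5⟩, o6⟩, ⟨⟨a, b0⟩, b1⟩, b2⟩, hi⟩, lo⟩ := ok
  have e : ∀ i, (bdK K).hs i = HH (K (sg i)) ∧ (bdK K).cs i = ce (K (sg i)) := fun i => by
    fin_cases i <;> exact ⟨rfl, rfl⟩
  have L : (p.xl (K 0) (K 1) (K 2)).Loc (XX K) (dl K) (bdK K).hs (bdK K).cs := by
    refine ⟨fun i => HH_pos _, ?_, fun i => ?_, fun i u => (e i).1 ▸ rfl⟩
    · have : 0 < (-(p.xl (K 0) (K 1) (K 2)).db).toNat := Nat.blt_eq ▸ o4
      omega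
    · have := (Nat.cast_pos (α := ℝ).2 (HH_pos (K (sg i)))).ne'
      rw [(e i).1, (e i).2]
      ext z
      simp [XX]
      field_simp
      ring
  refine ⟨_, _, _, _, _, _, p.Lp, _, _, XX K, dl K, Bm p K, p.y.fn 0 (XX K),
    ⟨L, ?_, fun y hy lam hl => ?_, fun y hy lam hl => G.run hK hy o1 o3 o5 hl⟩, lo, hi⟩
  · rw [L.dq, (e 0).1, (e 1).1, (e 2).1]
    simp [Bm, Matrix.det_fin_three, sg, Pm.xl, Rn.ar]
    ring
  · obtain ⟨S, c, d⟩ := G.run hK hy o1 o3 o6 hl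
    refine ⟨S, c, d, fun hp m => near_fn S rfl ?_ o2 a (m.2.trans (by decide)) hp
      (G.jet_φ hK hy m) ?_⟩
    · simp only [Rn.okz, Rn.okS, Bool.and_eq_true, Nat.ble_eq] at o6
      exact o6.1.1.1.1.2
    · fin_cases m
      exacts [b0, b1, b2]

end Tab

/-- **The theorem from the tables.** -/
theorem Tab.final (T : Tab) (G : T.Glue) (ok : T.ke.ok = true)
    (hB : ∀ i j k, i ≤ j → j ≤ k → k < nb → ∃ p, T.chkB p i j k = true)
    (cnt : ∀ bb vv, (∀ i j k, i ≤ j → j ≤ k → k < nb →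
      Gap.CellOK 512 br bb vv (T.cw i j k) i j k) → Gap.Count bb vv) : ¬ Geo.Uniq :=
  final_of (gd.eqv G.dat) (fun k => gd.inv (G.datp k)) ok
    (fun _ hK => (hB _ _ _ hK.1 hK.2.1 hK.2.2).elim fun _ => G.runs hK) cnt

end Pool.Agent.MP_48470b_gt.Ck
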