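import Pool.Agent.MP_48470b_gt.Ck.TabX
import Pool.Agent.MP_48470b_gt.TT.RsX
import Pool.Agent.MP_48470b_gt.Bl.FX

/-! Executable definitions: the data of the two runs on one box. -/

noncomputable section

namespace Pool.Agent.MP_48470b_gt.Ck

open TT

/-- one run: sizes, scale, widths, parameter `2 ^ -L` of the seminorm -/
structure Rn where
  B0 : Nat
  B1 : Nat
  B2 : Nat
  s : Nat
  u : Nat
  uL : Nat
  L : Nat

/-- private parameters of a box: the two runs, frame, record of the rescaling, parameter of the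
seminorm for the eigenfunctions, bound for the rescaled residual -/
structure Pm where
  h : Rn
  l : Rn
  b00 : Int
  b01 : Int
  b02 : Int
  b11 : Int
  b12 : Int
  b22 : Int
  y : Rc
  Lp : Nat
  et : Nat

/-- position of a letter in a table of the blend -/
def pw5 (i : Fin 3) : Nat := s3 1 25 5 i

section
variable (N : Nat) (h : Fin 3 → Nat) (L : Nat)
def nw1 (t : Nat) : Nat := Nat.add (Nat.add (Nat.mul (h 0) (Bl.en N (Nat.add 1 t)))
  (Nat.mul (h 1) (Bl.en N (Nat.add 25 t)))) (Nat.mul (h 2) (Bl.en N (Nat.add 5 t)))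
def nw2 (t : Nat) : Nat := Nat.add (Nat.add (Nat.mul (h 0) (nw1 N h (Nat.add 1 t)))
  (Nat.mul (h 1) (nw1 N h (Nat.add 25 t)))) (Nat.mul (h 2) (nw1 N h (Nat.add 5 t)))
/-- the seminorm of a table -/
def nwN (t : Nat) : Nat := Nat.add (Nat.add
  (Nat.shiftLeft (Bl.en N t) (Nat.add 18 (Nat.add L L))) (Nat.shiftLeft (nw1 N h t) (Nat.add 10 L)))
  (nw2 N h t)
variable (E P : Nat)
/-- error of the blend -/
def er (m t k : Nat) : Nat := Nat.succ (Nat.shiftRight
  (Nat.shiftLeft (Nat.mul (Nat.mul E m) (nwN N h L t)) P) (Nat.add k (Nat.add L L)))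
def er0 : Nat := er N h L E P 1 0 122
def er1 (i : Fin 3) : Nat := er N h L E P (h i) (pw5 i) 131
def er2 (i j : Fin 3) : Nat := er N h L E P (Nat.mul (h i) (h j)) (Nat.add (pw5 j) (pw5 i)) 140
end

/-- the component `f` of a record in the layout `c` with the scale `s` -/
def fnOf (c : Cfg) (s : Nat) (r : Rc) (N : Nat) (h : Fin 3 → Nat) (L E f : Nat) : Fn :=
  ⟨Ms.ld c r.b 17 f, Nat.sub r.P s,
    Nat.add (er0 N h L E r.P) ((r.cg c.gp c.gq).rs0 c.B0 c.B1 c.B2 (r.ld f)),
    fun i => Nat.add (er1 N h L E r.P i) ((r.cg c.gp c.gq).rs1 c.B0 c.B1 c.B2 (r.ld f) i),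
    fun i j => Nat.add (er2 N h L E r.P i j) ((r.cg c.gp c.gq).rs2 c.B0 c.B1 c.B2 (r.ld f) i j)⟩

/-- radii in the order of the variables -/
def hsK (i j k : Nat) : Fin 3 → Nat := (bdK (s3 i j k)).hs
def hmK (i j k : Nat) : Nat := mx (HH i) (mx (HH k) (HH j))
/-- the table of the blend -/
def tbK (i j k : Nat) : Nat := Bl.cF nb i j k (br (Nat.succ i)) (br (Nat.succ j))

namespace Rn

variable (n : Rn) (i j k : Nat)

def cf : Cfg := ⟨n.B0, n.B1, n.B2, 136, n.u, lg3 n.B0 n.B1 n.B2,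
  Nat.add (Nat.shiftLeft (Nat.pred (hmK i j k)) n.L) (Nat.mul 2 (hmK i j k)),
  Nat.shiftLeft (hmK i j k) n.L⟩
def cL : Cfg := wu (n.cf i j k) n.uL
def fn (r : Rc) (L E f : Nat) : Fn := fnOf (n.cL i j k) n.s r (tbK i j k) (hsK i j k) L E f
def ar (p : Pm) : Ar := ⟨n.cf i j k, n.uL, n.s, p.b00, p.b01, p.b02, p.b11, p.b12, p.b22,
  n.fn i j k p.y n.L 0 0⟩
/-- the four components of the map -/
def z (r : Rc) (E : Nat) (m : Fin 4) : Fn := n.fn i j k r n.L E m.1
/-- admissible parameters -/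
def okS : Bool := decide (n.cf i j k).Ok && decide (n.cL i j k).Ok && Nat.ble 86 n.uL
def okz (p : Pm) (r : Rc) (E : Nat) : Bool := n.okS i j k && Nat.ble n.s r.P &&
  Nat.ble n.s p.y.P && (n.ar i j k p).okz (n.z i j k r E) && (n.ar i j k p).ok (n.ar i j k p).uy

end Rn

namespace Pm

variable (p : Pm) (i j k : Nat) (r q : Rc) (E : Nat)

def xh : Ar := p.h.ar i j k p
def xl : Ar := p.l.ar i j k p
def zh : Fin 4 → Fn := p.h.z i j k r E
def zl : Fin 4 → Fn := p.l.z i j k r E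
/-- the eigenfunctions -/
def ul (m : Fin 3) : Fn := p.l.fn i j k q p.Lp (Tab.up E) m.1
def oku : Bool := Nat.ble p.l.s q.P && (p.xl i j k).ok (p.ul i j k q E 0) &&
  (p.xl i j k).ok (p.ul i j k q E 1) && (p.xl i j k).ok (p.ul i j k q E 2)
def neg : Bool := Nat.blt 0 (Int.toNat (Int.neg (p.xl i j k).db))
/-- the data are admissible -/
def pre : Bool := r.ok && q.ok && p.y.ok && p.neg i j k && p.h.okz i j k p r E &&
  p.l.okz i j k p r E && p.oku i j k q E
/-- the smallest admissible value of `et` -/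
def etm : Nat := Nat.succ (Nat.shiftRight (Nat.shiftLeft
  (mag ((p.xh i j k).resY (p.zh i j k r E) (p.xh i j k).uy)) 100) p.h.s)
def high : Bool := (p.xh i j k).high (p.zh i j k r E) p.et
def low (n : Kn) (e : Ke) (w : Nat) : Bool := (p.xl i j k).low (bdK (s3 i j k)) (p.zl i j k r E)
  (p.ul i j k q E) n e (s3 i j k) p.l.L p.h.L p.et w
/-- all tests on a box -/
def box (n : Kn) (e : Ke) (w : Nat) : Bool :=
  p.pre i j k r q E && p.high i j k r E && p.low i j k r q E n e w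

end Pm

/-- all tests on a box -/
def Tab.chkB (T : Tab) (p : Pm) (i j k : Nat) : Bool :=
  p.box i j k (T.dat i j k) (T.phi i j k) (T.ep i j k) kn0 T.ke (T.cw i j k)

end Pool.Agent.MP_48470b_gt.Ck
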