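import Pool.Agent.MP_48470b_gt.Ck.FaceX
import Pool.Agent.MP_48470b_gt.Pj.X

/-! Executable definitions: the tests on the faces of a box. -/

noncomputable section

namespace Pool.Agent.MP_48470b_gt.Ck

open TT

/-- the boundary of the chart, components `f`, `g` -/
def Rc.pj (r : Rc) (i j E f g : Nat) : Bool := Pj.chkK r.cE 12 i j (r.ld f) (r.ld g) r.P E

/-- the boundary of the chart for two records -/
def proj1 (i j k : Nat) (r q : Rc) (E : Nat) : Bool :=
  cond (Nat.beq (Nat.succ k) nb) (r.pj i j E 0 0 && r.pj i j E 1 1 && r.pj i j E 3 2 &&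
    r.pj i j E 2 3 && q.pj i j (Tab.up E) 0 0 && q.pj i j (Tab.up E) 1 1 &&
    q.pj i j (Tab.up E) 2 2) true

namespace Tab

variable (T : Tab) (i j k : Nat)

def pjB : Bool := proj1 i j k (T.dat i j k) (T.phi i j k) (T.ep i j k)

/-- all tests on the faces of a box -/
def chkF : Bool := T.nbB i j k && T.symB i j k && T.fcB i j k && T.pjB i j k

end Tab

end Pool.Agent.MP_48470b_gt.Ck
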