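import Pool.Agent.MP_48470b_gt.TT.X

/-! Executable definitions: grid, data, models of the jets and of the residual. -/

namespace Pool.Agent.MP_48470b_gt.Ck

open TT

/-- break points of the grid, unit `1 / 512` -/
def brL : List Nat := [0, 12, 34, 56, 78, 100, 122, 144, 166, 188, 210, 232, 254, 278, 302, 326, 350,
  374, 398, 422, 446, 470, 492, 512]
def br (k : Nat) : Nat := brL.getD k 512
/-- number of steps -/
def nb : Nat := 23
/-- centre of step `k` -/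
def ce (k : Nat) : Nat := cond (Nat.beq k 0) 0 ((br k + br (k + 1)) / 2)
/-- radius of the enlarged step `k` -/
def HH (k : Nat) : Nat := br (k + 1) - ce k + 1

/-- change of the coefficient width -/
def wu (c : Cfg) (u : Nat) : Cfg := c.wu u

/-- integer multiple -/
def zs (c : Cfg) (k : Int) (x : W) : W := c.zmul k x

/-- one function: the packed polynomial `D` of scale `σ + s` and the errors of its jets -/
structure Fn where
  D : Nat
  σ : Nat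
  e0 : Nat
  e1 : Fin 3 → Nat
  e2 : Fin 3 → Fin 3 → Nat

/-- arithmetic and frame of one run: configuration `c`, width `uL` for the jets, scale `s`,
integer frame `b`, approximation `uy` of the normalising factor -/
structure Ar where
  c : Cfg
  uL : Nat
  s : Nat
  b00 : Int
  b01 : Int
  b02 : Int
  b11 : Int
  b12 : Int
  b22 : Int
  uy : Fn

namespace Ar

variable (x : Ar)

def cL : Cfg := wu x.c x.uL
def p (u : Fn) : T := x.cL.mkT u.D 0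
def d1 (i : Fin 3) (u : Fn) : W := x.cL.der i 0 (x.p u)
def w1 (k : Int) (i : Fin 3) (u : Fn) : W := zs x.c k ((x.d1 i u).addr (u.e1 i))
def d2 (i j : Fin 3) (u : Fn) : W := (x.cL.derW j 0 (x.d1 i u)).addr (u.e2 i j)
def w2 (k : Int) (i j : Fin 3) (u : Fn) : W := zs x.c k (x.d2 i j u)
def j (u : Fn) : T := x.cL.rnd u.σ ((x.p u).lift.addr u.e0)
def j0 (u : Fn) : T := x.cL.rnd u.σ (x.w1 x.b00 0 u)
def j1 (u : Fn) : T := x.cL.rnd u.σ ((x.w1 x.b01 0 u).add (x.w1 x.b11 1 u))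
def j2 (u : Fn) : T :=
  x.cL.rnd u.σ (((x.w1 x.b02 0 u).add (x.w1 x.b12 1 u)).add (x.w1 x.b22 2 u))
def j00 (u : Fn) : T := x.cL.rnd u.σ (x.w2 (x.b00 * x.b00) 0 0 u)
def j01 (u : Fn) : T :=
  x.cL.rnd u.σ ((x.w2 (x.b00 * x.b01) 0 0 u).add (x.w2 (x.b00 * x.b11) 0 1 u))
def j02 (u : Fn) : T := x.cL.rnd u.σ (((x.w2 (x.b00 * x.b02) 0 0 u).add
  (x.w2 (x.b00 * x.b12) 0 1 u)).add (x.w2 (x.b00 * x.b22) 0 2 u))
def j11 (u : Fn) : T := x.cL.rnd u.σ (((x.w2 (x.b01 * x.b01) 0 0 u).add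
  (x.w2 (2 * x.b01 * x.b11) 0 1 u)).add (x.w2 (x.b11 * x.b11) 1 1 u))
def j12 (u : Fn) : T := x.cL.rnd u.σ (((((x.w2 (x.b01 * x.b02) 0 0 u).add
  (x.w2 (x.b01 * x.b12 + x.b11 * x.b02) 0 1 u)).add (x.w2 (x.b01 * x.b22) 0 2 u)).add
  (x.w2 (x.b11 * x.b12) 1 1 u)).add (x.w2 (x.b11 * x.b22) 1 2 u))
def j22 (u : Fn) : T := x.cL.rnd u.σ ((((((x.w2 (x.b02 * x.b02) 0 0 u).add
  (x.w2 (2 * x.b02 * x.b12) 0 1 u)).add (x.w2 (2 * x.b02 * x.b22) 0 2 u)).add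
  (x.w2 (x.b12 * x.b12) 1 1 u)).add (x.w2 (2 * x.b12 * x.b22) 1 2 u)).add
  (x.w2 (x.b22 * x.b22) 2 2 u))
/-- the first derivatives fit in the slots -/
def ok (u : Fn) : Bool := Nat.blt (Nat.add (Nat.add (x.d1 0 u).n (x.d1 1 u).n) (x.d1 2 u).n)
  (p2 x.cL.u1)

/-- product -/
def m (a b : T) : W := x.c.mul a b
/-- rounding after a product -/
def r (w : W) : T := x.c.rnd x.s w
def dot (a b : Fin 4 → T) : W :=
  (((x.m (a 0) (b 0)).add (x.m (a 1) (b 1))).add (x.m (a 2) (b 2))).add (x.m (a 3) (b 3))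
def d22 (a b c d : T) : T := x.r (x.c.sub (x.m a b) (x.m c d))
/-- sum of four squares -/
def dsq (a : Fin 4 → T) : W :=
  (((x.c.sqr (a 0)).add (x.c.sqr (a 1))).add (x.c.sqr (a 2))).add (x.c.sqr (a 3))
def d2s (a b c : T) : T := x.r (x.c.sub (x.m a b) (x.c.sqr c))
def sU (a b : T) : Nat := x.c.sqU (Nat.add a.U b.U)
/-- rounding of a doubled sum of products given by another representative -/
def rh (w : W) (U : Nat) : T := x.c.rnd (Nat.add x.s 1) ((w.shl 1).setU U)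
/-- scalar product through squares -/
def dth (a b : Fin 4 → T) : T := x.rh (x.dot a b) (Nat.add (Nat.add (Nat.add (Nat.add
  (x.sU (a 0) (b 0)) (x.sU (a 1) (b 1))) (x.sU (a 2) (b 2))) (x.sU (a 3) (b 3)))
  (x.c.ngU (Nat.add (x.dsq a).U (x.dsq b).U)))
/-- determinant through squares -/
def d2h (a b c d : T) : T := x.rh (x.c.sub (x.m a b) (x.m c d))
  (Nat.add (Nat.add (Nat.add (x.sU a b) (x.c.sqr c).U) (x.c.sqr d).U)
    (x.c.ngU (Nat.add (Nat.add (x.sU c d) (x.c.sqr a).U) (x.c.sqr b).U)))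

variable (z : Fin 4 → Fn)

def F (k : Fin 4) : T := x.j (z k)
def t0 (k : Fin 4) : T := x.j0 (z k)
def t1 (k : Fin 4) : T := x.j1 (z k)
def t2 (k : Fin 4) : T := x.j2 (z k)
def f00 (k : Fin 4) : T := x.j00 (z k)
def f01 (k : Fin 4) : T := x.j01 (z k)
def f02 (k : Fin 4) : T := x.j02 (z k)
def f11 (k : Fin 4) : T := x.j11 (z k)
def f12 (k : Fin 4) : T := x.j12 (z k)
def f22 (k : Fin 4) : T := x.j22 (z k)
def g00 : T := x.r (x.dsq (x.t0 z))
def g01 : T := x.dth (x.t0 z) (x.t1 z)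
def g02 : T := x.dth (x.t0 z) (x.t2 z)
def g11 : T := x.r (x.dsq (x.t1 z))
def g12 : T := x.dth (x.t1 z) (x.t2 z)
def g22 : T := x.r (x.dsq (x.t2 z))
def a00 : T := x.d2s (x.g11 z) (x.g22 z) (x.g12 z)
def a11 : T := x.d2s (x.g00 z) (x.g22 z) (x.g02 z)
def a22 : T := x.d2s (x.g00 z) (x.g11 z) (x.g01 z)
def a01 : T := x.d22 (x.g02 z) (x.g12 z) (x.g01 z) (x.g22 z)
def a02 : T := x.d22 (x.g01 z) (x.g12 z) (x.g02 z) (x.g11 z)
def a12 : T := x.d22 (x.g01 z) (x.g02 z) (x.g00 z) (x.g12 z)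
def mi (p q : Fin 4) : T := x.d2h (x.t1 z p) (x.t2 z q) (x.t1 z q) (x.t2 z p)
def mn (p q r : Fin 4) : W := x.c.sub ((x.m (x.t0 z p) (x.mi z q r)).add
  (x.m (x.t0 z r) (x.mi z p q))) (x.m (x.t0 z q) (x.mi z p r))
def n0 : T := x.r (x.mn z 1 2 3)
def n1 : T := x.r (x.c.neg (x.mn z 0 2 3))
def n2 : T := x.r (x.mn z 0 1 3)
def n3 : T := x.r (x.c.neg (x.mn z 0 1 2))
def n (k : Fin 4) : T := cond (Nat.beq k.1 0) (x.n0 z)
  (cond (Nat.beq k.1 1) (x.n1 z) (cond (Nat.beq k.1 2) (x.n2 z) (x.n3 z)))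
def dt : T := x.r (x.dsq (x.n z))
def zz (k : Fin 4) : T := x.c.rnd (Nat.add x.s 1)
  (((((x.m (x.a00 z) (x.f00 z k)).add (x.m (x.a11 z) (x.f11 z k))).add
    (x.m (x.a22 z) (x.f22 z k))).add ((((x.m (x.a01 z) (x.f01 z k)).add
    (x.m (x.a02 z) (x.f02 z k))).add (x.m (x.a12 z) (x.f12 z k))).shl 1)).shl 1 |>.add
    (x.m (x.dt z) (x.F z k)))
def res : T := x.r (x.dot (x.zz z) (x.n z))
def okz : Bool := x.ok (z 0) && x.ok (z 1) && x.ok (z 2) && x.ok (z 3)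

/-! the residual multiplied by the cube of a polynomial -/

variable (uy : Fn)

def my (a : T) : T := x.r (x.m (x.j uy) a)
def ty (k : Fin 4) : T := x.my uy (x.t0 z k)
def h00 : T := x.r (x.dot (x.ty z uy) (x.t0 z))
def h01 : T := x.r (x.dot (x.ty z uy) (x.t1 z))
def h02 : T := x.r (x.dot (x.ty z uy) (x.t2 z))
def h11 : T := x.my uy (x.g11 z)
def h12 : T := x.my uy (x.g12 z)
def h22 : T := x.my uy (x.g22 z)
def k00 : T := x.d2s (x.h11 z uy) (x.h22 z uy) (x.h12 z uy)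
def k11 : T := x.d2s (x.h00 z uy) (x.h22 z uy) (x.h02 z uy)
def k22 : T := x.d2s (x.h00 z uy) (x.h11 z uy) (x.h01 z uy)
def k01 : T := x.d22 (x.h02 z uy) (x.h12 z uy) (x.h01 z uy) (x.h22 z uy)
def k02 : T := x.d22 (x.h01 z uy) (x.h12 z uy) (x.h02 z uy) (x.h11 z uy)
def k12 : T := x.d22 (x.h01 z uy) (x.h02 z uy) (x.h00 z uy) (x.h12 z uy)
def my3 (p q r : Fin 4) : W := x.c.sub ((x.m (x.ty z uy p) (x.mi z q r)).add
  (x.m (x.ty z uy r) (x.mi z p q))) (x.m (x.ty z uy q) (x.mi z p r))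
def ny0 : T := x.r (x.my3 z uy 1 2 3)
def ny1 : T := x.r (x.c.neg (x.my3 z uy 0 2 3))
def ny2 : T := x.r (x.my3 z uy 0 1 3)
def ny3 : T := x.r (x.c.neg (x.my3 z uy 0 1 2))
def ny (k : Fin 4) : T := cond (Nat.beq k.1 0) (x.ny0 z uy)
  (cond (Nat.beq k.1 1) (x.ny1 z uy) (cond (Nat.beq k.1 2) (x.ny2 z uy) (x.ny3 z uy)))
def dy : T := x.r (x.dsq (x.ny z uy))
def zy (k : Fin 4) : T := x.c.rnd (Nat.add x.s 1)
  (((((x.m (x.k00 z uy) (x.f00 z k)).add (x.m (x.k11 z uy) (x.f11 z k))).add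
    (x.m (x.k22 z uy) (x.f22 z k))).add ((((x.m (x.k01 z uy) (x.f01 z k)).add
    (x.m (x.k02 z uy) (x.f02 z k))).add (x.m (x.k12 z uy) (x.f12 z k))).shl 1)).shl 1 |>.add
    (x.m (x.dy z uy) (x.F z k)))
def resY : T := x.r (x.dot (x.zy z uy) (x.ny z uy))

end Ar

end Pool.Agent.MP_48470b_gt.Ck
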