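import Pool.Agent.MP_48470b_gt.TT.Out
import Pool.Agent.MP_48470b_gt.Ck.X

/-! Narrow models without reference to the coefficient width. -/

open Finset

namespace Pool.Agent.MP_48470b_gt.Ck

open TT TT.Cfg
open TM (Sem)

variable {c : Cfg} {A : Type*} [CommRing A] [Algebra ℝ A] {X : Fin 3 → A}
  {ν : Seminorm ℝ A} {s t : ℕ} {p q : A} {a b : T} {x y : W}

theorem EN.of {u : ℕ} (hc : (wu c u).Ok) (h : (wu c u).ET X ν s p a) : EN c X ν s p a :=
  ET.en (c := wu c u) hc h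

theorem EN.of' (hc : c.Ok) (h : c.ET X ν s p a) : EN c X ν s p a := h.en hc

theorem _root_.Pool.Agent.MP_48470b_gt.TT.Cfg.EN.congr (h : EN c X ν s p a) (e : p = q) :
    EN c X ν s q a := e ▸ h

theorem EW.congr (h : c.EW X ν s p x) (e : p = q) : c.EW X ν s q x := e ▸ h

theorem ew_wu {u : ℕ} : (wu c u).EW X ν s p x ↔ c.EW X ν s p x := Iff.rfl

/-- rounding with another width -/
theorem rnd_wu {u : ℕ} (H : c.Sg X ν) (hc : (wu c u).Ok) (σ : ℕ) (h : c.EW X ν (σ + s) p x) :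
    EN c X ν s p ((wu c u).rnd σ x) := EN.of hc (EW.rnd (H.wu hc) σ h)

theorem rnd_en (H : c.Sg X ν) (σ : ℕ) (h : c.EW X ν (σ + s) p x) :
    EN c X ν s p (c.rnd σ x) := EN.of' H.ok (EW.rnd H σ h)

/-- the exact derivative of the polynomial of a model -/
theorem der_pol (hc : c.Ok) (h : c.WF a) (i : Fin 3) (δ : Derivation ℝ A A)
    (hδ : ∀ j, δ (X j) = if j = i then 1 else 0) :
    ∃ f, c.Rep (c.der i 0 a).U (c.der i 0 a).n f ∧ δ (c.pol X a) = c.ev X f := by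
  obtain ⟨D, h1⟩ := h
  refine ⟨c.dc i (c.ldc D), by rw [h1]; exact der_rep hc i 0 D _, ?_⟩
  rw [h1, pol_mkT hc]
  exact der_ev hc i δ hδ _

theorem z_land (U : ℕ) : ((Nat.land c.Q1 U : ℕ) : ZMod c.Q) = U := by
  rw [land_Q1, ZMod.natCast_mod]

theorem z_ngU (U : ℕ) : ((c.ngU U : ℕ) : ZMod c.Q) = -U := by
  have := (ZMod.intCast_eq_intCast_iff _ _ _).2 (ngU_eq (c := c) U)
  simpa using this

end Pool.Agent.MP_48470b_gt.Ck
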