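import Pool.Agent.MP_48470b_gt.Ck.LowX

/-! Executable definitions: the global constants. -/

namespace Pool.Agent.MP_48470b_gt.Ck

open TT

/-- the constants of the run -/
def kn0 : Kn := ⟨8500000, 4000000000, 100000000000000, 50800, 50900000000, 1000000000000, 1350,
  2000000, 710649, 36000000, 8000000000, 3906250000, 135000000, 3000000000, 784000000, 6520000,
  5200000, 92000000, 100000000000, 16000000000000, 900000000, 16500000000, 509000000000,
  2000000, 6000000, s3 0 6 9, s3 22 22 22, 500000, s3 8 14 18, s3 12 18 23⟩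

/-- the constants for the eigenfunctions -/
def ke0 : Ke := ⟨s3 (-17560849767) (-3154814763) 682605926, fun _ => 1000000000,
  s3 190000000 198000000 187000000,
  s3 84300000000000000 1830000000000000000 1240000000000000000000,
  s3 (s3 0 1 3) (s3 0 8 11) (s3 0 19 20), s3 (s3 2 4 18) (s3 4 10 23) (s3 20 21 23)⟩

namespace Ke

variable (e : Ke)

/-- side of a block -/
def sd (k a : Fin 3) : Nat := br (e.hi k a) - br (e.lo k a)

/-- the block is sorted and the relative error is at most the root of `q / 10000` -/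
def blk (k : Fin 3) (q : Nat) : Bool :=
  Nat.blt (e.lo k 0) (e.hi k 0) && Nat.blt (e.lo k 1) (e.hi k 1) &&
  Nat.blt (e.lo k 2) (e.hi k 2) && Nat.ble (e.hi k 0) (e.lo k 1 + 1) &&
  Nat.ble (e.hi k 1) (e.lo k 2 + 1) && Nat.ble (e.hi k 2) nb && Nat.blt 0 (e.el k) &&
  Nat.ble (e.et k ^ 2 * 2 ^ 27 * 10000) (q * (3 * (e.sd k 0 * e.sd k 1 * e.sd k 2) * e.el k))

/-- the test for the constants of the eigenfunctions -/
def ok : Bool := e.blk 0 250000 && e.blk 1 10000 && e.blk 2 9 &&
  Nat.blt 0 (e.d 0) && Nat.blt 0 (e.d 1) && Nat.blt 0 (e.d 2) &&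
  decide (2 * e.k 0 ≤ -21 * e.d 0) && decide (-7 * e.d 1 ≤ 2 * e.k 1) &&
  decide (2 * e.k 1 ≤ -5 * e.d 1) && decide (68 * e.d 2 ≤ 100 * e.k 2) &&
  decide (100 * e.k 2 ≤ 69 * e.d 2)

end Ke

end Pool.Agent.MP_48470b_gt.Ck
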