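import Pool.Agent.MP_48470b_gt.Ck.TabX

/-! Executable definitions: the mismatch of two records on a common face. -/

noncomputable section

namespace Pool.Agent.MP_48470b_gt.Ck

open TT

/-- the variable that belongs to a coordinate -/
def ax (a : Nat) : Nat := cond (Nat.beq a 0) 0 (cond (Nat.beq a 1) 2 1)

namespace Rc

variable (r q : Rc) (a k : Nat)

def fh : Nat := Nat.shiftRight (Nat.succ (mx r.E0 q.E0)) 1
def fs : Nat := cond (Nat.beq a 1) (mx (mx r.E2 q.E2) (Nat.mul 2 (r.fh q))) (mx r.E2 q.E2)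
/-- the layout of the planes -/
def fy : Ms.Ly := ⟨17, r.fh q, mx r.E1 q.E1, Nat.add (r.fs q a) (Nat.land (r.fs q a) 1)⟩
/-- the number of groups of four planes -/
def fg : Nat := Nat.shiftRight (Nat.add (cond (Nat.beq a 0) (mx r.E0 q.E0)
  (cond (Nat.beq a 1) (mx r.E2 q.E2) (mx r.E1 q.E1))) 3) 2
/-- the common scale -/
def fp : Nat := Nat.add (Ms.mn r.P q.P) 140
/-- the bound for the component `f`, unit `2 ^ -fp` -/
def fv (f : Nat) : Nat := Ms.face (r.fy q a) (ax a) (r.fg q a)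
  r.b (Nat.pred (HH k)) (HH k) (Nat.sub (r.fp q) r.P)
  q.b (Nat.pred (HH (Nat.succ k))) (HH (Nat.succ k)) (Nat.sub (r.fp q) q.P) f
/-- admissible sizes -/
def fz : Bool := Nat.ble (r.fh q) 64 && Nat.ble (r.fy q a).E 64 && Nat.ble (r.fy q a).S 64 &&
  Nat.ble (r.fg q a) 16 && Nat.ble r.P (r.fp q) && Nat.ble q.P (r.fp q)
/-- the test for the first `n` components, bound `e * 2 ^ -100` -/
def fc (n e : Nat) : Bool := r.fz q a && Sy.all n fun f =>
  Nat.ble (Nat.shiftLeft (r.fv q a k f) 100) (Nat.shiftLeft e (r.fp q))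

end Rc

namespace Tab

variable (T : Tab) (i j k : Nat)

/-- the face between two boxes -/
def fc1 (i' j' k' a l : Nat) : Bool := cond (srtB i' j' k')
  ((T.dat i j k).fc (T.dat i' j' k') a l 4 (T.ef i j k a) &&
    (T.phi i j k).fc (T.phi i' j' k') a l 3 (up (T.ef i j k a))) true
/-- the upper faces of a box -/
def fcB : Bool := T.fc1 i j k (Nat.succ i) j k 0 i && T.fc1 i j k i (Nat.succ j) k 1 j &&
  T.fc1 i j k i j (Nat.succ k) 2 k

end Tab

end Pool.Agent.MP_48470b_gt.Ck
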