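import Pool.Agent.MP_48470b_gt.Ck.TabD
import Pool.Agent.MP_48470b_gt.Ck.FaceX
import Pool.Agent.MP_48470b_gt.Ms.Face

/-! The mismatch on a face from the test. -/

open Function

noncomputable section

namespace Pool.Agent.MP_48470b_gt.Ck

open Dic Pool.Agent.MP_48470b_gt.Top
open Bl hiding sg nb
open TM (Sem)
open Ar (sg)

theorem grid_nat : ∀ k < 23, HH k ≤ 64 ∧ br (k + 1) + 1 = ce k + HH k ∧
    (k ≠ 0 → br k + HH k = ce k + 1) ∧ (k = 0 → ce k = 0) := by decide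

theorem XX_le {M : Bx} (hM : Srt nb M) {z : P3} (hz : InE br M z) (i : Fin 3) :
    tn (1 / 1024) z (XX M i) ≤ 1 := by
  rw [XX, tn_xi]
  generalize sg i = a
  obtain ⟨-, q, r, s⟩ := grid_nat _ (hM.lt a)
  obtain ⟨u, v⟩ := hz a
  have p : (1 : ℝ) ≤ HH (M a) := by exact_mod_cast HH_pos _
  have p' : (0 : ℝ) < HH (M a) := by linarith
  have q' : (br (M a + 1) : ℝ) + 1 = ce (M a) + HH (M a) := by exact_mod_cast q
  have w : (ce (M a) : ℝ) + 1 / 2 ≤ 512 * z a + HH (M a) := by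
    by_cases e : M a = 0
    · rw [s e]
      push_cast
      linarith
    · have : (br (M a) : ℝ) + HH (M a) = ce (M a) + 1 := by exact_mod_cast r e
      linarith
  rw [div_mul_eq_mul_div, ← sub_div, abs_div, abs_div, abs_of_pos p', mul_div_assoc', ← add_div,
    div_le_one p', abs_of_pos (by norm_num : (0 : ℝ) < 512)]
  have := abs_le.2 (show -(HH (M a) - 1 / 2 : ℝ) ≤ 512 * z a - ce (M a) ∧ _ from
    ⟨by linarith, by linarith⟩)
  linarith

/-- the variables of a face -/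
theorem XX_face {M : Bx} {a : Fin 3} (hM : Srt nb M) (hN : Srt nb (nx M a)) {z : P3}
    (p : InE br M z) (q : InE br (nx M a) z) : ∃ Y : Fin 3 → C3,
      Sem Y (tnS (1 / 1024) (by norm_num) z) ∧
      XX M = update Y (sg a) ((HH (M a) : ℝ)⁻¹ • (Y (sg a) + ((HH (M a)).pred : C3))) ∧
      XX (nx M a) = update Y (sg a)
        ((HH (M a + 1) : ℝ)⁻¹ • (Y (sg a) - ((HH (M a + 1)).pred : C3))) := by
  have s : ∀ a : Fin 3, sg (sg a) = a := by decide
  have s' : ∀ i a : Fin 3, i ≠ sg a → sg i ≠ a := by decide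
  obtain ⟨-, g2, -, -⟩ := grid_nat _ (hM.lt a)
  obtain ⟨-, -, k2, -⟩ := grid_nat (M a + 1) (by simpa [nb] using hN.lt a)
  have g3 : (br (M a + 1) : ℝ) + 1 = ce (M a) + HH (M a) := by exact_mod_cast g2
  have k3 : (br (M a + 1) : ℝ) + HH (M a + 1) = ce (M a + 1) + 1 := by
    exact_mod_cast k2 (Nat.succ_ne_zero _)
  have c : ∀ k, ((HH k).pred : C3) = algebraMap ℝ C3 (HH k - 1) := fun k => by
    simp [Nat.cast_sub (HH_pos k)]
  refine ⟨update (XX M) (sg a) ((512 : ℝ) • xi a - algebraMap ℝ C3 (br (M a + 1))),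
    tn_sem _ fun i => ?_, ?_, funext fun i => ?_⟩
  · by_cases e : i = sg a
    · rw [e, update_self, tn_xi]
      have u := (p a).2
      have v := (q a).1
      simp only [nx, update_self] at v
      have := abs_le.2 (show -(1 / 2 : ℝ) ≤ 512 * z a - br (M a + 1) ∧ _ from
        ⟨by linarith, by linarith⟩)
      rw [abs_of_pos (by norm_num : (0 : ℝ) < 512)]
      linarith
    · rw [update_of_ne e]
      exact XX_le hM p i
  · rw [update_idem, update_self, eq_comm, update_eq_self_iff, XX, s, c,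
      sub_add, ← map_sub, smul_sub, smul_smul, Algebra.algebraMap_eq_smul_one,
      Algebra.algebraMap_eq_smul_one, smul_smul]
    congr 2
    · ring
    · rw [show (br (M a + 1) : ℝ) - (HH (M a) - 1) = ce (M a) by linarith]
      ring
  · rw [update_idem, update_self]
    by_cases e : i = sg a
    · rw [e, update_self, XX, s, c, sub_sub, ← map_add, smul_sub, smul_smul,
        Algebra.algebraMap_eq_smul_one, Algebra.algebraMap_eq_smul_one, smul_smul]
      simp only [nx, update_self]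
      congr 2
      · ring
      · rw [show (br (M a + 1) : ℝ) + (HH (M a + 1) - 1) = ce (M a + 1) by linarith]
        ring
    · rw [update_of_ne e, XX, XX]
      simp only [nx, update_of_ne (s' i a e)]

namespace Rc

variable {r q : Rc}

theorem fn_poly (h : r.ok = true) {f : ℕ} (hf : f < 4) (hE : r.E0 ≤ 128) (X : Fin 3 → C3) :
    r.fn f X = ((2 : ℝ) ^ r.P)⁻¹ • r.b.poly 17 f X := by
  simp only [ok, Bool.and_eq_true] at h
  rw [fn, ld, Ms.ev_full (c := r.cE) (by norm_num) rfl le_rfl (by decide : 86 ≤ 136) h.1.1 h.1.2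
    hE hf]

theorem fc_ok (hr : r.ok = true) (hq : q.ok = true) {M : Bx} {a : Fin 3} {n e f : ℕ}
    (h : r.fc q a (M a) n e = true) (hn : n ≤ 4) (hf : f < n) (hM : Srt nb M)
    (hN : Srt nb (nx M a)) {z : P3} (u : InE br M z) (v : InE br (nx M a) z) :
    tn (1 / 1024) z (q.fn f (XX (nx M a)) - r.fn f (XX M)) ≤ e / 2 ^ 100 := by
  obtain ⟨Y, S, e1, e2⟩ := XX_face hM hN u v
  simp only [fc, fz, Bool.and_eq_true, Nat.ble_eq] at h
  obtain ⟨⟨⟨⟨⟨⟨s1, s2⟩, s3⟩, s4⟩, s5⟩, s6⟩, b⟩ := h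
  have b := Nat.ble_eq.mp (Sy.all_iff b hf)
  have f1 : r.fh q = (max r.E0 q.E0 + 1) / 2 := by rw [← mx_eq]; rfl
  have f2 : (r.fy q a).E = max r.E1 q.E1 := mx_eq _ _
  have f3 : max r.E2 q.E2 ≤ (r.fy q a).S ∧ (sg a = 2 → 2 * r.fh q ≤ (r.fy q a).S) := by
    have : r.fs q a ≤ (r.fy q a).S := Nat.le_add_right _ _
    generalize (r.fy q a).S = S at this
    obtain rfl | rfl | rfl : a = 0 ∨ a = 1 ∨ a = 2 := by omega
    · exact ⟨mx_eq _ _ ▸ this, fun h => absurd h (by decide)⟩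
    · have : max (max r.E2 q.E2) (2 * r.fh q) ≤ S := by
        rw [← mx_eq, ← mx_eq]
        exact this
      omega
    · exact ⟨mx_eq _ _ ▸ this, fun h => absurd h (by decide)⟩
  have f4 : ![r.E0, r.E1, r.E2] (sg a) ≤ 4 * r.fg q a ∧
      ![q.E0, q.E1, q.E2] (sg a) ≤ 4 * r.fg q a := by
    have g : ∀ x y, x ≤ 4 * ((mx x y + 3) >>> 2) ∧ y ≤ 4 * ((mx x y + 3) >>> 2) := fun x y => by
      rw [mx_eq, Nat.shiftRight_eq_div_pow]
      omega
    fin_cases a
    exacts [g r.E0 q.E0, g r.E2 q.E2, g r.E1 q.E1]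
  have f5 : r.fp q = min r.P q.P + 140 := by rw [← Ms.mn_eq]; rfl
  have f6 : ax a = sg a := by fin_cases a <;> rfl
  have o := hr
  have o' := hq
  simp only [ok, Bool.and_eq_true, decide_eq_true_eq] at o o'
  have w : 3 ≤ r.E2 := o.2.2.1.2.2
  have k := Ms.face_ok S (p := r.fy q a) (m := r.fp q - r.P) (m' := r.fp q - q.P) rfl (sg a)
    ⟨Nat.succ_pos _, o.1.1, o.1.2, show _ ≤ 2 * r.fh q by omega, by omega, by omega, s1, by omega⟩
    ⟨Nat.succ_pos _, o'.1.1, o'.1.2, show _ ≤ 2 * r.fh q by omega, by omega, by omega, s1, by omega⟩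
    s2 s3 f4.1 f4.2 s4 f3.2 (hf.trans_le hn) (Nat.pred_lt (HH_pos (M a)).ne')
    (grid_nat _ (hM.lt a)).1 (by omega) (Nat.pred_lt (HH_pos (M a + 1)).ne')
    (grid_nat (M a + 1) (by simpa [nb] using hN.lt a)).1 (by omega)
  rw [← e1, ← e2, ← f6, tnS_apply] at k
  have t : ∀ P ≤ r.fp q, ((2 : ℝ) ^ P)⁻¹ = ((2 : ℝ) ^ r.fp q)⁻¹ * 2 ^ (r.fp q - P) :=
    fun P p => by rw [pow_sub₀ _ two_ne_zero p]; field_simp
  have b' : (r.fv q a (M a) f : ℝ) * 2 ^ 100 ≤ e * 2 ^ r.fp q := by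
    rw [show Nat.shiftLeft = HShiftLeft.hShiftLeft from rfl, Nat.shiftLeft_eq, Nat.shiftLeft_eq]
      at b
    exact_mod_cast b
  rw [fn_poly hr (hf.trans_le hn) (by omega), fn_poly hq (hf.trans_le hn) (by omega), t _ s5,
    t _ s6, mul_smul, mul_smul, ← smul_sub, tn_smul, ← tn_neg, neg_sub,
    abs_of_pos (by positivity), inv_mul_le_iff₀ (by positivity), mul_div_assoc',
    le_div_iff₀ (by positivity), mul_comm _ (e : ℝ)]
  exact (mul_le_mul_of_nonneg_right k (by positivity)).trans b'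

end Rc

namespace Tab

variable {T : Tab}

theorem fc_of {M : Bx} (h : T.fcB (M 0) (M 1) (M 2) = true) (a : Fin 3) (hN : Srt nb (nx M a)) :
    (T.dat (M 0) (M 1) (M 2)).fc (T.dat (nx M a 0) (nx M a 1) (nx M a 2)) a (M a) 4
      (T.ef (M 0) (M 1) (M 2) a) = true ∧
    (T.phi (M 0) (M 1) (M 2)).fc (T.phi (nx M a 0) (nx M a 1) (nx M a 2)) a (M a) 3
      (up (T.ef (M 0) (M 1) (M 2) a)) = true := by
  have s : srtB (nx M a 0) (nx M a 1) (nx M a 2) = true := by
    simpa [srtB, and_assoc, Srt] using hN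
  have : T.fc1 (M 0) (M 1) (M 2) (nx M a 0) (nx M a 1) (nx M a 2) a (M a) = true := by
    simp only [fcB, Bool.and_eq_true] at h
    fin_cases a
    exacts [h.1.1, h.1.2, h.2]
  rwa [fc1, s, cond_true, Bool.and_eq_true] at this

/-- **The mismatches on the faces.** -/
theorem face_of (ok : ∀ K, Srt nb K → (T.dat (K 0) (K 1) (K 2)).ok = true ∧
      (T.phi (K 0) (K 1) (K 2)).ok = true)
    (h : ∀ K, Srt nb K → T.fcB (K 0) (K 1) (K 2) = true) :
    (∀ M a, Srt nb M → Srt nb (nx M a) →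
      FaceB br T.Pf M a (T.ef (M 0) (M 1) (M 2) a / 2 ^ 100)) ∧
    ∀ k M a, Srt nb M → Srt nb (nx M a) →
      FaceB br (T.Pp k) M a (up (T.ef (M 0) (M 1) (M 2) a) / 2 ^ 100) := by
  refine ⟨fun M a p q o z _ u v => Rc.fc_ok (ok M p).1 (ok _ q).1 (fc_of (h M p) a q).1 le_rfl
    ?_ p q u v, fun k M a p q o z _ u v => ?_⟩
  · rcases o with _ | o
    exacts [by decide, o.2.trans (by decide)]
  · rcases o with _ | o
    · exact Rc.fc_ok (ok M p).2 (ok _ q).2 (fc_of (h M p) a q).2 (by decide) k.2 p q u v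
    · simp only [Pp, Option.elim, sub_zero, tn_zero]
      positivity

end Tab

end Pool.Agent.MP_48470b_gt.Ck
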