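import Pool.Agent.MP_48470b_gt.Ck.ChkX
import Pool.Agent.MP_48470b_gt.Ck.Face
import Pool.Agent.MP_48470b_gt.Ck.Box
import Pool.Agent.MP_48470b_gt.Pj.Main

/-! From the tests on the faces to the symmetries and mismatches of the data. -/

noncomputable section

namespace Pool.Agent.MP_48470b_gt.Ck

open TT Dic Pool.Agent.MP_48470b_gt.Top
open Bl (Bx ProjB oc ta)
open Ar (sg)

theorem xi_XX (K : Bx) (i : Fin 3) : xi (sg i) =
    ((HH (K (sg i)) : ℝ) / 512) • XX K i + algebraMap ℝ C3 (ce (K (sg i)) / 512) := by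
  have : (HH (K (sg i)) : ℝ) ≠ 0 := Nat.cast_ne_zero.2 (HH_pos _).ne'
  simp only [XX, Algebra.algebraMap_eq_smul_one]
  match_scalars <;> field_simp
  ring

theorem Rc.pj_ok {r : Rc} {K : Bx} {E f g : ℕ} (hK : Srt nb K) (e : K 2 + 1 = nb)
    (h : r.pj (K 0) (K 1) E f g = true) :
    ProjB br K (r.fn f (XX K)) (r.fn g (XX K)) (E / 2 ^ 100) :=
  Pj.projB h (hK.lt 0) (hK.lt 1) (Nat.succ_injective e) (xi_XX K 0) (xi_XX K 1) (xi_XX K 2)

/-- **The tests on the faces give the hypotheses of the blend.** -/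
theorem Tab.glue {T : Tab} (ok : ∀ K, Srt nb K → (T.dat (K 0) (K 1) (K 2)).ok = true ∧
      (T.phi (K 0) (K 1) (K 2)).ok = true)
    (h : ∀ K, Srt nb K → T.chkF (K 0) (K 1) (K 2) = true) : T.Glue := by
  simp only [chkF, Bool.and_eq_true] at h
  obtain ⟨d1, d2⟩ := dat_sym fun K hK => (h K hK).1.1.2
  obtain ⟨f1, f2⟩ := face_of ok fun K hK => (h K hK).1.2
  have p := fun K hK (e : K 2 + 1 = nb) => Sy.cnd (h K hK).2 e
  simp only [Bool.and_eq_true] at p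
  refine ⟨d1, d2, f1, f2, fun K hK e m => ?_, fun k K hK e => ?_, fun K hK => (h K hK).1.1.1⟩ <;>
    obtain ⟨⟨⟨⟨⟨⟨p0, p1⟩, p2⟩, p3⟩, q0⟩, q1⟩, q2⟩ := p K hK e
  · fin_cases m
    exacts [Rc.pj_ok hK e p0, Rc.pj_ok hK e p1, Rc.pj_ok hK e p2, Rc.pj_ok hK e p3]
  · fin_cases k
    exacts [Rc.pj_ok hK e q0, Rc.pj_ok hK e q1, Rc.pj_ok hK e q2]

/-- **From all tests to the conclusion.** -/
theorem Tab.final' (T : Tab) (ok : T.ke.ok = true)
    (hB : ∀ i j k, i ≤ j → j ≤ k → k < nb → ∃ p, T.chkB p i j k = true)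
    (hF : ∀ i j k, i ≤ j → j ≤ k → k < nb → T.chkF i j k = true)
    (cnt : ∀ bb vv, (∀ i j k, i ≤ j → j ≤ k → k < nb →
      Gap.CellOK 512 br bb vv (T.cw i j k) i j k) → Gap.Count bb vv) : ¬ Geo.Uniq := by
  refine T.final (glue (fun K hK => ?_) fun K hK => hF _ _ _ hK.1 hK.2.1 hK.2.2) ok hB cnt
  obtain ⟨p, h⟩ := hB _ _ _ hK.1 hK.2.1 hK.2.2
  simp only [chkB, Pm.box, Pm.pre, Bool.and_eq_true] at h
  exact h.1.1.1.1.1.1.1

end Pool.Agent.MP_48470b_gt.Ck
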