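import Pool.Agent.MP_48470b_gt.Ck.Core
import Pool.Agent.MP_48470b_gt.Dic.JetB

/-! Models of the jets and of the first geometric quantities on one box. -/

open Finset

namespace Pool.Agent.MP_48470b_gt.Ck

open TT TT.Cfg Dic Pool.Agent.MP48470b.An

namespace Ar

variable (x : Ar)

variable {K : Type*} [CommRing K] [Algebra ℝ K] (X : Fin 3 → K) (ν : Seminorm ℝ K)
  (δ pp : I3 → Derivation ℝ K K)

/-- the setting: `δ` are the derivatives in the variables `X`, `pp` is the frame -/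
structure Set : Prop where
  sg : x.c.Sg X ν
  okL : x.cL.Ok
  dX : ∀ i j, δ i (X j) = if j = i then 1 else 0
  comm : ∀ i j u, δ i (δ j u) = δ j (δ i u)
  p0 : ∀ u, pp 0 u = (x.b00 : ℝ) • δ 0 u
  p1 : ∀ u, pp 1 u = (x.b01 : ℝ) • δ 0 u + (x.b11 : ℝ) • δ 1 u
  p2 : ∀ u, pp 2 u = (x.b02 : ℝ) • δ 0 u + (x.b12 : ℝ) • δ 1 u + (x.b22 : ℝ) • δ 2 u

/-- the function `v` is close to the polynomial of `u` -/
structure Near (u : Fn) (v : K) : Prop where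
  ok : x.ok u = true
  e0 : ν ((2 : ℝ) ^ (u.σ + x.s) • v - x.cL.pol X (x.p u)) ≤ u.e0
  e1 : ∀ i, ν (δ i ((2 : ℝ) ^ (u.σ + x.s) • v - x.cL.pol X (x.p u))) ≤ u.e1 i
  e2 : ∀ i j, ν (δ j (δ i ((2 : ℝ) ^ (u.σ + x.s) • v - x.cL.pol X (x.p u)))) ≤ u.e2 i j

/-- enclosure with the scale of the run -/
abbrev E (v : K) (a : T) : Prop := EN x.c X ν x.s v a

/-- enclosure of a sum of products -/
abbrev E2 (v : K) (w : W) : Prop := x.c.EW X ν (x.s + x.s) v w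

variable {x X ν δ pp} {u : Fn} {v : K}

theorem exw {c : Cfg} {w : W} {f : ℕ → ℤ} (h : c.Rep w.U w.n f) (h0 : w.r = 0) {s e : ℕ}
    (he : ν ((2 : ℝ) ^ s • v - c.ev X f) ≤ e) : c.EW X ν s v (w.addr e) :=
  ⟨f, h, by simpa [W.addr, h0] using he⟩

theorem ew_two {c : Cfg} {w : W} {s : ℕ} (h : c.EW X ν (1 + s) v w) :
    c.EW X ν s ((2 : ℝ) • v) w := by
  rwa [EW, smul_smul, ← pow_succ, add_comm s 1]

theorem Set.w1 (S : x.Set X ν δ pp) (h : x.Near X ν δ u v) (k : ℤ) (i : Fin 3) :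
    x.c.EW X ν (u.σ + x.s) ((k : ℝ) • δ i v) (x.w1 k i u) := by
  obtain ⟨f, k1, k2⟩ := der_pol S.okL (wf_mkT u.D 0) i (δ i) (S.dX i)
  refine EW.zs (c := x.c) (exw (c := x.cL) (w := x.d1 i u) k1 (Nat.mul_zero _) ?_) k
  have := h.e1 i
  rwa [map_sub, Derivation.map_smul, p, k2] at this

theorem Set.w2 (S : x.Set X ν δ pp) (h : x.Near X ν δ u v) (k : ℤ) (i j : Fin 3) :
    x.c.EW X ν (u.σ + x.s) ((k : ℝ) • δ j (δ i v)) (x.w2 k i j u) := by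
  obtain ⟨f, k1, k2⟩ := der_pol S.okL (wf_mkT u.D 0) i (δ i) (S.dX i)
  have h0 : (x.d1 i u).n < 2 ^ (x.cL.u - 1) := by
    have : (x.d1 0 u).n + (x.d1 1 u).n + (x.d1 2 u).n < 2 ^ (x.cL.u - 1) := Nat.blt_eq ▸ h.ok
    fin_cases i <;> simp only [Fin.zero_eta, Fin.mk_one, Fin.reduceFinMk] <;> omega
  refine EW.zs (c := x.c) (exw (c := x.cL) (w := x.cL.derW j 0 (x.d1 i u))
    (derW_rep S.okL j 0 k1 h0) (Nat.mul_zero _) ?_) k
  have := h.e2 i j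
  rwa [map_sub, map_sub, Derivation.map_smul, Derivation.map_smul, p, k2,
    der_ev S.okL j (δ j) (S.dX j)] at this

theorem Set.rn (S : x.Set X ν δ pp) {σ : ℕ} {w : W} {v' : K} (h : x.c.EW X ν (σ + x.s) v' w)
    (e : v' = v) : x.E X ν v (x.cL.rnd σ w) := e ▸ rnd_wu S.sg S.okL σ h

theorem Set.j (S : x.Set X ν δ pp) (h : x.Near X ν δ u v) : x.E X ν v (x.j u) := by
  obtain ⟨f, k1, k2, -⟩ := (wf_mkT (c := x.cL) u.D 0).spec (X := X) S.okL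
  refine S.rn (exw (c := x.cL) (w := (x.p u).lift) k1 rfl ?_) rfl
  have := h.e0
  rwa [p, k2] at this

theorem Set.j0 (S : x.Set X ν δ pp) (h : x.Near X ν δ u v) : x.E X ν (pp 0 v) (x.j0 u) :=
  S.rn (S.w1 h _ _) (S.p0 v).symm

theorem Set.j1 (S : x.Set X ν δ pp) (h : x.Near X ν δ u v) : x.E X ν (pp 1 v) (x.j1 u) :=
  S.rn ((S.w1 h _ _).add (S.w1 h _ _)) (S.p1 v).symm

theorem Set.j2 (S : x.Set X ν δ pp) (h : x.Near X ν δ u v) : x.E X ν (pp 2 v) (x.j2 u) :=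
  S.rn (((S.w1 h _ _).add (S.w1 h _ _)).add (S.w1 h _ _)) (S.p2 v).symm

theorem Set.j00 (S : x.Set X ν δ pp) (h : x.Near X ν δ u v) :
    x.E X ν (pp 0 (pp 0 v)) (x.j00 u) :=
  S.rn (S.w2 h _ _ _) (by
    simp only [S.p0, Derivation.map_smul]; push_cast; module)

theorem Set.j01 (S : x.Set X ν δ pp) (h : x.Near X ν δ u v) :
    x.E X ν (pp 0 (pp 1 v)) (x.j01 u) :=
  S.rn ((S.w2 h _ _ _).add (S.w2 h _ _ _)) (by
    simp only [S.p0, S.p1, map_add, Derivation.map_smul, S.comm 1 0]; push_cast; module)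

theorem Set.j02 (S : x.Set X ν δ pp) (h : x.Near X ν δ u v) :
    x.E X ν (pp 0 (pp 2 v)) (x.j02 u) :=
  S.rn (((S.w2 h _ _ _).add (S.w2 h _ _ _)).add (S.w2 h _ _ _)) (by
    simp only [S.p0, S.p2, map_add, Derivation.map_smul, S.comm 1 0, S.comm 2 0]
    push_cast; module)

theorem Set.j11 (S : x.Set X ν δ pp) (h : x.Near X ν δ u v) :
    x.E X ν (pp 1 (pp 1 v)) (x.j11 u) :=
  S.rn (((S.w2 h _ _ _).add (S.w2 h _ _ _)).add (S.w2 h _ _ _)) (by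
    simp only [S.p1, map_add, Derivation.map_smul, S.comm 1 0]; push_cast; module)

theorem Set.j12 (S : x.Set X ν δ pp) (h : x.Near X ν δ u v) :
    x.E X ν (pp 1 (pp 2 v)) (x.j12 u) :=
  S.rn (((((S.w2 h _ _ _).add (S.w2 h _ _ _)).add (S.w2 h _ _ _)).add (S.w2 h _ _ _)).add
    (S.w2 h _ _ _)) (by
    simp only [S.p1, S.p2, map_add, Derivation.map_smul, S.comm 1 0, S.comm 2 0, S.comm 2 1]
    push_cast; module)

theorem Set.j22 (S : x.Set X ν δ pp) (h : x.Near X ν δ u v) :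
    x.E X ν (pp 2 (pp 2 v)) (x.j22 u) :=
  S.rn ((((((S.w2 h _ _ _).add (S.w2 h _ _ _)).add (S.w2 h _ _ _)).add (S.w2 h _ _ _)).add
    (S.w2 h _ _ _)).add (S.w2 h _ _ _)) (by
    simp only [S.p2, map_add, Derivation.map_smul, S.comm 1 0, S.comm 2 0, S.comm 2 1]
    push_cast; module)

theorem Set.pcomm (S : x.Set X ν δ pp) (a b : I3) (u : K) : pp a (pp b u) = pp b (pp a u) := by
  fin_cases a <;> fin_cases b <;>
    simp only [Fin.zero_eta, Fin.mk_one, Fin.reduceFinMk, S.p0, S.p1, S.p2, map_add,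
      Derivation.map_smul, S.comm 1 0, S.comm 2 0, S.comm 2 1] <;> module

variable {v1 v2 v3 v4 : K} {a b c d : T} {w : W}

theorem Set.m (S : x.Set X ν δ pp) (ha : x.E X ν v1 a) (hb : x.E X ν v2 b) :
    x.E2 X ν (v1 * v2) (x.m a b) := EN.mul S.sg ha hb

theorem Set.r (S : x.Set X ν δ pp) (h : x.E2 X ν v1 w) (e : v1 = v) : x.E X ν v (x.r w) :=
  e ▸ rnd_en S.sg x.s h

theorem Set.dot (S : x.Set X ν δ pp) {A B : Fin 4 → K} {a b : Fin 4 → T}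
    (ha : ∀ k, x.E X ν (A k) (a k)) (hb : ∀ k, x.E X ν (B k) (b k)) :
    x.E2 X ν (∑ k, A k * B k) (x.dot a b) := by
  rw [Fin.sum_univ_four]
  exact (((S.m (ha 0) (hb 0)).add (S.m (ha 1) (hb 1))).add (S.m (ha 2) (hb 2))).add
    (S.m (ha 3) (hb 3))

theorem Set.d22 (S : x.Set X ν δ pp) (ha : x.E X ν v1 a) (hb : x.E X ν v2 b) (hc : x.E X ν v3 c)
    (hd : x.E X ν v4 d) (e : v1 * v2 - v3 * v4 = v) : x.E X ν v (x.d22 a b c d) :=
  S.r ((S.m ha hb).sub (S.m hc hd)) e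

theorem Set.dsq (S : x.Set X ν δ pp) {A : Fin 4 → K} {a : Fin 4 → T}
    (ha : ∀ k, x.E X ν (A k) (a k)) : x.E2 X ν (∑ k, A k * A k) (x.dsq a) := by
  simp only [Ar.dsq, sqr_eq]
  exact S.dot ha ha

theorem Set.d2s (S : x.Set X ν δ pp) (ha : x.E X ν v1 a) (hb : x.E X ν v2 b) (hc : x.E X ν v3 c)
    (e : v1 * v2 - v3 * v3 = v) : x.E X ν v (x.d2s a b c) :=
  S.r ((S.m ha hb).sub (EN.sqr S.sg hc)) e

theorem Set.rh (S : x.Set X ν δ pp) (h : x.E2 X ν v w) {U : ℕ}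
    (hU : (U : ZMod x.c.Q) = w.U * 2) : x.E X ν v (x.rh w U) :=
  rnd_en S.sg (x.s + 1) (by
    rw [show x.s + 1 + x.s = 1 + (x.s + x.s) by ring]
    refine (h.shl 1).setU ((ZMod.natCast_eq_natCast_iff _ _ _).1 ?_)
    simpa [W.shl, Nat.shiftLeft_eq] using hU)

theorem Set.dth (S : x.Set X ν δ pp) {A B : Fin 4 → K} {a b : Fin 4 → T}
    (ha : ∀ k, x.E X ν (A k) (a k)) (hb : ∀ k, x.E X ν (B k) (b k)) :
    x.E X ν (∑ k, A k * B k) (x.dth a b) := S.rh (S.dot ha hb) (by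
  simp only [Ar.sU, Ar.dsq, Ar.dot, Ar.m, W.add, Cfg.mul, Cfg.sqr, Cfg.sqU, Nat.add_eq, Nat.mul_eq,
    Nat.pow_eq, Nat.cast_add, Nat.cast_mul, Nat.cast_pow, z_land, z_ngU]
  ring)

theorem Set.d2h (S : x.Set X ν δ pp) (ha : x.E X ν v1 a) (hb : x.E X ν v2 b) (hc : x.E X ν v3 c)
    (hd : x.E X ν v4 d) : x.E X ν (v1 * v2 - v3 * v4) (x.d2h a b c d) :=
  S.rh ((S.m ha hb).sub (S.m hc hd)) (by
    simp only [Ar.sU, Ar.m, W.add, Cfg.sub, Cfg.neg, Cfg.mul, Cfg.sqr, Cfg.sqU, Nat.add_eq,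
      Nat.mul_eq, Nat.pow_eq, Nat.cast_add, Nat.cast_mul, Nat.cast_pow, z_land, z_ngU]
    ring)

variable (x X ν pp) in
/-- the enclosures of the geometric quantities -/
structure Geo (z : Fin 4 → Fn) (G : Fin 4 → K) : Prop where
  F : ∀ k, x.E X ν (G k) (x.F z k)
  t0 : ∀ k, x.E X ν (pp 0 (G k)) (x.t0 z k)
  t1 : ∀ k, x.E X ν (pp 1 (G k)) (x.t1 z k)
  t2 : ∀ k, x.E X ν (pp 2 (G k)) (x.t2 z k)
  f00 : ∀ k, x.E X ν (pp 0 (pp 0 (G k))) (x.f00 z k)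
  f01 : ∀ k, x.E X ν (pp 0 (pp 1 (G k))) (x.f01 z k)
  f02 : ∀ k, x.E X ν (pp 0 (pp 2 (G k))) (x.f02 z k)
  f11 : ∀ k, x.E X ν (pp 1 (pp 1 (G k))) (x.f11 z k)
  f12 : ∀ k, x.E X ν (pp 1 (pp 2 (G k))) (x.f12 z k)
  f22 : ∀ k, x.E X ν (pp 2 (pp 2 (G k))) (x.f22 z k)
  g00 : x.E X ν (Fm.jG pp G 0 0) (x.g00 z)
  g01 : x.E X ν (Fm.jG pp G 0 1) (x.g01 z)
  g02 : x.E X ν (Fm.jG pp G 0 2) (x.g02 z)
  g11 : x.E X ν (Fm.jG pp G 1 1) (x.g11 z)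
  g12 : x.E X ν (Fm.jG pp G 1 2) (x.g12 z)
  g22 : x.E X ν (Fm.jG pp G 2 2) (x.g22 z)
  a00 : x.E X ν (Fm.jA pp G 0 0) (x.a00 z)
  a01 : x.E X ν (Fm.jA pp G 0 1) (x.a01 z)
  a02 : x.E X ν (Fm.jA pp G 0 2) (x.a02 z)
  a11 : x.E X ν (Fm.jA pp G 1 1) (x.a11 z)
  a12 : x.E X ν (Fm.jA pp G 1 2) (x.a12 z)
  a22 : x.E X ν (Fm.jA pp G 2 2) (x.a22 z)
  n : ∀ k, x.E X ν (Fm.jN pp G k) (x.n z k)
  dt : x.E X ν (Fm.jD pp G) (x.dt z)
  zz : ∀ k, x.E X ν (Fm.jZ pp G k) (x.zz z k)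
  res : x.E X ν (Fm.jR pp G) (x.res z)

theorem Set.geo (S : x.Set X ν δ pp) {z : Fin 4 → Fn} {G : Fin 4 → K}
    (h : ∀ k, x.Near X ν δ (z k) (G k)) : x.Geo X ν pp z G := by
  have F := fun k => S.j (h k)
  have t0 := fun k => S.j0 (h k)
  have t1 := fun k => S.j1 (h k)
  have t2 := fun k => S.j2 (h k)
  have f00 := fun k => S.j00 (h k)
  have f01 := fun k => S.j01 (h k)
  have f02 := fun k => S.j02 (h k)
  have f11 := fun k => S.j11 (h k)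
  have f12 := fun k => S.j12 (h k)
  have f22 := fun k => S.j22 (h k)
  have g00 : x.E X ν (Fm.jG pp G 0 0) (x.g00 z) := S.r (S.dsq t0) rfl
  have g01 : x.E X ν (Fm.jG pp G 0 1) (x.g01 z) := S.dth t0 t1
  have g02 : x.E X ν (Fm.jG pp G 0 2) (x.g02 z) := S.dth t0 t2
  have g11 : x.E X ν (Fm.jG pp G 1 1) (x.g11 z) := S.r (S.dsq t1) rfl
  have g12 : x.E X ν (Fm.jG pp G 1 2) (x.g12 z) := S.dth t1 t2
  have g22 : x.E X ν (Fm.jG pp G 2 2) (x.g22 z) := S.r (S.dsq t2) rfl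
  have s : ∀ a b, Fm.jG pp G a b = Fm.jG pp G b a := fun a b =>
    congrFun (congrFun (Fm.jG_symm pp G) b) a
  have e : Fm.jA pp G = _ := Matrix.adjugate_fin_three _
  have a00 : x.E X ν (Fm.jA pp G 0 0) (x.a00 z) :=
    S.d2s g11 g22 g12 (by simp [e, s 2 1])
  have a11 : x.E X ν (Fm.jA pp G 1 1) (x.a11 z) :=
    S.d2s g00 g22 g02 (by simp [e, s 2 0])
  have a22 : x.E X ν (Fm.jA pp G 2 2) (x.a22 z) :=
    S.d2s g00 g11 g01 (by simp [e, s 1 0])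
  have a01 : x.E X ν (Fm.jA pp G 0 1) (x.a01 z) :=
    S.d22 g02 g12 g01 g22 (by simp [e, s 2 1]; ring)
  have a02 : x.E X ν (Fm.jA pp G 0 2) (x.a02 z) :=
    S.d22 g01 g12 g02 g11 (by simp [e])
  have a12 : x.E X ν (Fm.jA pp G 1 2) (x.a12 z) :=
    S.d22 g01 g02 g00 g12 (by simp [e, s 1 0]; ring)
  have mi : ∀ p q, x.E X ν _ (x.mi z p q) := fun p q => S.d2h (t1 p) (t2 q) (t1 q) (t2 p)
  have mn : ∀ p q r, x.E2 X ν (Pool.Agent.MP48470b.An.mn (Fm.jT pp G) p q r) (x.mn z p q r) := fun p q r =>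
    EW.congr (((S.m (t0 p) (mi q r)).add (S.m (t0 r) (mi p q))).sub (S.m (t0 q) (mi p r)))
      (by simp only [Pool.Agent.MP48470b.An.mn, Fm.jT_apply]; ring)
  have n : ∀ k, x.E X ν (Fm.jN pp G k) (x.n z k) := fun k => by
    fin_cases k
    exacts [S.r (mn 1 2 3) rfl, S.r (mn 0 2 3).neg rfl, S.r (mn 0 1 3) rfl,
      S.r (mn 0 1 2).neg rfl]
  have dt : x.E X ν (Fm.jD pp G) (x.dt z) := S.r (S.dsq n) (Fm.jN_sq pp G)
  have zz : ∀ k, x.E X ν (Fm.jZ pp G k) (x.zz z k) := fun k => by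
    have h1 := EW.shl (((S.m a01 (f01 k)).add (S.m a02 (f02 k))).add (S.m a12 (f12 k))) 1
    have h2 := ew_two h1
    have h3 := EW.shl ((((S.m a00 (f00 k)).add (S.m a11 (f11 k))).add (S.m a22 (f22 k))).add h2) 1
    have h4 := EW.half 1 (S.m dt (F k))
    rw [add_comm _ 1] at h4
    refine (rnd_en (s := x.s) S.sg (x.s + 1)
      (by rw [show x.s + 1 + x.s = 1 + (x.s + x.s) by ring]; exact h3.add h4)).congr ?_
    simp only [Fm.jZ, Fin.sum_univ_three, Fm.jA_symm pp G 1 0, Fm.jA_symm pp G 2 0,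
      Fm.jA_symm pp G 2 1, S.pcomm 1 0, S.pcomm 2 0, S.pcomm 2 1, hf, Algebra.smul_def, pow_one,
      one_div, map_ofNat]
    ring
  exact ⟨F, t0, t1, t2, f00, f01, f02, f11, f12, f22, g00, g01, g02, g11, g12, g22, a00, a01, a02,
    a11, a12, a22, n, dt, zz, S.r (S.dot zz n) (Fm.jR_eq pp G).symm⟩

theorem Set.resY (S : x.Set X ν δ pp) {z : Fin 4 → Fn} {G : Fin 4 → K} (H : x.Geo X ν pp z G)
    {uy : Fn} {y : K} (hy : x.Near X ν δ uy y) :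
    x.E X ν (y ^ 3 * Fm.jR pp G) (x.resY z uy) := by
  have my : ∀ {v a}, x.E X ν v a → x.E X ν (y * v) (x.my uy a) := fun h =>
    S.r (S.m (S.j hy) h) rfl
  have ty := fun k => my (H.t0 k)
  have h0 : ∀ b, ∑ k, y * pp 0 (G k) * pp b (G k) = y * Fm.jG pp G 0 b := fun b => by
    simp only [Fm.jG_apply, mul_sum, mul_assoc]
  have h00 : x.E X ν _ (x.h00 z uy) := S.r (S.dot ty H.t0) (h0 0)
  have h01 : x.E X ν _ (x.h01 z uy) := S.r (S.dot ty H.t1) (h0 1)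
  have h02 : x.E X ν _ (x.h02 z uy) := S.r (S.dot ty H.t2) (h0 2)
  have h11 : x.E X ν _ (x.h11 z uy) := my H.g11
  have h12 : x.E X ν _ (x.h12 z uy) := my H.g12
  have h22 : x.E X ν _ (x.h22 z uy) := my H.g22
  have s : ∀ a b, Fm.jG pp G a b = Fm.jG pp G b a := fun a b =>
    congrFun (congrFun (Fm.jG_symm pp G) b) a
  have e : Fm.jA pp G = _ := Matrix.adjugate_fin_three _
  have k00 : x.E X ν (y ^ 2 * Fm.jA pp G 0 0) (x.k00 z uy) :=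
    S.d2s h11 h22 h12 (by simp [e, s 2 1]; ring)
  have k11 : x.E X ν (y ^ 2 * Fm.jA pp G 1 1) (x.k11 z uy) :=
    S.d2s h00 h22 h02 (by simp [e, s 2 0]; ring)
  have k22 : x.E X ν (y ^ 2 * Fm.jA pp G 2 2) (x.k22 z uy) :=
    S.d2s h00 h11 h01 (by simp [e, s 1 0]; ring)
  have k01 : x.E X ν (y ^ 2 * Fm.jA pp G 0 1) (x.k01 z uy) :=
    S.d22 h02 h12 h01 h22 (by simp [e, s 2 1]; ring)
  have k02 : x.E X ν (y ^ 2 * Fm.jA pp G 0 2) (x.k02 z uy) :=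
    S.d22 h01 h12 h02 h11 (by simp [e]; ring)
  have k12 : x.E X ν (y ^ 2 * Fm.jA pp G 1 2) (x.k12 z uy) :=
    S.d22 h01 h02 h00 h12 (by simp [e, s 1 0]; ring)
  have mi : ∀ p q, x.E X ν _ (x.mi z p q) := fun p q => S.d2h (H.t1 p) (H.t2 q) (H.t1 q) (H.t2 p)
  have mn : ∀ p q r, x.E2 X ν (y * Pool.Agent.MP48470b.An.mn (Fm.jT pp G) p q r)
      (x.my3 z uy p q r) := fun p q r =>
    EW.congr (((S.m (ty p) (mi q r)).add (S.m (ty r) (mi p q))).sub (S.m (ty q) (mi p r)))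
      (by simp only [Pool.Agent.MP48470b.An.mn, Fm.jT_apply]; ring)
  have n : ∀ k, x.E X ν (y * Fm.jN pp G k) (x.ny z uy k) := fun k => by
    fin_cases k
    exacts [S.r (mn 1 2 3) rfl, S.r (mn 0 2 3).neg (mul_neg _ _).symm, S.r (mn 0 1 3) rfl,
      S.r (mn 0 1 2).neg (mul_neg _ _).symm]
  have dt : x.E X ν (y ^ 2 * Fm.jD pp G) (x.dy z uy) := S.r (S.dsq n) (by
    rw [← Fm.jN_sq, mul_sum]; exact sum_congr rfl fun _ _ => by ring)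
  have zz : ∀ k, x.E X ν (y ^ 2 * Fm.jZ pp G k) (x.zy z uy k) := fun k => by
    have h1 := EW.shl (((S.m k01 (H.f01 k)).add (S.m k02 (H.f02 k))).add (S.m k12 (H.f12 k))) 1
    have h2 := ew_two h1
    have h3 := EW.shl ((((S.m k00 (H.f00 k)).add (S.m k11 (H.f11 k))).add
      (S.m k22 (H.f22 k))).add h2) 1
    have h4 := EW.half 1 (S.m dt (H.F k))
    rw [add_comm _ 1] at h4
    refine (rnd_en (s := x.s) S.sg (x.s + 1)
      (by rw [show x.s + 1 + x.s = 1 + (x.s + x.s) by ring]; exact h3.add h4)).congr ?_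
    simp only [Fm.jZ, Fin.sum_univ_three, Fm.jA_symm pp G 1 0, Fm.jA_symm pp G 2 0,
      Fm.jA_symm pp G 2 1, S.pcomm 1 0, S.pcomm 2 0, S.pcomm 2 1, hf, Algebra.smul_def, pow_one,
      one_div, map_ofNat]
    ring
  exact S.r (S.dot zz n) (by rw [Fm.jR_eq, mul_sum]; exact sum_congr rfl fun _ _ => by ring)

end Ar

end Pool.Agent.MP_48470b_gt.Ck
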