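import Pool.Agent.MP_48470b_gt.Ck.X

/-! Executable definitions: normalised geometric models and the numbers read from them. -/

namespace Pool.Agent.MP_48470b_gt.Ck

open TT

/-- approximate square root -/
def sq0 (n : Nat) : Nat :=
  Nat.rec (Nat.pow 2 (Nat.log2 n / 2 + 1)) (fun _ y => (y + n / y) / 2) 7 + 1
/-- upper bound for the square root -/
def sqU (n : Nat) : Nat := cond (Nat.ble n (sq0 n * sq0 n)) (sq0 n) n
/-- square -/
def s2 (n : Nat) : Nat := Nat.mul n n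
def mx (a b : Nat) : Nat := cond (Nat.ble a b) b a
/-- bound for the size of a model -/
def mag (a : T) : Nat := a.n + a.r
def s3 {α : Type} (a b c : α) (i : Fin 3) : α := cond (Nat.beq i.1 0) a (cond (Nat.beq i.1 1) b c)
/-- symmetric family from its upper part -/
def sy {α : Type} {n : Nat} (F : Fin n → Fin n → α) (i j : Fin n) : α :=
  cond (Nat.ble i.1 j.1) (F i j) (F j i)
/-- sum over a symmetric family -/
def sm3 (F : Fin 3 → Fin 3 → Nat) : Nat := F 0 0 + F 1 1 + F 2 2 + 2 * (F 0 1 + F 0 2 + F 1 2)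
def sm4 (F : Fin 4 → Fin 4 → Nat) : Nat :=
  F 0 0 + F 1 1 + F 2 2 + F 3 3 + 2 * (F 0 1 + F 0 2 + F 0 3 + F 1 2 + F 1 3 + F 2 3)

namespace Ar

variable (x : Ar)

/-- `k / d` with the scale of the run -/
def qz (k : Int) (d : Nat) : Int := k * Int.ofNat (Nat.pow 2 x.s) / Int.ofNat d
/-- the affine function `k0 X 0 + k1 X 1 + k2 X 2 + k3` divided by `d` -/
def af (k0 k1 k2 k3 : Int) (d : Nat) : T := x.c.rnd 0
  (((((zs x.c (x.qz k0 d) (x.c.var 0 1)).add (zs x.c (x.qz k1 d) (x.c.var 1 1))).add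
    (zs x.c (x.qz k2 d) (x.c.var 2 1))).add (zs x.c (x.qz k3 d) (W.const 1))).addr 4)
/-- the multiple `k / d` of a model, before rounding -/
def sw (k : Int) (d : Nat) (a : T) : W := (zs x.c (x.qz k d) a.lift).addr (mag a)
def sc (k : Int) (d : Nat) (a : T) : T := x.r (x.sw k d a)
/-- the constant `k / d` with the scale of a product -/
def cw (k : Int) (d : Nat) : W := (zs x.c (k * Int.ofNat (Nat.pow 2 (x.s + x.s)) / Int.ofNat d) (W.const 1)).addr 1
/-- a model with the scale of a product -/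
def up (a : T) : W := a.lift.shl x.s
/-- normal form of a wide model with the scale of the run -/
def r0 (w : W) : T := x.c.rnd 0 w
def mr (a b : T) : T := x.r (x.m a b)
def d3 (a b : Fin 3 → T) : W :=
  ((x.m (a 0) (b 0)).add (x.m (a 1) (b 1))).add (x.m (a 2) (b 2))

/-- one step for the inverse square root -/
def nw (D y : T) : T := (x.c.rnd (x.s + 1) (x.c.sub ((x.up y).smul 3)
  (x.m y (x.mr (x.mr y y) D)))).setr 0
/-- candidate for the inverse square root -/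
def isq (D : T) : T := x.nw D (x.nw D (x.j x.uy))
/-- bound for the defect of the candidate -/
def isE (D : T) : Nat :=
  mag (x.r (x.c.sub (x.m (x.mr (x.isq D) (x.isq D)) D) (W.const (1 <<< (x.s + x.s)))))
def isOk (D : T) : Bool :=
  Nat.ble (8 * x.isE D) (Nat.pow 2 x.s) &&
    Nat.blt (x.c.rad (x.isq D) + Nat.pow 2 (x.c.u - 1)) (x.c.c0 (x.isq D))
/-- inverse square root -/
def is (D : T) : T := (x.isq D).setr ((5 * x.isE D * (x.isq D).n) >>> (x.s + 3) + 1)

/-- determinant and adjugate of the frame -/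
def db : Int := x.b00 * x.b11 * x.b22
def ib (a i : Fin 3) : Int := s3 (s3 (x.b11 * x.b22) (-(x.b01 * x.b22)) (x.b01 * x.b12 - x.b02 * x.b11) i)
  (s3 0 (x.b00 * x.b22) (-(x.b00 * x.b12)) i) (s3 0 0 (x.b00 * x.b11) i) a
/-- product of the radii, with or without one factor -/
def hp (hs : Fin 3 → Nat) : Nat := hs 0 * hs 1 * hs 2
def hq (hs : Fin 3 → Nat) (i : Fin 3) : Nat := s3 (hs 1 * hs 2) (hs 0 * hs 2) (hs 0 * hs 1) i
def iq (hs : Fin 3 → Nat) (a i : Fin 3) : Int := -x.ib a i * Int.ofNat (hq hs i)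
def dq (hs : Fin 3 → Nat) : Nat := x.db.natAbs * hp hs
/-- the coordinate `hs i * X i + cs i` divided by `512` -/
def xc (hs cs : Fin 3 → Nat) (i : Fin 3) : T :=
  x.af (s3 (Int.ofNat (hs 0)) 0 0 i) (s3 0 (Int.ofNat (hs 1)) 0 i) (s3 0 0 (Int.ofNat (hs 2)) i)
    (Int.ofNat (cs i)) 512
/-- the radial field in the frame -/
def et (hs cs : Fin 3 → Nat) (a : Fin 3) : T :=
  x.af (x.iq hs a 0 * Int.ofNat (hs 0)) (x.iq hs a 1 * Int.ofNat (hs 1))
    (x.iq hs a 2 * Int.ofNat (hs 2)) (x.iq hs a 0 * Int.ofNat (cs 0) +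
      x.iq hs a 1 * Int.ofNat (cs 1) + x.iq hs a 2 * Int.ofNat (cs 2)) (x.dq hs)
/-- the inverse round metric in the frame -/
def mm' (hs cs : Fin 3 → Nat) (a b : Fin 3) : T :=
  x.r ((x.cw ((x.iq hs a 0 * x.iq hs b 0 + x.iq hs a 1 * x.iq hs b 1 + x.iq hs a 2 * x.iq hs b 2) *
    262144) (s2 (x.dq hs))).add (x.m (x.et hs cs a) (x.et hs cs b)))
def mm (hs cs : Fin 3 → Nat) (a b : Fin 3) : T := sy (x.mm' hs cs) a b

variable (z : Fin 4 → Fn)

def tt (a : Fin 3) (k : Fin 4) : T := s3 (x.t0 z k) (x.t1 z k) (x.t2 z k) a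
def fs (a b : Fin 3) (k : Fin 4) : T := s3 (s3 (x.f00 z k) (x.f01 z k) (x.f02 z k) b)
  (s3 (x.f01 z k) (x.f11 z k) (x.f12 z k) b) (s3 (x.f02 z k) (x.f12 z k) (x.f22 z k) b) a
def gg (a b : Fin 3) : T := s3 (s3 (x.g00 z) (x.g01 z) (x.g02 z) b)
  (s3 (x.g01 z) (x.g11 z) (x.g12 z) b) (s3 (x.g02 z) (x.g12 z) (x.g22 z) b) a
def ad (a b : Fin 3) : T := s3 (s3 (x.a00 z) (x.a01 z) (x.a02 z) b)
  (s3 (x.a01 z) (x.a11 z) (x.a12 z) b) (s3 (x.a02 z) (x.a12 z) (x.a22 z) b) a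

/-- the normalising factor and its test -/
def q : T := x.is (x.dt z)
def qOk : Bool := x.isOk (x.dt z)
def q2 : T := x.mr (x.q z) (x.q z)
/-- inverse metric -/
def gi' (a b : Fin 3) : T := x.mr (x.q2 z) (x.ad z a b)
def gi (a b : Fin 3) : T := sy (x.gi' z) a b
/-- unit normal -/
def nn (k : Fin 4) : T := x.mr (x.q z) (x.n z k)
/-- dual vectors -/
def u (i : Fin 4) (a : Fin 3) : T := x.r (x.d3 (fun b => x.tt z b i) fun b => x.gi z b a)
/-- second fundamental form -/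
def hh' (a b : Fin 3) : T := x.r (x.dot (x.fs z a b) (x.nn z))
def hh (a b : Fin 3) : T := sy (x.hh' z) a b
def w (i : Fin 4) (b : Fin 3) : T := x.r (x.d3 (x.u z i) fun a => x.hh z a b)
/-- shape operator -/
def A' (i j : Fin 4) : T := x.r (x.d3 (x.w z i) (x.u z j))
def A (i j : Fin 4) : T := sy (x.A' z) i j
def A2 (i j : Fin 4) : W := x.m (x.A' z i j) (x.A' z i j)
/-- square of the shape operator, before and after rounding -/
def aw : W := ((((x.A2 z 0 0).add (x.A2 z 1 1)).add (x.A2 z 2 2)).add (x.A2 z 3 3)).add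
  (((((((x.A2 z 0 1).add (x.A2 z 0 2)).add (x.A2 z 0 3)).add (x.A2 z 1 2)).add
    (x.A2 z 1 3)).add (x.A2 z 2 3)).smul 2)
def aa : T := x.r (x.aw z)
/-- square of the position -/
def ff : T := x.r (x.dot (x.F z) (x.F z))
/-- support function -/
def lm : T := x.r (x.dot (x.F z) (x.nn z))
/-- mean curvature -/
def hm : T := x.r ((((x.m (x.gi' z 0 0) (x.hh' z 0 0)).add (x.m (x.gi' z 1 1) (x.hh' z 1 1))).add
  (x.m (x.gi' z 2 2) (x.hh' z 2 2))).add ((((x.m (x.gi' z 0 1) (x.hh' z 0 1)).add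
  (x.m (x.gi' z 0 2) (x.hh' z 0 2))).add (x.m (x.gi' z 1 2) (x.hh' z 1 2))).smul 2))
/-- volume element of the frame -/
def jj : T := x.mr (x.q z) (x.dt z)

/-! ### numbers, all with the scale `2 ^ s` except `be` and `la` -/

/-- size of the frame -/
def be : Nat := sqU (mx (s2 x.b00.natAbs + s2 x.b01.natAbs + s2 x.b02.natAbs)
  (mx (s2 x.b11.natAbs + s2 x.b12.natAbs) (s2 x.b22.natAbs)))
/-- cost of a derivative for the seminorm with parameter `2 ^ -L` -/
def la (L : Nat) : Nat := x.be <<< L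
def kr (a : Fin 3) : Nat := mag (x.gi z a 0) + mag (x.gi z a 1) + mag (x.gi z a 2)
/-- bound for the inverse metric -/
def kp : Nat := sqU (mx (x.kr z 0) (mx (x.kr z 1) (x.kr z 2)) <<< x.s)
/-- bound for the second jets -/
def m2 : Nat := sqU (sm3 fun a b =>
  s2 (mag (x.fs z a b 0)) + s2 (mag (x.fs z a b 1)) + s2 (mag (x.fs z a b 2)) +
    s2 (mag (x.fs z a b 3)))
/-- squares of the derivatives of the polynomial of a model -/
def dp (a : T) : Nat := s2 (mag (x.r0 (zs x.c x.b00 (x.c.der 0 0 a)))) +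
  s2 (mag (x.r0 ((zs x.c x.b01 (x.c.der 0 0 a)).add (zs x.c x.b11 (x.c.der 1 0 a))))) +
  s2 (mag (x.r0 (((zs x.c x.b02 (x.c.der 0 0 a)).add (zs x.c x.b12 (x.c.der 1 0 a))).add
    (zs x.c x.b22 (x.c.der 2 0 a)))))
def ta : Nat := sqU (sm4 fun i j => x.dp (x.A' z i j))
def ro : Nat := sqU (sm4 fun i j => s2 (x.A' z i j).r)
def N1 (L : Nat) : Nat := x.ta z + (x.la L * x.ro z) / 2 + 1
def N2 (L : Nat) : Nat := (x.la L * x.ta z) / 2 + 1 + s2 (x.la L) * x.ro z
/-- bounds for the first and second derivatives of the shape operator -/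
def a1 (L : Nat) : Nat := (x.kp z * x.N1 z L) >>> x.s + 1
def a2 (L : Nat) : Nat :=
  (s2 (x.kp z) * (x.N2 z L + (2 * x.m2 z * x.a1 z L) >>> x.s + 1)) >>> (x.s + x.s) + 1

end Ar

end Pool.Agent.MP_48470b_gt.Ck
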