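import Pool.Agent.MP_48470b_gt.Ck.Jets
import Pool.Agent.MP_48470b_gt.Ck.Lo0X
import Pool.Agent.MP_48470b_gt.Dic.Red2

/-! Soundness of the normalised geometric models. -/

open Finset
open scoped NNReal

namespace Pool.Agent.MP_48470b_gt.Ck

open TT TT.Cfg Dic Pool.Agent.MP48470b.An

theorem le_sqU (n : ℕ) : n ≤ sqU n * sqU n := by
  unfold sqU
  cases e : Nat.ble n (sq0 n * sq0 n)
  · exact Nat.le_mul_self n
  · exact Nat.le_of_ble_eq_true e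

theorem le_sqU' (n : ℕ) : (n : ℝ) ≤ (sqU n : ℝ) ^ 2 := by
  rw [sq]; exact_mod_cast le_sqU n

theorem mx_eq (a b : ℕ) : mx a b = max a b := by
  unfold mx
  cases e : Nat.ble a b
  · exact (max_eq_left (Nat.not_le.1 (Nat.not_le_of_not_ble_eq_true (by simp [e]))).le).symm
  · exact (max_eq_right (Nat.le_of_ble_eq_true e)).symm

theorem s2_cast (n : ℕ) : (s2 n : ℝ) = (n : ℝ) ^ 2 := by simp [s2, sq]

theorem sy_of {α : Type} {n : ℕ} {F : Fin n → Fin n → α} {P : Fin n → Fin n → α → Prop}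
    (h : ∀ i j, P i j (F i j)) (hs : ∀ i j a, P i j a → P j i a) (i j : Fin n) :
    P i j (sy F i j) := by
  unfold sy
  cases Nat.ble i.1 j.1
  exacts [hs _ _ _ (h j i), h i j]

theorem le_shr (n k : ℕ) : (n : ℝ) ≤ (n >>> k + 1 : ℕ) * 2 ^ k := by
  rw [Nat.shiftRight_eq_div_pow]
  exact_mod_cast (Nat.lt_mul_div_succ n (Nat.two_pow_pos k)).le.trans_eq (mul_comm _ _)

theorem div_err (k : ℤ) (d : ℕ) : |(k : ℝ) / d - ((k / Int.ofNat d : ℤ) : ℝ)| ≤ 1 := by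
  have e : k / Int.ofNat d = ⌊(k : ℝ) / d⌋ := by
    rw [Int.floor_div_natCast, Int.floor_intCast]; rfl
  rw [e, ← Int.fract, abs_of_nonneg (Int.fract_nonneg _)]
  exact (Int.fract_lt_one _).le

/-- the square root test with a sharper constant -/
theorem nu_sqrt' {A : Type*} [CommRing A] [Algebra ℝ A] (φ : A →ₐ[ℝ] ℝ)
    (d : I3 → Derivation ℝ A A) (lam : ℝ≥0) {q D y : A} (hq : q ^ 2 * D = 1) (q0 : 0 < φ q)
    (y0 : 0 < φ y) {k : ℕ} {ε : ℝ} (h : nu φ d lam k (y ^ 2 * D - 1) ≤ ε) (hε : ε ≤ 1 / 8) :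
    nu φ d lam k (q - y) ≤ 5 / 8 * ε * nu φ d lam k y := by
  have h1 : (y * (q * D) - 1) * (y * (q * D) - 1 + 2) = y ^ 2 * D - 1 := by
    linear_combination y ^ 2 * D * hq
  have h2 : 0 < φ D := by
    have := congrArg φ hq
    rw [map_mul, map_pow, map_one] at this
    exact pos_of_mul_pos_right (this ▸ one_pos) (sq_nonneg _)
  have h3 := (nu_sqrt_aux φ d lam h1 (by simp; positivity) k (h.trans (by linarith))).trans h
  have h4 : q - y = -((q - y) * (y * (q * D) - 1) + y * (y * (q * D) - 1)) := by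
    linear_combination y * hq
  generalize y * (q * D) - 1 = w at h1 h3 h4
  have e1 : (2 : ℝ) • w = (y ^ 2 * D - 1) - w * w := by rw [← h1, two_smul]; ring
  have e2 := map_sub_le_add (nu φ d lam k) (y ^ 2 * D - 1) (w * w)
  rw [← e1, map_smul_eq_mul, Real.norm_two] at e2
  have e3 := nu_mul φ d lam k w w
  have h5 := map_add_le_add (nu φ d lam k) ((q - y) * w) (y * w)
  rw [← map_neg_eq_map, ← h4] at h5
  have h6 := nu_mul φ d lam k (q - y) w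
  have h7 := nu_mul φ d lam k y w
  have p1 := apply_nonneg (nu φ d lam k) w
  have p2 := apply_nonneg (nu φ d lam k) y
  have p3 := apply_nonneg (nu φ d lam k) (q - y)
  generalize nu φ d lam k w = a at *
  have e4 : a ≤ 9 / 16 * ε := by nlinarith
  have e5 := mul_le_mul_of_nonneg_left e4 p2
  have e6 := mul_le_mul_of_nonneg_left (e4.trans (show _ ≤ 9 / 128 by linarith)) p3
  nlinarith [mul_nonneg (p1.trans h3) p2]

namespace Ar

variable {x : Ar} {K : Type*} [CommRing K] [Algebra ℝ K] {X : Fin 3 → K} {ν : Seminorm ℝ K}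
  {δ pp : I3 → Derivation ℝ K K} {v v1 v2 : K} {a b : T} {w : W}

theorem E.le (S : x.Set X ν δ pp) (h : x.E X ν v a) : 2 ^ x.s * ν v ≤ mag a := EN.le S.sg.sem h

theorem Set.en (S : x.Set X ν δ pp) (h : x.c.ET X ν x.s v a) : x.E X ν v a := EN.of' S.sg.ok h

theorem Set.rt (S : x.Set X ν δ pp) (h : x.E2 X ν v1 w) (e : v1 = v) :
    x.c.ET X ν x.s v (x.r w) := e ▸ EW.rnd S.sg x.s h

theorem Set.r0 (S : x.Set X ν δ pp) {s : ℕ} (h : x.c.EW X ν s v w) : x.c.ET X ν s v (x.r0 w) :=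
  EW.rnd S.sg 0 (by rwa [zero_add])

theorem Set.mr (S : x.Set X ν δ pp) (ha : x.E X ν v1 a) (hb : x.E X ν v2 b) :
    x.E X ν (v1 * v2) (x.mr a b) := S.r (S.m ha hb) rfl

theorem Set.d3 (S : x.Set X ν δ pp) {A B : Fin 3 → K} {a b : Fin 3 → T}
    (ha : ∀ k, x.E X ν (A k) (a k)) (hb : ∀ k, x.E X ν (B k) (b k)) :
    x.E2 X ν (∑ k, A k * B k) (x.d3 a b) := by
  rw [Fin.sum_univ_three]
  exact ((S.m (ha 0) (hb 0)).add (S.m (ha 1) (hb 1))).add (S.m (ha 2) (hb 2))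

theorem E.up (h : x.E X ν v a) : x.E2 X ν v (x.up a) := EW.shl h.lift x.s

/-- a rounded multiple of a function -/
theorem ew_q {c : Cfg} {s t : ℕ} (h : c.EW X ν t v w) (k : ℤ) (d : ℕ) {e : ℕ}
    (he : 2 ^ t * ν v ≤ e) : c.EW X ν (s + t) (((k : ℝ) / d) • v)
      ((zs c (k * Int.ofNat (Nat.pow 2 s) / Int.ofNat d) w).addr e) := by
  have h1 := (EW.zs h (k * Int.ofNat (Nat.pow 2 s) / Int.ofNat d)).half s
  have h2 := div_err (k * Int.ofNat (Nat.pow 2 s)) d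
  rw [add_comm] at h1
  refine h1.addr ?_
  generalize ((k * Int.ofNat (Nat.pow 2 s) / Int.ofNat d : ℤ) : ℝ) = m at h2 ⊢
  rw [smul_smul, ← sub_smul, map_smul_eq_mul, Real.norm_eq_abs, pow_add,
    show (k : ℝ) / d - (2 ^ s)⁻¹ * m = (2 ^ s)⁻¹ * (((k * Int.ofNat (Nat.pow 2 s) : ℤ) : ℝ) / d - m) by
      simp; field_simp, abs_mul, abs_of_pos (by positivity)]
  have h3 := mul_le_mul h2 he (by positivity) zero_le_one
  calc _ = _ := by field_simp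
    _ ≤ _ := h3
    _ = _ := one_mul _

theorem Set.sw (S : x.Set X ν δ pp) (h : x.E X ν v a) (k : ℤ) (d : ℕ) :
    x.E2 X ν (((k : ℝ) / d) • v) (x.sw k d a) := ew_q h.lift k d (h.le S)

theorem Set.sc (S : x.Set X ν δ pp) (h : x.E X ν v a) (k : ℤ) (d : ℕ) :
    x.E X ν (((k : ℝ) / d) • v) (x.sc k d a) := S.r (S.sw h k d) rfl

theorem Set.one (S : x.Set X ν δ pp) : x.c.EW X ν 0 1 (W.const 1) := by
  simpa [EW] using const (X := X) (ν := ν) S.sg.ok 1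

theorem Set.var (S : x.Set X ν δ pp) (i : Fin 3) : x.c.EW X ν 0 (X i) (x.c.var i 1) := by
  simpa [EW] using var_enc (X := X) (ν := ν) S.sg.ok i 1

theorem Set.cw (S : x.Set X ν δ pp) (k : ℤ) (d : ℕ) :
    x.E2 X ν (algebraMap ℝ K (k / d)) (x.cw k d) := by
  rw [Algebra.algebraMap_eq_smul_one]
  exact ew_q (s := x.s + x.s) S.one k d (by simpa using S.sg.sem.one)

theorem Set.af (S : x.Set X ν δ pp) (k0 k1 k2 k3 : ℤ) (d : ℕ) :
    x.c.ET X ν x.s (((k0 : ℝ) / d) • X 0 + ((k1 : ℝ) / d) • X 1 + ((k2 : ℝ) / d) • X 2 +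
      algebraMap ℝ K (k3 / d)) (x.af k0 k1 k2 k3 d) := by
  have h := fun i k => ew_q (s := x.s) (e := 1) (S.var i) k d (by simpa using S.sg.sem.var i)
  have h3 := ew_q (s := x.s) (e := 1) S.one k3 d (by simpa using S.sg.sem.one)
  obtain ⟨f, h1, h2⟩ := (((h 0 k0).add (h 1 k1)).add (h 2 k2)).add h3
  rw [Algebra.algebraMap_eq_smul_one]
  refine S.r0 ⟨f, h1, h2.trans_eq ?_⟩
  refine congrArg Nat.cast ?_
  change _ + 1 + (_ + 1) + (_ + 1) + (_ + 1) = _ + _ + _ + _ + 4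
  unfold Ar.qz
  ring

section isq

variable {φ : K →ₐ[ℝ] ℝ} {lam : ℝ≥0} {k : ℕ} {D : K}

theorem isq_wf (x : Ar) (a : T) : x.c.WF (x.isq a) := (wf_rnd _ _).setr 0

theorem Set.is0 (S : x.Set X (nu φ δ lam k) δ pp) (hD : x.E X (nu φ δ lam k) D a)
    (ok : x.isOk a = true) : ∃ y, (2 : ℝ) ^ x.s • y = x.c.pol X (x.isq a) ∧ 0 < φ y ∧
      2 ^ x.s * nu φ δ lam k y ≤ (x.isq a).n ∧
      2 ^ x.s * nu φ δ lam k (y ^ 2 * D - 1) ≤ x.isE a ∧ 8 * (x.isE a : ℝ) ≤ 2 ^ x.s := by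
  rw [isOk, Bool.and_eq_true] at ok
  have e : (2 : ℝ) ^ x.s • ((2 : ℝ) ^ x.s)⁻¹ • x.c.pol X (x.isq a) = x.c.pol X (x.isq a) :=
    smul_inv_smul₀ (by positivity) _
  have hy : x.c.ET X (nu φ δ lam k) x.s (((2 : ℝ) ^ x.s)⁻¹ • x.c.pol X (x.isq a)) (x.isq a) := by
    rw [ET, e]; exact (isq_wf x a).enc
  refine ⟨_, e, ?_, (S.en hy).le S, ?_, by exact_mod_cast Nat.le_of_ble_eq_true ok.1⟩
  · have h1 := (abs_le_nu φ δ lam k _).trans (Enc.rad S.sg.ok S.sg.sem hy)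
    have h2 : ((x.c.rad (x.isq a) + 2 ^ (x.c.u - 1) + 1 : ℕ) : ℝ) ≤ x.c.c0 (x.isq a) :=
      Nat.cast_le.2 (Nat.le_of_ble_eq_true ok.2)
    rw [map_sub, map_smul, map_smul φ _ 1, map_one, smul_eq_mul, smul_eq_mul] at h1
    push_cast at h2
    exact pos_of_mul_pos_right (a := (2 : ℝ) ^ x.s) (by linarith [(abs_le.1 h1).1]) (by positivity)
  · exact (S.r ((S.m (S.mr (S.en hy) (S.en hy)) hD).sub (EW.nat S.sg.ok _ 1))
      (by rw [sq, Nat.cast_one])).le S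

/-- the test gives positivity -/
theorem Set.is_pos (S : x.Set X (nu φ δ lam k) δ pp) (hD : x.E X (nu φ δ lam k) D a)
    (ok : x.isOk a = true) : 0 < φ D := by
  obtain ⟨y, -, -, -, h1, h2⟩ := S.is0 hD ok
  have h3 := (abs_le.1 (abs_le_nu φ δ lam k (y ^ 2 * D - 1))).1
  rw [map_sub φ, map_mul, map_pow, map_one] at h3
  have h4 : (0 : ℝ) < 2 ^ x.s := by positivity
  exact pos_of_mul_pos_right (a := φ y ^ 2) (by nlinarith) (sq_nonneg _)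

theorem Set.is (S : x.Set X (nu φ δ lam k) δ pp) (hD : x.E X (nu φ δ lam k) D a)
    (ok : x.isOk a = true) {q : K} (hq : q ^ 2 * D = 1) (q0 : 0 < φ q) :
    x.c.ET X (nu φ δ lam k) x.s q (x.is a) := by
  obtain ⟨y, e, y0, h0, h1, h2⟩ := S.is0 hD ok
  have h4 : (0 : ℝ) < 2 ^ x.s := by positivity
  have h3 := nu_sqrt' φ δ lam hq q0 y0 le_rfl (k := k) (by nlinarith)
  refine (isq_wf x a).of_le ?_
  rw [← e, ← smul_sub, map_smul_eq_mul, Real.norm_of_nonneg h4.le]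
  have h5 := le_shr (5 * x.isE a * (x.isq a).n) (x.s + 3)
  have h6 := mul_le_mul h1 h0 (by positivity) (by positivity)
  generalize (((5 * x.isE a * (x.isq a).n) >>> (x.s + 3) + 1 : ℕ) : ℝ) = r at h5 ⊢
  push_cast at h5
  refine le_of_mul_le_mul_right ?_ (show (0 : ℝ) < 2 ^ (x.s + 3) by positivity)
  rw [pow_add] at h5 ⊢
  nlinarith [mul_le_mul_of_nonneg_left h3 (mul_pos h4 h4).le]

end isq

section fam

variable {z : Fin 4 → Fn} {G : Fin 4 → K}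

theorem Geo.tt (H : x.Geo X ν pp z G) (a : I3) (k : I4) : x.E X ν (pp a (G k)) (x.tt z a k) := by
  fin_cases a
  exacts [H.t0 k, H.t1 k, H.t2 k]

theorem Geo.fs (S : x.Set X ν δ pp) (H : x.Geo X ν pp z G) (a b : I3) (k : I4) :
    x.E X ν (pp a (pp b (G k))) (x.fs z a b k) := by
  fin_cases a <;> fin_cases b
  exacts [H.f00 k, H.f01 k, H.f02 k, (H.f01 k).congr (S.pcomm _ _ _), H.f11 k, H.f12 k,
    (H.f02 k).congr (S.pcomm _ _ _), (H.f12 k).congr (S.pcomm _ _ _), H.f22 k]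

theorem Geo.gg (H : x.Geo X ν pp z G) (a b : I3) : x.E X ν (Fm.jG pp G a b) (x.gg z a b) := by
  have s : ∀ a b, Fm.jG pp G a b = Fm.jG pp G b a := fun a b =>
    congrFun (congrFun (Fm.jG_symm pp G) b) a
  fin_cases a <;> fin_cases b
  exacts [H.g00, H.g01, H.g02, H.g01.congr (s _ _), H.g11, H.g12, H.g02.congr (s _ _),
    H.g12.congr (s _ _), H.g22]

theorem Geo.ad (H : x.Geo X ν pp z G) (a b : I3) : x.E X ν (Fm.jA pp G a b) (x.ad z a b) := by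
  have s := Fm.jA_symm pp G
  fin_cases a <;> fin_cases b
  exacts [H.a00, H.a01, H.a02, H.a01.congr (s _ _), H.a11, H.a12, H.a02.congr (s _ _),
    H.a12.congr (s _ _), H.a22]

end fam

section lo

open Pool.Agent.MP_48470b_gt.Sph

variable {f : I4 → R} {h : Imm f} {X : Fin 3 → C3} {ν : Seminorm ℝ C3}
  {δ pp : I3 → Derivation ℝ C3 C3} {Φ : Fm.Fr h} {z : Fin 4 → Fn} {y : P3} {lam : ℝ≥0}

variable (x X ν Φ z) in
/-- the enclosures of the normalised quantities -/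
structure Lo : Prop where
  F : ∀ k, x.E X ν (cf f k) (x.F z k)
  tt : ∀ a k, x.E X ν (Φ.p a (cf f k)) (x.tt z a k)
  fs : ∀ a b k, x.E X ν (Φ.p a (Φ.p b (cf f k))) (x.fs z a b k)
  gg : ∀ a b, x.E X ν (Fm.jG Φ.p (cf f) a b) (x.gg z a b)
  ad : ∀ a b, x.E X ν (Fm.jA Φ.p (cf f) a b) (x.ad z a b)
  q : x.E X ν Φ.q (x.q z)
  q2 : x.E X ν (Φ.q ^ 2) (x.q2 z)
  gi : ∀ a b, x.E X ν (Φ.q ^ 2 * Fm.jA Φ.p (cf f) a b) (x.gi z a b)
  nn : ∀ k, x.E X ν (Φ.q * Fm.jN Φ.p (cf f) k) (x.nn z k)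
  u : ∀ i a, x.E X ν (Φ.q ^ 2 * Fm.jS Φ.p (cf f) i a) (x.u z i a)
  hh : ∀ a b, x.E X ν (Φ.q * Fm.jh Φ.p (cf f) a b) (x.hh z a b)
  w : ∀ i b, x.E X ν (Φ.q ^ 3 * ∑ a, Fm.jS Φ.p (cf f) i a * Fm.jh Φ.p (cf f) a b) (x.w z i b)
  A : ∀ i j, x.E X ν (ch ((dc h).A i j)) (x.A z i j)
  aw : x.E2 X ν (Φ.q ^ 6 * Fm.jQ Φ.p (cf f)) (x.aw z)
  aa : x.E X ν (Φ.q ^ 6 * Fm.jQ Φ.p (cf f)) (x.aa z)
  ff : x.E X ν (∑ k, cf f k * cf f k) (x.ff z)
  lm : x.E X ν (Φ.q * Fm.jl Φ.p (cf f)) (x.lm z)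
  hm : x.E X ν (Φ.q ^ 3 * Fm.jH Φ.p (cf f)) (x.hm z)
  jj : x.E X ν (Φ.q * Fm.jD Φ.p (cf f)) (x.jj z)
  qT : x.c.ET X ν x.s Φ.q (x.q z)
  AT : ∀ i j, x.c.ET X ν x.s (ch ((dc h).A i j)) (x.A' z i j)
  aaT : x.c.ET X ν x.s (Φ.q ^ 6 * Fm.jQ Φ.p (cf f)) (x.aa z)
  ffT : x.c.ET X ν x.s (∑ k, cf f k * cf f k) (x.ff z)
  lmT : x.c.ET X ν x.s (Φ.q * Fm.jl Φ.p (cf f)) (x.lm z)
  hmT : x.c.ET X ν x.s (Φ.q ^ 3 * Fm.jH Φ.p (cf f)) (x.hm z)
  jjT : x.c.ET X ν x.s (Φ.q * Fm.jD Φ.p (cf f)) (x.jj z)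

/-- the determinant is positive -/
theorem Set.imm {k : ℕ} {G : I4 → C3} (S : x.Set X (nu (evc y) δ lam k) δ pp)
    (H : x.Geo X (nu (evc y) δ lam k) pp z G) (ok : x.qOk z = true) : 0 < Fm.jD pp G y :=
  S.is_pos H.dt ok

theorem Set.lo {k : ℕ} (S : x.Set X (nu (evc y) δ lam k) δ Φ.p)
    (H : x.Geo X (nu (evc y) δ lam k) Φ.p z (cf f)) (ok : x.qOk z = true) :
    x.Lo X (nu (evc y) δ lam k) Φ z := by
  have qT : x.c.ET X _ x.s Φ.q (x.q z) := S.is H.dt ok Φ.qsq (Φ.pos y)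
  generalize nu (evc y) δ lam k = ν at *
  have q := S.en qT
  have q2 : x.E X ν (Φ.q ^ 2) (x.q2 z) := (S.mr q q).congr (sq _).symm
  have gi' : ∀ a b, x.E X ν (Φ.q ^ 2 * Fm.jA Φ.p (cf f) a b) (x.gi' z a b) := fun a b =>
    S.mr q2 (H.ad a b)
  have gi := sy_of (P := fun a b t => x.E X ν (Φ.q ^ 2 * Fm.jA Φ.p (cf f) a b) t) gi'
    fun a b t ht => ht.congr (by rw [Fm.jA_symm])
  have nn : ∀ k, x.E X ν (Φ.q * Fm.jN Φ.p (cf f) k) (x.nn z k) := fun k => S.mr q (H.n k)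
  have u : ∀ i a, x.E X ν (Φ.q ^ 2 * Fm.jS Φ.p (cf f) i a) (x.u z i a) := fun i a =>
    S.r (S.d3 (fun b => H.tt b i) fun b => gi b a) (by
      simp only [Fm.jS_apply, Fin.sum_univ_three]; ring)
  have hh' : ∀ a b, x.E X ν (Φ.q * Fm.jh Φ.p (cf f) a b) (x.hh' z a b) := fun a b =>
    S.r (S.dot (H.fs S a b) nn) (by simp only [Fm.jh, Fin.sum_univ_four]; ring)
  have hs := Fm.jh_symm Φ.p (cf f) Φ.comm
  have hh := sy_of (P := fun a b t => x.E X ν (Φ.q * Fm.jh Φ.p (cf f) a b) t) hh'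
    fun a b t ht => ht.congr (by rw [hs])
  have w : ∀ i b, x.E X ν (Φ.q ^ 3 * ∑ a, Fm.jS Φ.p (cf f) i a * Fm.jh Φ.p (cf f) a b)
      (x.w z i b) := fun i b =>
    S.r (S.d3 (u i) fun a => hh a b) (by simp only [Fin.sum_univ_three]; ring)
  have AT : ∀ i j, x.c.ET X ν x.s (ch ((dc h).A i j)) (x.A' z i j) := fun i j =>
    S.rt (S.d3 (w i) (u j)) (by simp only [Φ.ch_A, Fin.sum_univ_three]; ring)
  have as : ∀ i j, (dc h).A i j = (dc h).A j i := (dc h).sym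
  have A := sy_of (P := fun i j t => x.E X ν (ch ((dc h).A i j)) t) (fun i j => S.en (AT i j))
    fun a b t ht => ht.congr (by rw [as])
  have A2 := fun i j => S.m (S.en (AT i j)) (S.en (AT i j))
  have aw : x.E2 X ν (Φ.q ^ 6 * Fm.jQ Φ.p (cf f)) (x.aw z) :=
    EW.congr (((((A2 0 0).add (A2 1 1)).add (A2 2 2)).add (A2 3 3)).add
      (((((((A2 0 1).add (A2 0 2)).add (A2 0 3)).add (A2 1 2)).add (A2 1 3)).add
        (A2 2 3)).smul 2)) (by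
      simp only [← Φ.ch_AA, fp, uc, Fintype.sum_prod_type, Fin.sum_univ_four, map_add, map_mul,
        as 1 0, as 2 0, as 3 0, as 2 1, as 3 1, as 3 2]
      push_cast
      ring)
  have ffT : x.c.ET X ν x.s _ (x.ff z) := S.rt (S.dot H.F H.F) rfl
  have lmT : x.c.ET X ν x.s (Φ.q * Fm.jl Φ.p (cf f)) (x.lm z) :=
    S.rt (S.dot H.F nn) (by simp only [Fm.jl, Fin.sum_univ_four]; ring)
  have gh := fun a b => S.m (gi' a b) (hh' a b)
  have hmT : x.c.ET X ν x.s (Φ.q ^ 3 * Fm.jH Φ.p (cf f)) (x.hm z) :=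
    S.rt ((((gh 0 0).add (gh 1 1)).add (gh 2 2)).add
      ((((gh 0 1).add (gh 0 2)).add (gh 1 2)).smul 2)) (by
      simp only [Fm.jH, Fin.sum_univ_three, hs 1 0, hs 2 0, hs 2 1, Fm.jA_symm Φ.p (cf f) 1 0,
        Fm.jA_symm Φ.p (cf f) 2 0, Fm.jA_symm Φ.p (cf f) 2 1]
      push_cast
      ring)
  have jjT : x.c.ET X ν x.s _ (x.jj z) := S.rt (S.m q H.dt) rfl
  exact ⟨H.F, H.tt, H.fs S, H.gg, H.ad, q, q2, gi, nn, u, hh, w, A, aw, S.r aw rfl, S.en ffT,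
    S.en lmT, S.en hmT, S.en jjT, qT, AT, S.rt aw rfl, ffT, lmT, hmT, jjT⟩

/-! ### coordinates -/

/-- order of the variables -/
def sg : I3 → I3 := ![0, 2, 1]

variable (x X δ) in
/-- the variables of a box with radii `hs / 512` and centre `cs / 512` -/
structure Loc (hs cs : Fin 3 → ℕ) : Prop where
  pos : ∀ i, 0 < hs i
  neg : x.db < 0
  xi : ∀ i, xi (sg i) = ((hs i : ℝ) / 512) • X i + algebraMap ℝ C3 (cs i / 512)
  dl : ∀ i u, δ i u = ((hs i : ℝ) / 512) • pd (sg i) u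

variable (x) in
/-- inverse of the frame matrix -/
noncomputable def Cm (hs : Fin 3 → ℕ) : Matrix I3 I3 ℝ :=
  Matrix.of fun a c => 512 * (x.iq hs a (sg c) : ℝ) / x.dq hs

variable {hs cs : Fin 3 → ℕ}

theorem Loc.dq (L : x.Loc X δ hs cs) :
    (x.dq hs : ℝ) = -(x.b00 * x.b11 * x.b22) * (hs 0 * hs 1 * hs 2) := by
  have e : (x.db.natAbs : ℝ) = -(x.db : ℝ) := by
    rw [← Int.cast_natCast, Int.ofNat_natAbs_of_nonpos L.neg.le, Int.cast_neg]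
  rw [Ar.dq, Nat.cast_mul, e]
  simp only [hp, Nat.cast_mul, db, Int.cast_mul]

theorem Loc.ne (L : x.Loc X δ hs cs) : (x.b00 : ℝ) ≠ 0 ∧ (x.b11 : ℝ) ≠ 0 ∧ (x.b22 : ℝ) ≠ 0 := by
  have := L.neg.ne
  simpa [db, and_assoc] using this

theorem Loc.hC (L : x.Loc X δ hs cs) (S : x.Set X ν δ pp) (c : I3) (u : C3) :
    pd c u = ∑ a, x.Cm hs a c • pp a u := by
  obtain ⟨n0, n1, n2⟩ := L.ne
  have m := fun i => (Nat.cast_pos (α := ℝ).2 (L.pos i)).ne'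
  have m0 := m 0
  have m1 := m 1
  have m2 := m 2
  rw [Fin.sum_univ_three, S.p0, S.p1, S.p2]
  simp only [L.dl, Cm, Matrix.of_apply, L.dq]
  fin_cases c <;> simp [sg, iq, ib, hq, s3, Nat.beq] <;> match_scalars <;> field_simp <;> ring

theorem Loc.xc (L : x.Loc X δ hs cs) (S : x.Set X ν δ pp) (i : I3) :
    x.c.ET X ν x.s (Dic.xi (sg i)) (x.xc hs cs i) := by
  have e := S.af (s3 (Int.ofNat (hs 0)) 0 0 i) (s3 0 (Int.ofNat (hs 1)) 0 i)
    (s3 0 0 (Int.ofNat (hs 2)) i) (Int.ofNat (cs i)) 512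
  refine (congrArg (fun v => x.c.ET X ν x.s v _) ?_).mp e
  rw [L.xi]
  fin_cases i <;> simp [s3, Nat.beq]

theorem Loc.et (L : x.Loc X δ hs cs) (S : x.Set X ν δ pp) (a : I3) :
    x.E X ν (eta (x.Cm hs) a) (x.et hs cs a) := by
  refine (S.en (S.af _ _ _ _ _)).congr ?_
  have e0 := L.xi 0
  have e1 := L.xi 1
  have e2 := L.xi 2
  simp only [sg, Matrix.cons_val_zero, Matrix.cons_val_one, Matrix.cons_val] at e0 e1 e2
  simp only [eta, Fin.sum_univ_three, e0, e1, e2, Cm, Matrix.of_apply, sg, Matrix.cons_val_zero,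
    Matrix.cons_val_one, Matrix.cons_val, Algebra.algebraMap_eq_smul_one, Int.ofNat_eq_natCast]
  push_cast
  match_scalars <;> ring

theorem Loc.mm (L : x.Loc X δ hs cs) (S : x.Set X ν δ pp) :
    ∀ a b, x.E X ν (Dic.mm (x.Cm hs) a b) (x.mm hs cs a b) := by
  refine sy_of (P := fun a b t => x.E X ν (Dic.mm (x.Cm hs) a b) t) (fun a b => ?_)
    fun a b t ht => ht.congr (by simp only [Dic.mm, mul_comm])
  refine S.r ((S.cw _ _).add (S.m (L.et S a) (L.et S b))) ?_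
  rw [Dic.mm]
  congr 2
  simp only [Fin.sum_univ_three, Cm, Matrix.of_apply, sg, Matrix.cons_val_zero,
    Matrix.cons_val_one, Matrix.cons_val, s2_cast]
  push_cast
  ring

end lo

end Ar

end Pool.Agent.MP_48470b_gt.Ck
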