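import Pool.Agent.MP_48470b_gt.Ck.Lo1X
import Pool.Agent.MP_48470b_gt.Ck.Lo2X
import Pool.Agent.MP_48470b_gt.Ck.Lo3X

/-! Executable definitions: all tests of the two runs on one box. -/

namespace Pool.Agent.MP_48470b_gt.Ck

open TT

/-- constants for the three eigenfunctions: eigenvalue `k / d - 1 / 2`, residual `et / 2 ^ 32`,
lower bound `el / 2 ^ 64` on the block from `lo` to `hi` -/
structure Ke where
  k : Fin 3 → Int
  d : Fin 3 → Nat
  et : Fin 3 → Nat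
  el : Fin 3 → Nat
  lo : Fin 3 → Fin 3 → Nat
  hi : Fin 3 → Fin 3 → Nat

/-- the box with the indices `K` -/
def bdK (K : Fin 3 → Nat) : Bd :=
  ⟨fun a => HH (s3 (K 0) (K 2) (K 1) a), fun a => ce (s3 (K 0) (K 2) (K 1) a),
    fun a => br (s3 (K 0) (K 2) (K 1) a), fun a => br (s3 (K 0) (K 2) (K 1) a + 1)⟩

namespace Ar

variable (x : Ar) (g : Bd) (z : Fin 4 → Fn) (u : Fin 3 → Fn) (n : Kn) (e : Ke) (K : Fin 3 → Nat)

/-- tests for one eigenfunction -/
def okF (k : Fin 3) : Bool := x.okR z (u k) (e.k k) (e.d k) (x.roh g z) (e.et k) &&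
  (!in3 (e.lo k) (e.hi k) K || x.okW g (u k) (x.rol g z) (e.el k))

/-- the run of low order -/
def low (L LH et w : Nat) : Bool := Nat.ble L LH && x.qOk z &&
  x.okA z L (n.a1 / 10 ^ 6) (n.a2 / 10 ^ 6) (n.y1 / 10 ^ 6) (n.y2 / 10 ^ 6) 64 (x.el g z) &&
  x.ok3 g z n (x.j x.uy) et LH K && x.okC z g 4 w &&
  x.okF g z u e K 0 && x.okF g z u e K 1 && x.okF g z u e K 2

/-- the run of high order -/
def high (et : Nat) : Bool := Nat.ble (mag (x.resY z x.uy) * 2 ^ 100) (et * 2 ^ x.s)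

end Ar

end Pool.Agent.MP_48470b_gt.Ck
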