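import Pool.Agent.MP_48470b_gt.Ck.SymX
import Pool.Agent.MP_48470b_gt.TT.Mk
import Pool.Agent.MP_48470b_gt.Bl.Cht

/-! Exact symmetries of packed polynomials: soundness. -/

set_option autoImplicit false

open Finset Function

namespace Pool.Agent.MP_48470b_gt.Ck.Sy

open TT TT.Cfg
open TM (pk dig dig_pk pk_pk)

theorem rep_bit {W n x i j : ℕ} (hi : i < n) (h : x.testBit j = true) :
    (rep W n x).testBit (W * i + j) = true := by
  induction n generalizing i with
  | zero => omega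
  | succ n ih =>
    show ((rep W n x <<< W) ||| x).testBit _ = true
    rw [Nat.testBit_or, Nat.testBit_shiftLeft]
    cases i with
    | zero => simp [h]
    | succ i =>
      rw [show W * (i + 1) + j - W = W * i + j by rw [mul_add_one]; omega, ih (by omega)]
      simp [mul_add_one, add_assoc, add_left_comm]

theorem shl_bit {x j : ℕ} (k : ℕ) (h : x.testBit j = true) :
    (Nat.shiftLeft x k).testBit (k + j) = true := by
  show (x <<< k).testBit _ = true
  simp [Nat.testBit_shiftLeft, h]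

theorem m2_bit {k j : ℕ} (h : j < k) : (m2 k).testBit j = true := by
  simp [m2_eq, h]

theorem all_iff {n : ℕ} {f : ℕ → Bool} (h : all n f = true) {i : ℕ} (hi : i < n) : f i = true := by
  induction n with
  | zero => omega
  | succ n ih =>
    have e : cond (f n) (all n f) false = true := h
    cases g : f n <;> rw [g] at e
    · cases e
    · rcases Nat.lt_succ_iff_lt_or_eq.1 hi with p | rfl
      exacts [ih e p, g]

theorem eqm_bit {M x y j : ℕ} (h : eqm M x y = true) (hj : M.testBit j = true) :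
    x.testBit j = y.testBit j := by
  have := congrArg (Nat.testBit · j) (show x &&& M = y &&& M from Nat.eq_of_beq_eq_true h)
  simpa [Nat.testBit_and, hj] using this

theorem dig_ext {w x y s t : ℕ} (h : ∀ j < w, x.testBit (w * s + j) = y.testBit (w * t + j)) :
    dig w x s = dig w y t := by
  refine Nat.eq_of_testBit_eq fun j => ?_
  simp only [dig, Nat.testBit_mod_two_pow, Nat.testBit_div_two_pow]
  by_cases p : j < w
  · simp [p, add_comm j, h j p]
  · simp [p]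

theorem tr_bit {a b n M x y d j : ℕ} (h : tr a b n M x y = true) (hab : b ≤ a) (hd : d < n)
    (h0 : M.testBit j = true) (h1 : M.testBit (j + (a + b) * d) = true) :
    x.testBit (j + b * d) = y.testBit (j + a * d) := by
  obtain ⟨e, rfl⟩ := Nat.exists_eq_add_of_le hab
  rw [eqm_bit (all_iff h hd) (j := j + b * d) (by
    show ((M >>> ((b + e) * d)) &&& Nat.shiftLeft M (b * d)).testBit _ = true
    rw [Nat.testBit_and, Nat.testBit_shiftRight, add_comm j, shl_bit _ h0, Bool.and_true, ← h1]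
    congr 1; ring)]
  show (y >>> ((b + e - b) * d)).testBit _ = _
  rw [Nat.testBit_shiftRight, Nat.add_sub_cancel_left]
  congr 1; ring

variable {c : Cfg} {x y : ℕ}

theorem t02_dig (h : t02 c x y = true) {i j k : ℕ} (hik : i ≤ k) (hj : j < c.B1) (hk : k < c.B0)
    (e : c.B0 = c.B2) :
    dig c.w x (i * c.S + j * c.B2 + k) = dig c.w y (k * c.S + j * c.B2 + i) := by
  obtain ⟨d, rfl⟩ := Nat.exists_eq_add_of_le hik
  refine dig_ext fun r hr => ?_
  have m : ∀ p < c.B0, (m02 c).testBit ((c.w * c.S + c.w) * p + (c.w * c.B2 * j + r)) = true :=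
    fun p hp => rep_bit hp (rep_bit hj (m2_bit hr))
  have := tr_bit (a := c.w * c.S) (b := c.w) h (Nat.le_mul_of_pos_right _
    (Nat.mul_pos (by omega) (by omega))) (show d < c.B0 by omega) (m i (by omega))
    (by rw [← m _ hk]; congr 1; ring)
  refine (congrArg _ ?_).trans (this.trans (congrArg _ ?_)) <;> ring

theorem t12_dig (h : t12 c x y = true) {i j k : ℕ} (hi : i < c.B0) (hjk : j ≤ k) (hk : k < c.B1)
    (e : c.B1 = c.B2) :
    dig c.w x (i * c.S + j * c.B2 + k) = dig c.w y (i * c.S + k * c.B2 + j) := by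
  obtain ⟨d, rfl⟩ := Nat.exists_eq_add_of_le hjk
  refine dig_ext fun r hr => ?_
  have m : ∀ p < c.B1, (m12 c).testBit (c.w * c.S * i + ((c.w * c.B2 + c.w) * p + r)) = true :=
    fun p hp => rep_bit hi (rep_bit hp (m2_bit hr))
  have := tr_bit (a := c.w * c.B2) (b := c.w) h (Nat.le_mul_of_pos_right _ (by omega))
    (show d < c.B1 by omega) (m j (by omega)) (by rw [← m _ hk]; congr 1; ring)
  refine (congrArg _ ?_).trans (this.trans (congrArg _ ?_)) <;> ring

theorem ldc_congr {s t : ℕ} (h : dig c.w x s = dig c.w y t) : c.ldc x s = c.ldc y t := by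
  rw [ldc, ldc, h]

/-- the polynomial as a triple sum -/
theorem ev3 (X : Fin 3 → ℝ) (f : ℕ → ℤ) : c.ev X f = ∑ i ∈ range c.B0, ∑ j ∈ range c.B1,
    ∑ k ∈ range c.B2, f (i * c.S + j * c.B2 + k) * (X 0 ^ i * X 1 ^ j * X 2 ^ k) := by
  rw [ev, sum3]
  refine sum_congr rfl fun i hi => sum_congr rfl fun j hj => sum_congr rfl fun k hk => ?_
  obtain ⟨e0, e1, e2, -⟩ := comp (mem_range.1 hi) (mem_range.1 hj) (mem_range.1 hk)
  rw [mono, e0, e1, e2, smul_eq_mul]

theorem ev02 (e : c.B0 = c.B2) (h : t02 c x y = true) (h' : t02 c y x = true) {X Y : Fin 3 → ℝ}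
    (h0 : X 0 = Y 2) (h1 : X 1 = Y 1) (h2 : X 2 = Y 0) :
    c.ev X (c.ldc x) = c.ev Y (c.ldc y) := by
  rw [ev3, ev3, sum_comm, sum_comm (s := range c.B0), h0, h1, h2]
  refine sum_congr rfl fun j hj => ?_
  rw [sum_comm, show range c.B2 = range c.B0 by rw [e]]
  refine sum_congr rfl fun k hk => sum_congr rfl fun i hi => ?_
  rw [mem_range] at hi hj hk
  rw [ldc_congr (y := y) (t := k * c.S + j * c.B2 + i) (by
    rcases le_total i k with p | p
    exacts [t02_dig h p hj hk e, (t02_dig h' p hj hi e).symm])]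
  ring

theorem ev12 (e : c.B1 = c.B2) (h : t12 c x y = true) (h' : t12 c y x = true) {X Y : Fin 3 → ℝ}
    (h0 : X 0 = Y 0) (h1 : X 1 = Y 2) (h2 : X 2 = Y 1) :
    c.ev X (c.ldc x) = c.ev Y (c.ldc y) := by
  rw [ev3, ev3, h0, h1, h2]
  refine sum_congr rfl fun i hi => ?_
  rw [sum_comm, show range c.B2 = range c.B1 by rw [e]]
  refine sum_congr rfl fun k hk => sum_congr rfl fun j hj => ?_
  rw [mem_range] at hi hj hk
  rw [ldc_congr (y := y) (t := i * c.S + k * c.B2 + j) (by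
    rcases le_total j k with p | p
    exacts [t12_dig h hi p hk e, (t12_dig h' hi p hj e).symm])]
  ring

theorem zr_ldc (o : ok c = true) {M t : ℕ} (h : zr c M x = true) (ht : t < c.N)
    (hM : ∀ r < c.w, M.testBit (c.w * t + r) = true) : c.ldc x t = 0 := by
  simp only [ok, Bool.and_eq_true, Nat.ble_eq] at o
  have e : c.Hb = pk c.w c.N fun _ => 2 ^ (c.u - 1) := by
    have : c.VO = pk c.w c.N fun _ => 1 := by
      rw [VO, hor_eq, ones_eq (by omega), N_eq, pk_pk]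
      rfl
    rw [Hb, this]
    exact (Nat.shiftLeft_eq _ _).trans (by simp only [TM.pk_mul, one_mul]; rfl)
  have l : ∀ k, c.u ≤ k → 2 ^ (c.u - 1) < 2 ^ k := fun k hk =>
    Nat.pow_lt_pow_right one_lt_two (by omega)
  rw [ldc, dig_ext (y := c.Hb) (t := t) fun r hr => eqm_bit h (hM r hr), e,
    dig_pk (fun _ _ => l _ o.2) ht, Nat.mod_eq_of_lt (l _ le_rfl)]
  simp

theorem hv_lt {B e i : ℕ} (he : i % 2 = e) (hi : i < B) : i / 2 < hv B e := by
  show _ < (B + 1 - e) / 2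
  omega

theorem sgn_pow {e i : ℕ} (he : e < 2) (h : i % 2 ≠ e) (z : ℝ) :
    (-z) ^ i = -(-1) ^ e * z ^ i := by
  rcases Nat.even_or_odd i with p | p
  · rw [p.neg_pow, show e = 1 by have := Nat.even_iff.1 p; omega]; simp
  · rw [p.neg_pow, show e = 0 by have := Nat.odd_iff.1 p; omega]; simp

section
variable (o : ok c = true) {e : ℕ} (he : e < 2) {X Y : Fin 3 → ℝ}
include o he

theorem evq0 (h : zr c (q0 c e) x = true) (h0 : X 0 = -Y 0) (h1 : X 1 = Y 1) (h2 : X 2 = Y 2) :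
    c.ev X (c.ldc x) = -(-1) ^ e * c.ev Y (c.ldc x) := by
  simp only [ev3, mul_sum, h0, h1, h2]
  refine sum_congr rfl fun i hi => sum_congr rfl fun j hj => sum_congr rfl fun k hk => ?_
  rw [mem_range] at hi hj hk
  by_cases p : i % 2 = e
  · rw [zr_ldc o h (comp hi hj hk).2.2.2 fun r hr => ?_]
    · simp
    have b : c.w * (j * c.B2 + k) + r < c.w * c.S := by
      have : j * c.B2 + k + 1 ≤ c.S := by rw [S_eq]; nlinarith
      nlinarith
    rw [← shl_bit (c.w * c.S * e) (rep_bit (W := c.w * c.S * 2) (hv_lt p hi) (m2_bit b))]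
    congr 1
    rw [← p]
    conv_lhs => rw [← Nat.mod_add_div i 2]
    ring
  · rw [sgn_pow he p]; ring

theorem evq1 (h : zr c (q1 c e) x = true) (h0 : X 0 = Y 0) (h1 : X 1 = -Y 1) (h2 : X 2 = Y 2) :
    c.ev X (c.ldc x) = -(-1) ^ e * c.ev Y (c.ldc x) := by
  simp only [ev3, mul_sum, h0, h1, h2]
  refine sum_congr rfl fun i hi => sum_congr rfl fun j hj => sum_congr rfl fun k hk => ?_
  rw [mem_range] at hi hj hk
  by_cases p : j % 2 = e
  · rw [zr_ldc o h (comp hi hj hk).2.2.2 fun r hr => ?_]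
    · simp
    have b : c.w * k + r < c.w * c.B2 := by nlinarith
    rw [← rep_bit (W := c.w * c.S) hi (shl_bit (c.w * c.B2 * e)
      (rep_bit (W := c.w * c.B2 * 2) (hv_lt p hj) (m2_bit b)))]
    congr 1
    rw [← p]
    conv_lhs => rw [← Nat.mod_add_div j 2]
    ring
  · rw [sgn_pow he p]; ring

theorem evq2 (h : zr c (q2 c e) x = true) (h0 : X 0 = Y 0) (h1 : X 1 = Y 1) (h2 : X 2 = -Y 2) :
    c.ev X (c.ldc x) = -(-1) ^ e * c.ev Y (c.ldc x) := by
  simp only [ev3, mul_sum, h0, h1, h2]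
  refine sum_congr rfl fun i hi => sum_congr rfl fun j hj => sum_congr rfl fun k hk => ?_
  rw [mem_range] at hi hj hk
  by_cases p : k % 2 = e
  · rw [zr_ldc o h (comp hi hj hk).2.2.2 fun r hr => ?_]
    · simp
    rw [← rep_bit (W := c.w * c.S) hi (rep_bit (W := c.w * c.B2) hj (shl_bit (c.w * e)
      (rep_bit (W := c.w * 2) (hv_lt p hk) (m2_bit hr))))]
    congr 1
    rw [← p]
    conv_lhs => rw [← Nat.mod_add_div k 2]
    ring
  · rw [sgn_pow he p]; ring

end

open Dic Bl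

/-- the local variables are affine in the coordinates, in the order `0, 2, 1` -/
def Var (X : Bx → Fin 3 → C3) : Prop := ∃ α β : ℕ → ℝ, β 0 = 0 ∧ ∀ M y,
  X M 0 y = α (M 0) * y 0 - β (M 0) ∧ X M 1 y = α (M 2) * y 2 - β (M 2) ∧
    X M 2 y = α (M 1) * y 1 - β (M 1)

theorem cnd {a b : ℕ} {p : Bool} (h : cond (Nat.beq a b) p true = true) (e : a = b) :
    p = true := by
  rwa [e, Nat.beq_refl] at h

theorem ap (κ : ℝ) (X : Fin 3 → C3) (f : ℕ → ℤ) (y : P3) :
    (κ • c.ev X f) y = κ * c.ev (fun i => X i y) f :=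
  (map_smul (evc y) _ _).trans (congrArg (κ * ·) (map_ev (evc y) f))

variable {n : ℕ} {P : O3 → Bx → C3} {X : Bx → Fin 3 → C3} {M : Bx} {κ : ℝ}

theorem Var.s01 (hX : Var X) (e : M 0 = M 1) (b : c.B0 = c.B2) (g : t02 c x y = true)
    (g' : t02 c y x = true) (z : P3) :
    (κ • c.ev (X M) (c.ldc x)) (z ∘ Equiv.swap 0 1) = (κ • c.ev (X M) (c.ldc y)) z := by
  obtain ⟨α, β, -, hX⟩ := hX
  rw [ap, ap, ev02 b g g'] <;> simp [hX, e, Equiv.swap_apply_def]

theorem Var.s12 (hX : Var X) (e : M 1 = M 2) (b : c.B1 = c.B2) (g : t12 c x y = true)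
    (g' : t12 c y x = true) (z : P3) :
    (κ • c.ev (X M) (c.ldc x)) (z ∘ Equiv.swap 1 2) = (κ • c.ev (X M) (c.ldc y)) z := by
  obtain ⟨α, β, -, hX⟩ := hX
  rw [ap, ap, ev12 b g g'] <;> simp [hX, e, Equiv.swap_apply_def]

theorem Var.par (hX : Var X) (o : ok c = true) {a : Fin 3} (e : M a = 0) {k : ℕ} (hk : k < 2)
    (g : zr c (![q0, q2, q1] a c k) x = true) (z : P3) :
    (κ • c.ev (X M) (c.ldc x)) (update z a (-z a)) =
      -(-1) ^ k * (κ • c.ev (X M) (c.ldc x)) z := by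
  obtain ⟨α, β, b, hX⟩ := hX
  rw [ap, ap, mul_left_comm]
  congr 1
  fin_cases a
  · refine evq0 o hk g ?_ ?_ ?_ <;> simp [hX, show M 0 = 0 from e, b]
  · refine evq2 o hk g ?_ ?_ ?_ <;> simp [hX, show M 1 = 0 from e, b]
  · refine evq1 o hk g ?_ ?_ ?_ <;> simp [hX, show M 2 = 0 from e, b]

/-- **Symmetries of the data of a map.** -/
theorem dat_vec (hX : Var X) (H : ∀ M : Bx, Monotone M → M 2 < n →
    ∃ (c : Cfg) (κ : ℝ) (x0 x1 x2 x3 : ℕ), vec c (M 0) (M 1) (M 2) x0 x1 x2 x3 = true ∧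
      P (some 0) M = κ • c.ev (X M) (c.ldc x0) ∧ P (some 1) M = κ • c.ev (X M) (c.ldc x1) ∧
      P (some 2) M = κ • c.ev (X M) (c.ldc x2) ∧ P none M = κ • c.ev (X M) (c.ldc x3)) :
    Dat n P := by
  refine ⟨fun o M hM hn e y => ?_, fun o M hM hn e y => ?_, fun o M a hM hn e y => ?_⟩ <;>
    obtain ⟨c, κ, x0, x1, x2, x3, h, p0, p1, p2, p3⟩ := H M hM hn <;>
    simp only [vec, Bool.and_eq_true] at h <;>
    obtain ⟨⟨⟨⟨⟨o', s1⟩, s2⟩, u0⟩, u1⟩, u2⟩ := h
  · have s := cnd s1 e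
    simp only [Bool.and_eq_true, Nat.beq_eq] at s
    obtain ⟨⟨⟨⟨b, t0⟩, t1⟩, t2⟩, t3⟩ := s
    rcases o with _ | o
    · exact p3 ▸ hX.s01 e b t3 t3 y
    fin_cases o
    exacts [p0 ▸ (hX.s01 e b t0 t1 y).trans (p1 ▸ rfl), p1 ▸ (hX.s01 e b t1 t0 y).trans (p0 ▸ rfl),
      p2 ▸ hX.s01 e b t2 t2 y]
  · have s := cnd s2 e
    simp only [Bool.and_eq_true, Nat.beq_eq] at s
    obtain ⟨⟨⟨⟨b, t0⟩, t1⟩, t2⟩, t3⟩ := s
    rcases o with _ | o
    · exact p3 ▸ hX.s12 e b t3 t3 y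
    fin_cases o
    exacts [p0 ▸ hX.s12 e b t0 t0 y, p1 ▸ (hX.s12 e b t1 t2 y).trans (p2 ▸ rfl),
      p2 ▸ (hX.s12 e b t2 t1 y).trans (p1 ▸ rfl)]
  · have k0 := fun {x} g => (hX.par (κ := κ) (x := x) o' e zero_lt_two g y).trans
      (congrArg (· * _) (show -(-1 : ℝ) ^ 0 = -1 by simp))
    have k1 := fun {x} g => (hX.par (κ := κ) (x := x) o' e one_lt_two g y).trans
      (congrArg (· * _) (show -(-1 : ℝ) ^ 1 = 1 by simp))
    fin_cases a
    all_goals
      first | have s := cnd u0 e | have s := cnd u1 e | have s := cnd u2 e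
      simp only [Bool.and_eq_true] at s
      obtain ⟨⟨⟨t0, t1⟩, t2⟩, t3⟩ := s
      rcases o with _ | o
      · exact p3 ▸ k1 t3
      fin_cases o
    exacts [p0 ▸ k0 t0, p1 ▸ k1 t1, p2 ▸ k1 t2, p0 ▸ k1 t0, p1 ▸ k0 t1, p2 ▸ k1 t2, p0 ▸ k1 t0,
      p1 ▸ k1 t1, p2 ▸ k0 t2]

/-- **Symmetries of the data of a function.** -/
theorem dat_sca (hX : Var X) (h0 : ∀ a M, P (some a) M = 0) (H : ∀ M : Bx, Monotone M → M 2 < n →
    ∃ (c : Cfg) (κ : ℝ) (x : ℕ), sca c (M 0) (M 1) (M 2) x = true ∧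
      P none M = κ • c.ev (X M) (c.ldc x)) : Dat n P := by
  refine ⟨fun o M hM hn e y => ?_, fun o M hM hn e y => ?_, fun o M a hM hn e y => ?_⟩ <;>
    rcases o with _ | o <;> try simp [h0]
  all_goals
    obtain ⟨c, κ, x, h, p⟩ := H M hM hn
    simp only [sca, Bool.and_eq_true] at h
    obtain ⟨⟨⟨⟨⟨o', s1⟩, s2⟩, u0⟩, u1⟩, u2⟩ := h
    rw [p]
  · have s := cnd s1 e
    simp only [Bool.and_eq_true, Nat.beq_eq] at s
    exact hX.s01 e s.1 s.2 s.2 y
  · have s := cnd s2 e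
    simp only [Bool.and_eq_true, Nat.beq_eq] at s
    exact hX.s12 e s.1 s.2 s.2 y
  · refine (hX.par o' e one_lt_two ?_ y).trans (by simp)
    fin_cases a
    exacts [cnd u0 e, cnd u1 e, cnd u2 e]

end Pool.Agent.MP_48470b_gt.Ck.Sy
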