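import Pool.Agent.MP_48470b_gt.TT.X

/-! Executable definitions: exact symmetries of packed polynomials. -/

namespace Pool.Agent.MP_48470b_gt.Ck.Sy

open TT

/-- `n` copies of `x` with period `W` -/
def rep (W n x : Nat) : Nat := Nat.rec 0 (fun _ a => Nat.lor (Nat.shiftLeft a W) x) n
/-- conjunction over `i < n` -/
def all (n : Nat) (f : Nat → Bool) : Bool := Nat.rec true (fun i r => cond (f i) r false) n
/-- equality on a mask -/
def eqm (M x y : Nat) : Bool := Nat.beq (Nat.land x M) (Nat.land y M)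
/-- the slots `p * (a + b) + q * e + d * b` -/
def md (a b M d : Nat) : Nat :=
  Nat.land (Nat.shiftRight M (Nat.mul a d)) (Nat.shiftLeft M (Nat.mul b d))
/-- one half of the transposition test -/
def tr (a b n M x y : Nat) : Bool :=
  all n fun d => eqm (md a b M d) x (Nat.shiftRight y (Nat.mul (Nat.sub a b) d))

variable (c : Cfg)

/-- slots with equal exponents of `X 0` and `X 2` -/
def m02 : Nat := rep (Nat.add c.wS c.w) c.B0 (rep c.wB c.B1 c.mw)
/-- slots with equal exponents of `X 1` and `X 2` -/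
def m12 : Nat := rep c.wS c.B0 (rep (Nat.add c.wB c.w) c.B1 c.mw)
def t02 (x y : Nat) : Bool := tr c.wS c.w c.B0 (m02 c) x y
def t12 (x y : Nat) : Bool := tr c.wB c.w c.B1 (m12 c) x y

/-- number of exponents below `B` of parity `e` -/
def hv (B e : Nat) : Nat := Nat.div (Nat.sub (Nat.add B 1) e) 2
/-- slots where the exponent of `X 0`, `X 1`, `X 2` has the parity `e` -/
def q0 (e : Nat) : Nat :=
  Nat.shiftLeft (rep (Nat.mul c.wS 2) (hv c.B0 e) (m2 c.wS)) (Nat.mul c.wS e)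
def q1 (e : Nat) : Nat :=
  rep c.wS c.B0 (Nat.shiftLeft (rep (Nat.mul c.wB 2) (hv c.B1 e) (m2 c.wB)) (Nat.mul c.wB e))
def q2 (e : Nat) : Nat := rep c.wS c.B0 (rep c.wB c.B1
  (Nat.shiftLeft (rep (Nat.mul c.w 2) (hv c.B2 e) c.mw) (Nat.mul c.w e)))
/-- all coefficients on the mask vanish -/
def zr (M x : Nat) : Bool := eqm M x c.Hb

/-- admissible widths -/
def ok : Bool := Nat.ble 1 c.u && Nat.ble c.u c.w

/-- the symmetries of the four components on the box `i j k` -/
def vec (i j k x0 x1 x2 x3 : Nat) : Bool :=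
  ok c &&
  cond (Nat.beq i j) (Nat.beq c.B0 c.B2 && t02 c x0 x1 && t02 c x1 x0 && t02 c x2 x2 &&
    t02 c x3 x3) true &&
  cond (Nat.beq j k) (Nat.beq c.B1 c.B2 && t12 c x0 x0 && t12 c x1 x2 && t12 c x2 x1 &&
    t12 c x3 x3) true &&
  cond (Nat.beq i 0) (zr c (q0 c 0) x0 && zr c (q0 c 1) x1 && zr c (q0 c 1) x2 &&
    zr c (q0 c 1) x3) true &&
  cond (Nat.beq j 0) (zr c (q2 c 1) x0 && zr c (q2 c 0) x1 && zr c (q2 c 1) x2 &&
    zr c (q2 c 1) x3) true &&
  cond (Nat.beq k 0) (zr c (q1 c 1) x0 && zr c (q1 c 1) x1 && zr c (q1 c 0) x2 &&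
    zr c (q1 c 1) x3) true

/-- the symmetries of a function on the box `i j k` -/
def sca (i j k x : Nat) : Bool :=
  ok c &&
  cond (Nat.beq i j) (Nat.beq c.B0 c.B2 && t02 c x x) true &&
  cond (Nat.beq j k) (Nat.beq c.B1 c.B2 && t12 c x x) true &&
  cond (Nat.beq i 0) (zr c (q0 c 1) x) true &&
  cond (Nat.beq j 0) (zr c (q2 c 1) x) true &&
  cond (Nat.beq k 0) (zr c (q1 c 1) x) true

end Pool.Agent.MP_48470b_gt.Ck.Sy
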