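import Pool.Agent.MP_48470b_gt.Ck.BoxX
import Pool.Agent.MP_48470b_gt.Ck.Low
import Pool.Agent.MP_48470b_gt.Ck.Sym
import Pool.Agent.MP_48470b_gt.Bl.Fin

/-! The functions defined by the tables. -/

noncomputable section

namespace Pool.Agent.MP_48470b_gt.Ck

open TT Dic Sph Pool.Agent.MP_48470b_gt.Top Pool.Agent.MP48470b.An
open Bl (Bx O3 Dat FaceB ProjB Gd nx oc ta)
open Ar (sg)

theorem gd : Gd nb br := ⟨grid, by decide⟩

/-- the variables of a box -/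
def XX (K : Bx) (i : Fin 3) : C3 :=
  (512 / HH (K (sg i)) : ℝ) • xi (sg i) - algebraMap ℝ C3 (ce (K (sg i)) / HH (K (sg i)))

/-- the derivatives in these variables -/
def dl (K : Bx) (i : I3) : Derivation ℝ C3 C3 := (HH (K (sg i)) / 512 : ℝ) • pd (sg i)

theorem HH_pos (k : ℕ) : 0 < HH k := Nat.succ_pos _

theorem var_XX : Sy.Var XX := ⟨fun k => 512 / HH k, fun k => ce k / HH k, by simp [ce],
  fun M y => by simp [XX, sg, xi_apply]⟩

/-- the function given by a component of a record -/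
def Rc.fn (r : Rc) (f : ℕ) (X : Fin 3 → C3) : C3 :=
  ((2 : ℝ) ^ r.P)⁻¹ • r.cE.ev X (r.cE.ldc (r.ld f))

namespace Tab

variable (T : Tab)

/-- local data of the map -/
def Pf (o : O3) (K : Bx) : C3 := (T.dat (K 0) (K 1) (K 2)).fn (o.elim 3 Fin.val) (XX K)

/-- local data of the eigenfunctions -/
def Pp (k : Fin 3) (o : O3) (K : Bx) : C3 :=
  o.elim ((T.phi (K 0) (K 1) (K 2)).fn k (XX K)) fun _ => 0

/-- the map -/
def f : I4 → R := gd.bv T.Pf

/-- the eigenfunctions -/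
def φ (k : Fin 3) : R := gd.bs (T.Pp k)

/-- symmetries and mismatches of the data -/
structure Glue : Prop where
  dat : Dat nb T.Pf
  datp : ∀ k, Dat nb (T.Pp k)
  face : ∀ M a, Srt nb M → Srt nb (nx M a) →
    FaceB br T.Pf M a (T.ef (M 0) (M 1) (M 2) a / 2 ^ 100)
  facep : ∀ k M a, Srt nb M → Srt nb (nx M a) →
    FaceB br (T.Pp k) M a (up (T.ef (M 0) (M 1) (M 2) a) / 2 ^ 100)
  proj : ∀ K, Srt nb K → K 2 + 1 = nb → ∀ m,
    ProjB br K (T.Pf (oc (ta 2 m)) K) (T.Pf (oc m) K) (T.ep (K 0) (K 1) (K 2) / 2 ^ 100)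
  projp : ∀ k K, Srt nb K → K 2 + 1 = nb →
    ProjB br K (T.Pp k none K) (T.Pp k none K) (up (T.ep (K 0) (K 1) (K 2)) / 2 ^ 100)
  nbr : ∀ K, Srt nb K → T.nbB (K 0) (K 1) (K 2) = true

variable {T}

theorem dat_sym (h : ∀ K, Srt nb K → T.symB (K 0) (K 1) (K 2) = true) :
    Dat nb T.Pf ∧ ∀ k, Dat nb (T.Pp k) := by
  simp only [symB, sym, Bool.and_eq_true] at h
  have s : ∀ M : Bx, Monotone M → M 2 < nb → Srt nb M := fun M m p =>
    ⟨m (by decide), m (by decide), p⟩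
  refine ⟨Sy.dat_vec var_XX fun M m p => ⟨_, _, _, _, _, _, (h M (s M m p)).1.1.1, rfl, rfl, rfl,
    rfl⟩, fun k => Sy.dat_sca var_XX (fun _ _ => rfl) fun M m p => ⟨_, _, _, ?_, rfl⟩⟩
  fin_cases k
  exacts [(h M (s M m p)).1.1.2, (h M (s M m p)).1.2, (h M (s M m p)).2]

end Tab

end Pool.Agent.MP_48470b_gt.Ck
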