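import Pool.Agent.MP_48470b_gt.Ck.Cst
import Pool.Agent.MP_48470b_gt.Ck.SymX
import Pool.Agent.MP_48470b_gt.Ms.X

/-! Executable definitions: records of polynomials and the shared tables. -/

noncomputable section

namespace Pool.Agent.MP_48470b_gt.Ck

open TT

/-- exponent of a power of two that covers three sizes -/
def lg3 (a b c : Nat) : Nat := Nat.succ (Nat.log2 (Nat.pred (mx a (mx b c))))

/-- four polynomials with the scale `2 ^ P` and exponents below `E0 E1 E2` -/
structure Rc where
  P : Nat
  E0 : Nat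
  E1 : Nat
  E2 : Nat
  b : Ms.Box

namespace Rc

variable (r : Rc)

/-- the layout at the full extents -/
def cg (gp gq : Nat) : Cfg := ⟨r.E0, r.E1, r.E2, 136, 86, lg3 r.E0 r.E1 r.E2, gp, gq⟩
def cE : Cfg := r.cg 1 1
/-- the component `f` at the full extents -/
def ld (f : Nat) : Nat := Ms.ld r.cE r.b 17 f
/-- the record is well formed -/
def ok : Bool := r.b.ok 17 && r.b.fit r.E0 r.E1 r.E2 && decide r.cE.Ok

end Rc

/-- the shared numbers: records of the map and of the eigenfunctions, mismatch on a face and near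
a box (unit `2 ^ -100`), words for the count, constants -/
structure Tab where
  dat : Nat → Nat → Nat → Rc
  phi : Nat → Nat → Nat → Rc
  ef : Nat → Nat → Nat → Nat → Nat
  ep : Nat → Nat → Nat → Nat
  cw : Nat → Nat → Nat → Nat
  ke : Ke

def srtB (i j k : Nat) : Bool := Nat.ble i j && Nat.ble j k && Nat.blt k nb

namespace Tab

variable (T : Tab)

/-- the bound for the eigenfunctions -/
def up (e : Nat) : Nat := Nat.shiftLeft e 26

def nb1 (e i j k a b c : Nat) : Bool := cond (srtB a b c)
  (cond (srtB (Nat.succ a) b c && Nat.ble a i) (Nat.ble (T.ef a b c 0) e) true &&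
    cond (srtB a (Nat.succ b) c && Nat.ble b j) (Nat.ble (T.ef a b c 1) e) true &&
    cond (srtB a b (Nat.succ c) && Nat.ble c k) (Nat.ble (T.ef a b c 2) e) true) true
/-- the faces near a box -/
def nbB (i j k : Nat) : Bool := Sy.all 3 fun a => Sy.all 3 fun b => Sy.all 3 fun c =>
  T.nb1 (T.ep i j k) i j k (Nat.pred (Nat.add i a)) (Nat.pred (Nat.add j b))
    (Nat.pred (Nat.add k c))

/-- the symmetries of two records -/
def sym (r q : Rc) (i j k : Nat) : Bool :=
  Sy.vec r.cE i j k (r.ld 0) (r.ld 1) (r.ld 2) (r.ld 3) &&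
    Sy.sca q.cE i j k (q.ld 0) && Sy.sca q.cE i j k (q.ld 1) && Sy.sca q.cE i j k (q.ld 2)
def symB (i j k : Nat) : Bool := sym (T.dat i j k) (T.phi i j k) i j k

end Tab

end Pool.Agent.MP_48470b_gt.Ck
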